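import Pool.Agent.H223.MB.Stm2

/-!
# Ambient isotopy is an equivalence relation (helper375 for helper223)
-/

open scoped RealInnerProductSpace Topology
open Set Filter

namespace Pool.Agent.H223.MB

private theorem ai_refl (K : Set V) : AmbientIsotopic K K := by
  refine ⟨fun _ x => x, continuous_snd.continuousOn, ?_, fun _ => rfl, ?_⟩
  · intro t _
    exact (Homeomorph.refl V).isHomeomorph
  · exact image_id K

private theorem ai_symm (K L : Set V) (h : AmbientIsotopic K L) : AmbientIsotopic L K := by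
  obtain ⟨H, hc, hh, h0, h1⟩ := h
  have hH1 : IsHomeomorph (H 1) := hh 1 ⟨zero_le_one, le_rfl⟩
  obtain ⟨e, he⟩ : ∃ e : V ≃ₜ V, ∀ x, e x = H 1 x := ⟨hH1.homeomorph, fun x => rfl⟩
  refine ⟨fun t x => H (1 - t) (e.symm x), ?_, ?_, ?_, ?_⟩
  · have hg : Continuous (fun q : ℝ × V => ((1 - q.1, e.symm q.2) : ℝ × V)) :=
      (continuous_const.sub continuous_fst).prodMk (e.symm.continuous.comp continuous_snd)
    refine ContinuousOn.comp (g := fun q : ℝ × V => H q.1 q.2) hc hg.continuousOn ?_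
    rintro ⟨t, x⟩ ⟨ht, _⟩
    exact ⟨⟨by have := ht.2; simp only at this ⊢; linarith,
      by have := ht.1; simp only at this ⊢; linarith⟩, mem_univ _⟩
  · intro t ht
    exact (hh (1 - t) ⟨by linarith [ht.2], by linarith [ht.1]⟩).comp e.symm.isHomeomorph
  · intro x
    change H (1 - 0) (e.symm x) = x
    rw [sub_zero, ← he, e.apply_symm_apply]
  · ext x
    constructor
    · rintro ⟨y, hy, rfl⟩
      rw [← h1] at hy
      obtain ⟨z, hz, rfl⟩ := hy
      change H (1 - 1) (e.symm (H 1 z)) ∈ K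
      rw [sub_self, h0, ← he, e.symm_apply_apply]
      exact hz
    · intro hx
      refine ⟨H 1 x, ?_, ?_⟩
      · rw [← h1]
        exact ⟨x, hx, rfl⟩
      · change H (1 - 1) (e.symm (H 1 x)) = x
        rw [sub_self, h0, ← he, e.symm_apply_apply]

private theorem ai_trans (K L M : Set V) (h : AmbientIsotopic K L) (h' : AmbientIsotopic L M) :
    AmbientIsotopic K M := by
  obtain ⟨H, hc, hh, h0, h1⟩ := h
  obtain ⟨F, gc, gh, g0, g1⟩ := h'
  have hH1 : IsHomeomorph (H 1) := hh 1 ⟨zero_le_one, le_rfl⟩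
  refine ⟨fun t x => if t ≤ 1 / 2 then H (2 * t) x else F (2 * t - 1) (H 1 x), ?_, ?_, ?_, ?_⟩
  · have hU : (Icc (0 : ℝ) 1 ×ˢ (univ : Set V)) =
        (Icc (0 : ℝ) (1 / 2) ×ˢ (univ : Set V)) ∪ (Icc (1 / 2 : ℝ) 1 ×ˢ (univ : Set V)) := by
      rw [← Set.union_prod, Set.Icc_union_Icc_eq_Icc (by norm_num) (by norm_num)]
    rw [hU]
    refine ContinuousOn.union_of_isClosed ?_ ?_ (isClosed_Icc.prod isClosed_univ)
      (isClosed_Icc.prod isClosed_univ)
    · have hg : Continuous (fun q : ℝ × V => ((2 * q.1, q.2) : ℝ × V)) :=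
        (continuous_const.mul continuous_fst).prodMk continuous_snd
      have h2 : ContinuousOn (fun q : ℝ × V => H (2 * q.1) q.2)
          (Icc (0 : ℝ) (1 / 2) ×ˢ (univ : Set V)) := by
        refine ContinuousOn.comp (g := fun q : ℝ × V => H q.1 q.2) hc hg.continuousOn ?_
        rintro ⟨t, x⟩ ⟨ht, _⟩
        exact ⟨⟨by have := ht.1; simp only at this ⊢; linarith,
          by have := ht.2; simp only at this ⊢; linarith⟩, mem_univ _⟩
      refine h2.congr ?_
      rintro ⟨t, x⟩ ⟨ht, _⟩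
      exact if_pos ht.2
    · have hg : Continuous (fun q : ℝ × V => ((2 * q.1 - 1, H 1 q.2) : ℝ × V)) :=
        ((continuous_const.mul continuous_fst).sub continuous_const).prodMk
          (hH1.continuous.comp continuous_snd)
      have h2 : ContinuousOn (fun q : ℝ × V => F (2 * q.1 - 1) (H 1 q.2))
          (Icc (1 / 2 : ℝ) 1 ×ˢ (univ : Set V)) := by
        refine ContinuousOn.comp (g := fun q : ℝ × V => F q.1 q.2) gc hg.continuousOn ?_
        rintro ⟨t, x⟩ ⟨ht, _⟩
        exact ⟨⟨by have := ht.1; simp only at this ⊢; linarith,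
          by have := ht.2; simp only at this ⊢; linarith⟩, mem_univ _⟩
      refine h2.congr ?_
      rintro ⟨t, x⟩ ⟨ht, _⟩
      by_cases h3 : t ≤ 1 / 2
      · have h4 : t = 1 / 2 := le_antisymm h3 ht.1
        change (if t ≤ 1 / 2 then H (2 * t) x else F (2 * t - 1) (H 1 x)) = F (2 * t - 1) (H 1 x)
        rw [if_pos h3, h4]
        have h5 : (2 : ℝ) * (1 / 2) - 1 = 0 := by norm_num
        have h6 : (2 : ℝ) * (1 / 2) = 1 := by norm_num
        rw [h5, h6, g0]
      · exact if_neg h3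
  · intro t ht
    by_cases h3 : t ≤ 1 / 2
    · have h4 : (fun x => if t ≤ 1 / 2 then H (2 * t) x else F (2 * t - 1) (H 1 x)) = H (2 * t) := by
        funext x
        exact if_pos h3
      change IsHomeomorph (fun x => if t ≤ 1 / 2 then H (2 * t) x else F (2 * t - 1) (H 1 x))
      rw [h4]
      exact hh _ ⟨by linarith [ht.1], by linarith⟩
    · have h4 : (fun x => if t ≤ 1 / 2 then H (2 * t) x else F (2 * t - 1) (H 1 x)) =
          F (2 * t - 1) ∘ H 1 := by
        funext x
        exact if_neg h3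
      change IsHomeomorph (fun x => if t ≤ 1 / 2 then H (2 * t) x else F (2 * t - 1) (H 1 x))
      rw [h4]
      push Not at h3
      exact (gh _ ⟨by linarith, by linarith [ht.2]⟩).comp hH1
  · intro x
    change (if (0 : ℝ) ≤ 1 / 2 then H (2 * 0) x else F (2 * 0 - 1) (H 1 x)) = x
    rw [if_pos (by norm_num), mul_zero, h0]
  · have h4 : (fun x => if (1 : ℝ) ≤ 1 / 2 then H (2 * 1) x else F (2 * 1 - 1) (H 1 x)) =
        F 1 ∘ H 1 := by
      funext x
      rw [if_neg (by norm_num)]
      have h5 : (2 : ℝ) * 1 - 1 = 1 := by norm_num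
      rw [h5]
      rfl
    change (fun x => if (1 : ℝ) ≤ 1 / 2 then H (2 * 1) x else F (2 * 1 - 1) (H 1 x)) '' K = M
    rw [h4, image_comp, h1, g1]

theorem pAI : AI := ⟨ai_symm, ai_trans, ai_refl⟩

end Pool.Agent.H223.MB
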