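import Pool.Agent.H223.MB.Stm2

/-! # AI: ambient isotopy is an equivalence relation (helper117, for helper223's project MB) -/

open scoped RealInnerProductSpace Topology
open Set Filter

namespace Pool.Agent.H223.MB

private theorem ai_refl (K : Set V) : AmbientIsotopic K K :=
  ⟨fun _ x => x, continuous_snd.continuousOn, fun _ _ => (Homeomorph.refl V).isHomeomorph,
    fun _ => rfl, by simp⟩

private theorem ai_symm {K L : Set V} (h : AmbientIsotopic K L) : AmbientIsotopic L K := by
  obtain ⟨H, hc, hh, h0, h1⟩ := h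
  have h1h := hh 1 (by simp)
  let e : V ≃ₜ V := h1h.homeomorph (H 1)
  have he : ∀ x, e x = H 1 x := fun x => rfl
  refine ⟨fun t x => H (1 - t) (e.symm x), ?_, ?_, ?_, ?_⟩
  · have h2 : ContinuousOn (fun q : ℝ × V => ((1 - q.1, e.symm q.2) : ℝ × V))
        (Icc 0 1 ×ˢ univ) := by
      apply Continuous.continuousOn
      exact (continuous_const.sub continuous_fst).prodMk (e.symm.continuous.comp continuous_snd)
    exact hc.comp h2 (fun q hq => ⟨⟨by have := hq.1.2; simp only; linarith,
      by have := hq.1.1; simp only; linarith⟩, mem_univ _⟩)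
  · intro t ht
    exact (hh (1 - t) ⟨by linarith [ht.2], by linarith [ht.1]⟩).comp e.symm.isHomeomorph
  · intro x
    show H (1 - 0) (e.symm x) = x
    rw [sub_zero, ← he]
    exact e.apply_symm_apply x
  · show (fun x => H (1 - 1) (e.symm x)) '' L = K
    rw [← h1, image_image]
    have h3 : ∀ x, H (1 - 1) (e.symm (H 1 x)) = x := by
      intro x
      rw [sub_self, h0, ← he]
      exact e.symm_apply_apply x
    simp only [h3, image_id']

private theorem ai_clamp (t : ℝ) : max 0 (min 1 t) ∈ Icc (0 : ℝ) 1 :=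
  ⟨le_max_left _ _, max_le zero_le_one (min_le_left _ _)⟩

private theorem ai_trans {K L M : Set V} (h : AmbientIsotopic K L) (h' : AmbientIsotopic L M) :
    AmbientIsotopic K M := by
  obtain ⟨H, hc, hh, h0, h1⟩ := h
  obtain ⟨G, gc, gh, g0, g1⟩ := h'
  refine ⟨fun t x => G (max 0 (min 1 (2 * t - 1))) (H (max 0 (min 1 (2 * t))) x), ?_, ?_, ?_, ?_⟩
  · have h2 : ContinuousOn (fun q : ℝ × V => H (max 0 (min 1 (2 * q.1))) q.2)
        (Icc 0 1 ×ˢ univ) := by
      have h3 : Continuous (fun q : ℝ × V => ((max 0 (min 1 (2 * q.1)), q.2) : ℝ × V)) := by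
        fun_prop
      exact hc.comp h3.continuousOn (fun q _ => ⟨ai_clamp _, mem_univ _⟩)
    have h4 : ContinuousOn (fun q : ℝ × V => ((max 0 (min 1 (2 * q.1 - 1)),
        H (max 0 (min 1 (2 * q.1))) q.2) : ℝ × V)) (Icc 0 1 ×ˢ univ) := by
      refine ContinuousOn.prodMk ?_ h2
      apply Continuous.continuousOn
      fun_prop
    exact gc.comp h4 (fun q _ => ⟨ai_clamp _, mem_univ _⟩)
  · intro t _
    exact (gh _ (ai_clamp _)).comp (hh _ (ai_clamp _))
  · intro x
    have e1 : max 0 (min 1 (2 * (0 : ℝ) - 1)) = 0 := by norm_num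
    have e2 : max 0 (min 1 (2 * (0 : ℝ))) = 0 := by norm_num
    show G (max 0 (min 1 (2 * 0 - 1))) (H (max 0 (min 1 (2 * 0))) x) = x
    rw [e1, e2, h0, g0]
  · have e1 : max 0 (min 1 (2 * (1 : ℝ) - 1)) = 1 := by norm_num
    have e2 : max 0 (min 1 (2 * (1 : ℝ))) = 1 := by norm_num
    show (fun x => G (max 0 (min 1 (2 * 1 - 1))) (H (max 0 (min 1 (2 * 1))) x)) '' K = M
    rw [e1, e2, ← g1, ← h1, image_image]

/-- ambient isotopy is an equivalence relation -/
theorem pAI : AI :=
  ⟨fun _ _ h => ai_symm h, fun _ _ _ h h' => ai_trans h h', fun K => ai_refl K⟩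

end Pool.Agent.H223.MB
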