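import Pool.Agent.H223.MB.Stm

/-!
# C1: derivative of the energy along a straight path
-/

open scoped RealInnerProductSpace Topology
open Set Filter

namespace Pool.Agent.H223.MB

theorem c1_norm (a b u v : V) (h : b - a ≠ 0) :
    HasDerivAt (fun t : ℝ => ‖(b + t • v) - (a + t • u)‖)
      (‖b - a‖ * (⟪b - a, v - u⟫ / ‖b - a‖ ^ 2)) 0 := by
  have h1 : HasDerivAt (fun t : ℝ => (b + t • v) - (a + t • u)) (v - u) 0 := by
    have h2 : HasDerivAt (fun t : ℝ => t • v) v 0 := by
      simpa using (hasDerivAt_id (0 : ℝ)).smul_const v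
    have h3 : HasDerivAt (fun t : ℝ => t • u) u 0 := by
      simpa using (hasDerivAt_id (0 : ℝ)).smul_const u
    exact (h2.const_add b).sub (h3.const_add a)
  have h0 : (b + (0 : ℝ) • v) - (a + (0 : ℝ) • u) = b - a := by simp
  have h2 := h1.norm_sq
  have hn : ‖b - a‖ ≠ 0 := norm_ne_zero_iff.2 h
  have h3 := h2.sqrt (by
    rw [h0]
    exact pow_ne_zero 2 hn)
  have h4 : (fun t : ℝ => √(‖(b + t • v) - (a + t • u)‖ ^ 2)) =
      fun t : ℝ => ‖(b + t • v) - (a + t • u)‖ := by
    funext t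
    exact Real.sqrt_sq (norm_nonneg _)
  rw [h4, h0, Real.sqrt_sq (norm_nonneg _)] at h3
  have h5 : 2 * ⟪b - a, v - u⟫ / (2 * ‖b - a‖) = ‖b - a‖ * (⟪b - a, v - u⟫ / ‖b - a‖ ^ 2) := by
    field_simp
  rw [h5] at h3
  exact h3

theorem c1_inj (p w : Fin 6 → V) (hp : Function.Injective p) :
    ∀ᶠ t in 𝓝 (0 : ℝ), Function.Injective (fun i => p i + t • w i) := by
  have h1 : ∀ᶠ t in 𝓝 (0 : ℝ), ∀ i j : Fin 6, i ≠ j → p i + t • w i ≠ p j + t • w j := by
    rw [eventually_all]
    intro i
    rw [eventually_all]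
    intro j
    by_cases hij : i = j
    · exact Eventually.of_forall fun t h => absurd hij h
    · have hc1 : Continuous fun t : ℝ => (p i + t • w i) - (p j + t • w j) := by fun_prop
      have hne : (p i + (0 : ℝ) • w i) - (p j + (0 : ℝ) • w j) ≠ 0 := by
        simp only [zero_smul, add_zero]
        exact sub_ne_zero.2 fun h => hij (hp h)
      have h2 := hc1.continuousAt.eventually_ne hne
      filter_upwards [h2] with t ht _ h3
      exact ht (sub_eq_zero.2 h3)
  filter_upwards [h1] with t ht i j hij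
  by_contra h
  exact ht i j h hij

theorem pC1 (f2 : F2) (d2 : D2) : C1 := by
  intro p w hp L hL
  have h0 : (fun i => p i + (0 : ℝ) • w i) = p := by
    funext i
    simp
  have h1 := d2 (fun t => dm (fun i => p i + t • w i))
    (fun i j => ⟪p j - p i, w j - w i⟫ / ‖p j - p i‖ ^ 2) 0 univ (by
      intro i j hij
      have h2 := c1_norm (p i) (p j) (w i) (w j) (sub_ne_zero.2 fun h => hij (hp h.symm))
      have h3 : dm (fun i => p i + (0 : ℝ) • w i) i j = ‖p j - p i‖ := by
        rw [h0]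
        rfl
      rw [h3]
      exact h2.hasDerivWithinAt) (by
      intro i j hij
      rw [h0]
      exact norm_ne_zero_iff.2 (sub_ne_zero.2 fun h => hij (hp h.symm)))
  rw [hasDerivWithinAt_univ, h0, hL.rep _ (by
    intro i j
    have h2 : ⟪p i - p j, w i - w j⟫ = ⟪p j - p i, w j - w i⟫ := by
      rw [← neg_sub (p j) (p i), ← neg_sub (w j) (w i), inner_neg_neg]
    rw [h2, norm_sub_rev (p i) (p j)])] at h1
  refine h1.congr_of_eventuallyEq ?_
  filter_upwards [c1_inj p w hp] with t ht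
  exact f2 _ ht

end Pool.Agent.H223.MB
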