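import Pool.Agent.H223.MB.Stm

/-!
# The critical point equation (MP_6bf31b_an)
-/

open scoped RealInnerProductSpace Topology
open Set Filter

namespace Pool.Agent.H223.MB

theorem c2_swap (p w : Fin 6 → V) (L : Fin 6 → Fin 6 → ℝ) (hL : ∀ i j, L i j = L j i) :
    ∑ a, ∑ b, L a b / ‖p b - p a‖ ^ 2 * ⟪p b - p a, w b⟫ =
      -∑ a, ∑ b, L a b / ‖p b - p a‖ ^ 2 * ⟪p b - p a, w a⟫ := by
  rw [Finset.sum_comm, ← Finset.sum_neg_distrib]
  refine Finset.sum_congr rfl fun a _ => ?_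
  rw [← Finset.sum_neg_distrib]
  refine Finset.sum_congr rfl fun b _ => ?_
  have h1 : p a - p b = -(p b - p a) := (neg_sub _ _).symm
  rw [hL b a, norm_sub_rev (p a) (p b), h1, inner_neg_left]
  ring

theorem c2_split (p w : Fin 6 → V) (L : Fin 6 → Fin 6 → ℝ) (hL : ∀ i j, L i j = L j i) :
    ∑ a, ∑ b, L a b * (⟪p b - p a, w b - w a⟫ / ‖p b - p a‖ ^ 2) / 2 =
      -∑ a, ∑ b, L a b / ‖p b - p a‖ ^ 2 * ⟪p b - p a, w a⟫ := by
  have e1 : ∑ a, ∑ b, L a b * (⟪p b - p a, w b - w a⟫ / ‖p b - p a‖ ^ 2) / 2 =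
      (∑ a, ∑ b, L a b / ‖p b - p a‖ ^ 2 * ⟪p b - p a, w b⟫ -
        ∑ a, ∑ b, L a b / ‖p b - p a‖ ^ 2 * ⟪p b - p a, w a⟫) / 2 := by
    rw [← Finset.sum_sub_distrib, Finset.sum_div]
    refine Finset.sum_congr rfl fun a _ => ?_
    rw [← Finset.sum_sub_distrib, Finset.sum_div]
    refine Finset.sum_congr rfl fun b _ => ?_
    rw [inner_sub_right]
    ring
  rw [e1, c2_swap p w L hL]
  ring

theorem c2_locmin (p w : Fin 6 → V) (hmin : IsLocalMin energy p) :
    IsLocalMin (fun t : ℝ => energy (fun i => p i + t • w i)) 0 := by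
  have h0 : (fun i => p i + (0 : ℝ) • w i) = p := by
    funext i
    rw [zero_smul, add_zero]
  have hc : Continuous (fun t : ℝ => (fun i => p i + t • w i : Fin 6 → V)) :=
    continuous_pi fun i => continuous_const.add (continuous_id.smul continuous_const)
  have ht := hc.tendsto 0
  simp only [h0] at ht
  have h1 : ∀ᶠ t in 𝓝 (0 : ℝ), energy p ≤ energy (fun i => p i + t • w i) := ht.eventually hmin
  filter_upwards [h1] with t h2
  simp only [h0]
  exact h2

theorem pC2 (c1 : C1) : C2 := by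
  intro p hp hmin L hL i
  obtain ⟨F, hF⟩ : ∃ F : V, F = ∑ j, (L i j / ‖p j - p i‖ ^ 2) • (p j - p i) := ⟨_, rfl⟩
  rw [← hF]
  have key : ∀ v : V, ⟪F, v⟫ = 0 := by
    intro v
    obtain ⟨w, hw⟩ : ∃ w : Fin 6 → V, w = Pi.single i v := ⟨_, rfl⟩
    have h0 := (c2_locmin p w hmin).hasDerivAt_eq_zero (c1 p w hp L hL)
    rw [c2_split p w L hL.symm, neg_eq_zero, Finset.sum_eq_single i] at h0
    · rw [hF, sum_inner, ← h0]
      refine Finset.sum_congr rfl fun j _ => ?_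
      rw [real_inner_smul_left, hw, Pi.single_eq_same]
    · intro a _ ha
      refine Finset.sum_eq_zero fun b _ => ?_
      rw [hw, Pi.single_eq_of_ne ha, inner_zero_right, mul_zero]
    · intro h
      exact absurd (Finset.mem_univ i) h
  exact inner_self_eq_zero.1 (key F)

end Pool.Agent.H223.MB
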