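import Pool.Agent.H223.MB.Stm

/-!
# The energy of a hexagon as a function of the distances of its vertices
-/

set_option autoImplicit false

open scoped RealInnerProductSpace Topology
open Set Filter

namespace Pool.Agent.H223.MB

private theorem f2_ne (i j : Fin 6) (h : Far i j) :
    i ≠ i + 1 ∧ i ≠ j ∧ i ≠ j + 1 ∧ i + 1 ≠ j ∧ i + 1 ≠ j + 1 ∧ j ≠ j + 1 := by
  have key : ∀ i j : Fin 6, Far i j →
      i ≠ i + 1 ∧ i ≠ j ∧ i ≠ j + 1 ∧ i + 1 ≠ j ∧ i + 1 ≠ j + 1 ∧ j ≠ j + 1 := by decide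
  exact key i j h

theorem pF2 (f1 : F1) : F2 := by
  intro p hp
  unfold energy G
  refine Finset.sum_congr rfl fun i _ => Finset.sum_congr rfl fun j _ => ?_
  by_cases h : Far i j
  · obtain ⟨h1, h2, h3, h4, h5, h6⟩ := f2_ne i j h
    rw [if_pos h, if_pos h, f1 (p i) (p (i + 1)) (p j) (p (j + 1)) (hp.ne h1) (hp.ne h2)
      (hp.ne h3) (hp.ne h4) (hp.ne h5) (hp.ne h6)]
    rfl
  · rw [if_neg h, if_neg h]

end Pool.Agent.H223.MB
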