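import Pool.Agent.H223.MB.Stm

/-!
# Ptolemy's inequality for the matrix of the distances (MP_6bf31b_an)
-/

open scoped RealInnerProductSpace Topology
open Set Filter

namespace Pool.Agent.H223.MB

private lemma f3_dm (p : Fin 6 → V) (i j : Fin 6) : dm p i j = dist (p i) (p j) := by
  rw [dm, dist_eq_norm, norm_sub_rev]

/-- F3: the matrix of the distances is good. -/
theorem pF3 : F3 := by
  intro p hp
  refine ⟨fun i j => ?_, fun i j hij => ?_, fun i j _ => ?_, fun i j _ => ?_⟩
  · rw [f3_dm, f3_dm, dist_comm]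
  · rw [f3_dm]
    exact dist_pos.mpr (hp.ne hij)
  · have h := EuclideanGeometry.mul_dist_le_mul_dist_add_mul_dist (p i) (p (i + 1)) (p (j + 1)) (p j)
    simp only [PX, PY, PZ, f3_dm]
    rw [dist_comm (p (j + 1)) (p j)] at h
    linarith
  · have h := EuclideanGeometry.mul_dist_le_mul_dist_add_mul_dist (p i) (p (i + 1)) (p j) (p (j + 1))
    simp only [PX, PY, PZ, f3_dm]
    linarith

end Pool.Agent.H223.MB
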