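import Pool.Agent.H223.MB.Stm

/-!
# GEO1: one relation: sphere or plane
-/

open scoped RealInnerProductSpace Topology
open Set Filter

namespace Pool.Agent.H223.MB

theorem pGEO1 : GEO1 := by
  intro p hp hrank
  have hpos : 0 < Module.finrank ℝ (LinearMap.ker (Rel p)) := hrank
  obtain ⟨q, hq⟩ := Module.finrank_pos_iff_exists_ne_zero.1 hpos
  obtain ⟨⟨α, β, γ⟩, hker⟩ := q
  have hrel : ∀ i, α + inner ℝ β (p i) + γ * ‖p i‖ ^ 2 = 0 := fun i =>
    congrFun (LinearMap.mem_ker.1 hker) i
  by_cases hγ : γ = 0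
  · right
    have hβ : β ≠ 0 := by
      intro hb
      apply hq
      have h0 := hrel 0
      rw [hγ, hb, inner_zero_left, zero_mul, add_zero, add_zero] at h0
      apply Subtype.ext
      show (α, β, γ) = 0
      rw [h0, hb, hγ]
      rfl
    have hn : ‖β‖ ≠ 0 := norm_ne_zero_iff.2 hβ
    refine ⟨‖β‖⁻¹ • β, -α / ‖β‖, ?_, ?_⟩
    · rw [norm_smul, norm_inv, norm_norm, inv_mul_cancel₀ hn]
    · intro i
      rw [real_inner_smul_left]
      have h1 := hrel i
      rw [hγ, zero_mul, add_zero] at h1
      have h2 : inner ℝ β (p i) = -α := by linarith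
      rw [h2, div_eq_inv_mul]
  · left
    set c : V := (-(1 / (2 * γ))) • β with hc
    set ρ : ℝ := ‖c‖ ^ 2 - α / γ with hρ
    have key : ∀ i, ‖p i - c‖ ^ 2 = ρ := by
      intro i
      rw [norm_sub_sq_real, hc, real_inner_smul_right, real_inner_comm, ← hc, hρ]
      have h1 := hrel i
      have h2 : inner ℝ β (p i) = -α - γ * ‖p i‖ ^ 2 := by linarith
      rw [h2]
      field_simp
      ring
    have hρ0 : 0 < ρ := by
      rcases (by rw [← key 0]; positivity : 0 ≤ ρ).lt_or_eq with h | h
      · exact h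
      · exfalso
        have h0 : p 0 = c := by
          have h1 := key 0
          rw [← h] at h1
          have h2 : ‖p 0 - c‖ = 0 := by
            exact pow_eq_zero_iff (two_ne_zero) |>.1 h1
          exact sub_eq_zero.1 (norm_eq_zero.1 h2)
        have h01 : p 1 = c := by
          have h1 := key 1
          rw [← h] at h1
          have h2 : ‖p 1 - c‖ = 0 := by
            exact pow_eq_zero_iff (two_ne_zero) |>.1 h1
          exact sub_eq_zero.1 (norm_eq_zero.1 h2)
        have h3 : (0 : Fin 6) = 1 := hp (h0.trans h01.symm)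
        exact absurd h3 (by decide)
    refine ⟨c, Real.sqrt ρ, Real.sqrt_pos.2 hρ0, fun i => ?_⟩
    rw [← key i, Real.sqrt_sq (norm_nonneg _)]

end Pool.Agent.H223.MB
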