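import Pool.Agent.H223.MB.Stm

open scoped RealInnerProductSpace Topology
open Set Filter

namespace Pool.Agent.H223.MB

/-- `f` is homogeneous of degree zero -/
theorem hom_f (k X Y Z : ℝ) (hk : k ≠ 0) : f (k * X) (k * Y) (k * Z) = f X Y Z := by
  unfold f
  have h1 : (k * X + k * Y) ^ 2 - (k * Z) ^ 2 = k ^ 2 * ((X + Y) ^ 2 - Z ^ 2) := by ring
  have h2 : 2 * (k * Y) * (k * Z) = k ^ 2 * (2 * Y * Z) := by ring
  rw [h1, h2]
  exact mul_div_mul_left _ _ (pow_ne_zero 2 hk)

theorem hom_ne (i : Fin 6) : i ≠ i + 1 := by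
  revert i
  decide

theorem pHOM : HOM := by
  intro r s c hc h
  unfold G
  refine Finset.sum_congr rfl fun i _ => Finset.sum_congr rfl fun j _ => ?_
  by_cases hF : Far i j
  · rw [if_pos hF, if_pos hF]
    obtain ⟨h1, h2, h3⟩ := hF
    have h4 : i + 1 ≠ j + 1 := fun h => h1 (add_right_cancel h).symm
    have hk : c i * c (i + 1) * c j * c (j + 1) ≠ 0 :=
      mul_ne_zero (mul_ne_zero (mul_ne_zero (hc _) (hc _)) (hc _)) (hc _)
    have eX : PX s i j = c i * c (i + 1) * c j * c (j + 1) * PX r i j := by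
      unfold PX
      rw [h i (i + 1) (hom_ne i), h j (j + 1) (hom_ne j)]
      ring
    have eY : PY s i j = c i * c (i + 1) * c j * c (j + 1) * PY r i j := by
      unfold PY
      rw [h (i + 1) j h2.symm, h i (j + 1) h3]
      ring
    have eZ : PZ s i j = c i * c (i + 1) * c j * c (j + 1) * PZ r i j := by
      unfold PZ
      rw [h i j h1.symm, h (i + 1) (j + 1) h4]
      ring
    rw [eX, eY, eZ]
    exact hom_f _ _ _ _ hk
  · rw [if_neg hF, if_neg hF]

end Pool.Agent.H223.MB
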