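import Pool.Agent.H223.MB.Stm

/-!
# KER: the stress matrix kills `1`, the coordinates and `|p|²` (MP_6bf31b_an)
-/

open scoped RealInnerProductSpace Topology
open Set Filter

namespace Pool.Agent.H223.MB

private theorem ker_mulVec (W : Fin 6 → Fin 6 → ℝ) (g : Fin 6 → ℝ) (i : Fin 6) :
    (Matrix.of fun i j => (if i = j then ∑ k, W i k else 0) - W i j).mulVec g i =
      ∑ j, W i j * (g i - g j) := by
  simp only [Matrix.mulVec, dotProduct, Matrix.of_apply, sub_mul, ite_mul, zero_mul,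
    Finset.sum_sub_distrib, Finset.sum_ite_eq, Finset.mem_univ, if_true, mul_sub, Finset.sum_mul]

private theorem ker_quad (W : Fin 6 → Fin 6 → ℝ) (hW : ∀ i j, W i j = W j i) (z : Fin 6 → ℝ) :
    ∑ i, z i * ∑ j, W i j * (z i - z j) = (∑ i, ∑ j, W i j * (z i - z j) ^ 2) / 2 := by
  have h1 : ∑ i, z i * ∑ j, W i j * (z i - z j) = ∑ i, ∑ j, W i j * (z i * (z i - z j)) := by
    refine Finset.sum_congr rfl fun i _ => ?_
    rw [Finset.mul_sum]
    refine Finset.sum_congr rfl fun j _ => ?_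
    ring
  have h2 : ∑ i, ∑ j, W i j * (z i * (z i - z j)) = ∑ i, ∑ j, W i j * (z j * (z j - z i)) := by
    rw [Finset.sum_comm]
    refine Finset.sum_congr rfl fun i _ => ?_
    refine Finset.sum_congr rfl fun j _ => ?_
    rw [hW]
  have h3 : ∑ i, ∑ j, W i j * (z i - z j) ^ 2 = ∑ i, ∑ j, W i j * (z i * (z i - z j)) +
      ∑ i, ∑ j, W i j * (z j * (z j - z i)) := by
    rw [← Finset.sum_add_distrib]
    refine Finset.sum_congr rfl fun i _ => ?_
    rw [← Finset.sum_add_distrib]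
    refine Finset.sum_congr rfl fun j _ => ?_
    ring
  rw [h1, h3, ← h2]
  ring

theorem pKER : KER := by
  intro p hp L hL hcrit
  obtain ⟨W, hWdef⟩ : ∃ W : Fin 6 → Fin 6 → ℝ, W = fun i j => L i j / ‖p j - p i‖ ^ 2 := ⟨_, rfl⟩
  have hWa : ∀ i j, L i j / ‖p j - p i‖ ^ 2 = W i j := by
    intro i j
    rw [hWdef]
  have hW : ∀ i j, W i j = W j i := by
    intro i j
    rw [← hWa, ← hWa, hL.symm i j, norm_sub_rev]
  have hcrit' : ∀ i, ∑ j, W i j • (p j - p i) = 0 := by
    intro i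
    have := hcrit i
    simpa only [hWa] using this
  have hsum : ∀ i, ∑ j, W i j * ‖p j - p i‖ ^ 2 = 0 := by
    intro i
    rw [← hL.sum i]
    refine Finset.sum_congr rfl fun j _ => ?_
    rw [← hWa]
    by_cases h : j = i
    · rw [h, hL.diag]
      simp
    · have h1 : ‖p j - p i‖ ^ 2 ≠ 0 := by
        have h2 : p j - p i ≠ 0 := sub_ne_zero.2 fun h3 => h (hp h3)
        exact pow_ne_zero 2 (norm_ne_zero_iff.2 h2)
      exact div_mul_cancel₀ _ h1
  refine ⟨Matrix.of fun i j => (if i = j then ∑ k, W i k else 0) - W i j, ?_, ?_, ?_, ?_⟩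
  · ext i j
    rw [Matrix.transpose_apply, Matrix.of_apply, Matrix.of_apply, hW j i]
    by_cases h : i = j
    · rw [h]
    · rw [if_neg h, if_neg (Ne.symm h)]
  · intro i j hij
    rw [Matrix.of_apply, if_neg (Ne.symm hij.1), ← hWa]
    have h1 : 0 < ‖p j - p i‖ ^ 2 := by
      have h2 : p j - p i ≠ 0 := sub_ne_zero.2 fun h3 => hij.1 (hp h3)
      exact pow_pos (norm_pos_iff.2 h2) 2
    have h2 := div_neg_of_neg_of_pos (hL.neg i j hij) h1
    linarith
  · rintro ⟨a, b, c⟩
    ext i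
    rw [ker_mulVec, Pi.zero_apply]
    have h1 : ∀ j, W i j * (Rel p (a, b, c) i - Rel p (a, b, c) j) =
        -⟪b, W i j • (p j - p i)⟫ - c * (W i j * ‖p j - p i‖ ^ 2) -
          2 * c * ⟪p i, W i j • (p j - p i)⟫ := by
      intro j
      have h2 : Rel p (a, b, c) i - Rel p (a, b, c) j =
          ⟪b, p i⟫ - ⟪b, p j⟫ + c * (‖p i‖ ^ 2 - ‖p j‖ ^ 2) := by
        show (a + ⟪b, p i⟫ + c * ‖p i‖ ^ 2) - (a + ⟪b, p j⟫ + c * ‖p j‖ ^ 2) = _
        ring
      rw [h2, inner_smul_right, inner_smul_right, inner_sub_right, inner_sub_right,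
        norm_sub_sq_real, real_inner_self_eq_norm_sq, real_inner_comm (p i) (p j)]
      ring
    rw [Finset.sum_congr rfl fun j _ => h1 j, Finset.sum_sub_distrib, Finset.sum_sub_distrib,
      Finset.sum_neg_distrib, ← inner_sum, ← Finset.mul_sum, ← Finset.mul_sum, ← inner_sum,
      hcrit', hsum, inner_zero_right, inner_zero_right]
    ring
  · intro z
    simp only [hWa]
    rw [← ker_quad W hW z]
    simp only [dotProduct, ker_mulVec]

end Pool.Agent.H223.MB
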