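import Pool.Agent.H223.MB.Stm

/-!
LA1: a symmetric matrix of rank at most one with positive nonadjacent entries has no zero row sums
(helper808 for helper223).
-/

open scoped RealInnerProductSpace Topology
open Set Filter

namespace Pool.Agent.H223.MB

theorem la1_minor (M : Matrix (Fin 6) (Fin 6) ℝ) (h : M.rank ≤ 1) (i j k l : Fin 6) :
    M i k * M j l = M i l * M j k := by
  have h1 : Module.finrank ℝ (LinearMap.range M.mulVecLin) ≤ 1 := h
  obtain ⟨v, hv⟩ := finrank_le_one_iff.1 h1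
  have hcol : ∀ k, ∃ c : ℝ, ∀ i, M i k = c * (v : Fin 6 → ℝ) i := by
    intro k
    obtain ⟨c, hc⟩ := hv ⟨M.mulVecLin (Pi.single k 1), LinearMap.mem_range_self _ _⟩
    refine ⟨c, fun i => ?_⟩
    have h2 := congrArg (fun w : LinearMap.range M.mulVecLin => (w : Fin 6 → ℝ) i) hc
    simp only [Submodule.coe_smul, Pi.smul_apply, smul_eq_mul, Matrix.mulVecLin_apply,
      Matrix.mulVec_single_one] at h2
    rw [h2]
    rfl
  obtain ⟨c, hc⟩ := hcol k
  obtain ⟨c', hc'⟩ := hcol l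
  rw [hc i, hc' j, hc' i, hc j]
  ring

theorem pLA1 : LA1 := by
  intro M _ hpos hrow hrank
  have hm := la1_minor M hrank
  have p24 : 0 < M 2 4 := hpos 2 4 (by unfold NonAdj; decide)
  have p04 : 0 < M 0 4 := hpos 0 4 (by unfold NonAdj; decide)
  have p20 : 0 < M 2 0 := hpos 2 0 (by unfold NonAdj; decide)
  have p31 : 0 < M 3 1 := hpos 3 1 (by unfold NonAdj; decide)
  have p30 : 0 < M 3 0 := hpos 3 0 (by unfold NonAdj; decide)
  have p35 : 0 < M 3 5 := hpos 3 5 (by unfold NonAdj; decide)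
  have p02 : 0 < M 0 2 := hpos 0 2 (by unfold NonAdj; decide)
  have p03 : 0 < M 0 3 := hpos 0 3 (by unfold NonAdj; decide)
  have e1 : M 0 0 * M 2 4 = M 0 4 * M 2 0 := hm 0 2 0 4
  have p00 : 0 < M 0 0 := by
    have : 0 < M 0 0 * M 2 4 := by rw [e1]; exact mul_pos p04 p20
    exact (pos_iff_pos_of_mul_pos this).2 p24
  have e2 : M 0 0 * M 3 1 = M 0 1 * M 3 0 := hm 0 3 0 1
  have p01 : 0 < M 0 1 := by
    have : 0 < M 0 1 * M 3 0 := by rw [← e2]; exact mul_pos p00 p31
    exact (pos_iff_pos_of_mul_pos this).2 p30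
  have e3 : M 0 0 * M 3 5 = M 0 5 * M 3 0 := hm 0 3 0 5
  have p05 : 0 < M 0 5 := by
    have : 0 < M 0 5 * M 3 0 := by rw [← e3]; exact mul_pos p00 p35
    exact (pos_iff_pos_of_mul_pos this).2 p30
  have h0 := hrow 0
  rw [Fin.sum_univ_six] at h0
  linarith

end Pool.Agent.H223.MB
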