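import Pool.Agent.H223.MB.Stm

/-!
# One sided second order condition (helper231)
-/

open scoped RealInnerProductSpace Topology
open Set Filter

namespace Pool.Agent.H223.MB

private theorem se0_mul {g : ℝ → ℝ} {s : Set ℝ} (hg : ContinuousWithinAt g s 0) :
    HasDerivWithinAt (fun u => u * g u) (g 0) s 0 := by
  rw [hasDerivWithinAt_iff_tendsto_slope]
  have h1 : Tendsto g (𝓝[s \ {0}] 0) (𝓝 (g 0)) := hg.mono_left (nhdsWithin_mono _ Set.sdiff_subset)
  refine h1.congr' ?_
  filter_upwards [self_mem_nhdsWithin] with u hu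
  have h2 : u ≠ 0 := fun h => hu.2 h
  rw [slope_def_field, zero_mul, sub_zero, sub_zero, mul_div_cancel_left₀ _ h2]

private theorem se0_nonneg {g : ℝ → ℝ} {g' : ℝ} (hg : HasDerivWithinAt g g' (Ici 0) 0)
    (h : ∀ᶠ u in 𝓝[>] (0 : ℝ), g 0 ≤ g u) : 0 ≤ g' := by
  rw [hasDerivWithinAt_iff_tendsto_slope, Set.Ici_sdiff_left] at hg
  refine ge_of_tendsto hg ?_
  filter_upwards [h, self_mem_nhdsWithin] with u hu h0
  have h1 : (0 : ℝ) < u := h0
  rw [slope_def_field, sub_zero]
  exact div_nonneg (by linarith) h1.le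

theorem pSE0 (f2 : F2) (d2 : D2) (hom : HOM) : SE0 := by
  intro p hp hmin L hL b P B c hb hP0 hP hB hB0 hc hrel
  have hD : ∀ i j, i ≠ j → 0 < ‖p j - p i‖ ^ 2 := by
    intro i j hij
    have h1 : p j - p i ≠ 0 := sub_ne_zero.2 fun h => hij (hp h).symm
    have h2 : 0 < ‖p j - p i‖ := norm_pos_iff.2 h1
    positivity
  obtain ⟨r, hr⟩ : ∃ r : ℝ → Fin 6 → Fin 6 → ℝ,
    r = fun u i j => Real.sqrt (‖p j - p i‖ ^ 2 + u * B (Real.sqrt u) i j) := ⟨_, rfl⟩
  obtain ⟨l, hl⟩ : ∃ l : Fin 6 → Fin 6 → ℝ, l = fun i j => b i j / (2 * ‖p j - p i‖ ^ 2) := ⟨_, rfl⟩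
  have hr0 : r 0 = dm p := by
    funext i j
    rw [hr]
    simp only [zero_mul, add_zero, dm]
    exact Real.sqrt_sq (norm_nonneg _)
  have hder : ∀ i j, i ≠ j → HasDerivWithinAt (fun u => r u i j) (r 0 i j * l i j) (Ici 0) 0 := by
    intro i j hij
    have hcont : ContinuousWithinAt (fun u => B (Real.sqrt u) i j) (Ici 0) 0 := by
      have h1 : ContinuousAt (fun u => B (Real.sqrt u) i j) 0 := by
        have h2 : ContinuousAt (fun t => B t i j) (Real.sqrt 0) := by
          rw [Real.sqrt_zero]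
          exact hB i j
        exact ContinuousAt.comp (f := Real.sqrt) (g := fun t => B t i j) h2
          Real.continuous_sqrt.continuousAt
      exact h1.continuousWithinAt
    have h1 := ((se0_mul hcont).const_add (‖p j - p i‖ ^ 2)).sqrt (by
      rw [zero_mul, add_zero]
      exact (hD i j hij).ne')
    have e : r 0 i j * l i j = B (Real.sqrt 0) i j /
        (2 * Real.sqrt (‖p j - p i‖ ^ 2 + 0 * B (Real.sqrt 0) i j)) := by
      rw [hr0, hl, Real.sqrt_zero, hB0, zero_mul, add_zero, Real.sqrt_sq (norm_nonneg _)]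
      simp only [dm]
      have h2 : ‖p j - p i‖ ≠ 0 := by
        intro h
        have := hD i j hij
        rw [h] at this
        norm_num at this
      field_simp
    rw [e, hr]
    exact h1
  have hne : ∀ i j, i ≠ j → r 0 i j ≠ 0 := by
    intro i j hij
    rw [hr0]
    intro h
    have h1 := hD i j hij
    simp only [dm] at h
    rw [h] at h1
    norm_num at h1
  have hG := d2 r l 0 (Ici 0) hder hne
  rw [hr0] at hG
  have hls : ∀ i j, l i j = l j i := by
    intro i j
    rw [hl]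
    simp only
    rw [hb i j, norm_sub_rev]
  rw [hL.rep l hls] at hG
  have hT : Tendsto Real.sqrt (𝓝[>] (0 : ℝ)) (𝓝 0) := by
    have h1 : Tendsto Real.sqrt (𝓝 (0 : ℝ)) (𝓝 (Real.sqrt 0)) :=
      Real.continuous_sqrt.continuousAt
    rw [Real.sqrt_zero] at h1
    exact h1.mono_left nhdsWithin_le_nhds
  have hPt : Tendsto P (𝓝 0) (𝓝 p) := by
    have h1 : Tendsto P (𝓝 0) (𝓝 (P 0)) := hP
    rwa [hP0] at h1
  have hinj : ∀ᶠ t in 𝓝 (0 : ℝ), Function.Injective (P t) := by
    have h1 : ∀ᶠ t in 𝓝 (0 : ℝ), ∀ i j, i ≠ j → P t i ≠ P t j := by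
      rw [Filter.eventually_all]
      intro i
      rw [Filter.eventually_all]
      intro j
      by_cases hij : i = j
      · exact Eventually.of_forall fun t h => absurd hij h
      · have h2 : Tendsto (fun t => P t i - P t j) (𝓝 0) (𝓝 (p i - p j)) :=
          ((continuous_apply i).tendsto p |>.comp hPt).sub ((continuous_apply j).tendsto p |>.comp hPt)
        have h3 : p i - p j ≠ 0 := sub_ne_zero.2 fun h => hij (hp h)
        filter_upwards [h2.eventually_ne h3] with t ht _
        exact sub_ne_zero.1 ht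
    filter_upwards [h1] with t ht i j hij
    by_contra h
    exact ht i j h hij
  have hmin' : ∀ᶠ t in 𝓝 (0 : ℝ), energy p ≤ energy (P t) := hPt.eventually hmin
  have hall : ∀ᶠ u in 𝓝[>] (0 : ℝ), G (r 0) ≤ G (r u) := by
    filter_upwards [hT.eventually hinj, hT.eventually hmin', hT.eventually hc, hT.eventually hrel,
      self_mem_nhdsWithin] with u h1 h2 h3 h4 h5
    have hu : (0 : ℝ) < u := h5
    rw [hr0, ← f2 p hp]
    refine h2.trans (le_of_eq ?_)
    rw [f2 _ h1]
    refine hom (r u) (dm (P (Real.sqrt u))) (fun i => Real.sqrt (c (Real.sqrt u) i))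
      (fun i => (Real.sqrt_pos.2 (h3 i)).ne') fun i j hij => ?_
    have h6 := h4 i j hij
    rw [Real.sq_sqrt hu.le] at h6
    have h7 : dm (P (Real.sqrt u)) i j = Real.sqrt (‖P (Real.sqrt u) j - P (Real.sqrt u) i‖ ^ 2) := by
      rw [Real.sqrt_sq (norm_nonneg _)]
      rfl
    rw [h7, h6, Real.sqrt_mul (mul_nonneg (h3 i).le (h3 j).le), Real.sqrt_mul (h3 i).le, hr]
  rw [hr0] at hall
  have hfin := se0_nonneg (g := fun u => G (r u)) hG (by
    simp only [hr0]
    exact hall)
  have e : ∑ i, ∑ j, L i j / ‖p j - p i‖ ^ 2 * b i j = 4 * ∑ i, ∑ j, L i j * l i j / 2 := by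
    rw [Finset.mul_sum]
    refine Finset.sum_congr rfl fun i _ => ?_
    rw [Finset.mul_sum]
    refine Finset.sum_congr rfl fun j _ => ?_
    rw [hl]
    simp only
    rw [div_eq_mul_inv, div_eq_mul_inv (b i j), mul_inv]
    ring
  rw [e]
  linarith

end Pool.Agent.H223.MB
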