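import Pool.Agent.H223.MB.Stm

/-!
# T2: the hat functions are Lipschitz on the polygon
-/

open scoped RealInnerProductSpace Topology
open Set Filter

namespace Pool.Agent.H223.MB

theorem t2_hat01 (k i : Fin 6) {s : ℝ} (hs : s ∈ Icc (0 : ℝ) 1) : 0 ≤ hat k i s ∧ hat k i s ≤ 1 := by
  obtain ⟨h0, h1⟩ := hs
  unfold hat
  split_ifs <;> constructor <;> linarith

theorem t2_hat_same (k i : Fin 6) (s t : ℝ) : |hat k i s - hat k i t| ≤ |s - t| := by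
  have h1 := le_abs_self (s - t)
  have h2 := neg_abs_le (s - t)
  have h3 := abs_nonneg (s - t)
  rw [abs_le]
  unfold hat
  split_ifs <;> constructor <;> linarith

theorem t2_hat_next (k i : Fin 6) {s t : ℝ} (hs : s ∈ Icc (0 : ℝ) 1) (ht : t ∈ Icc (0 : ℝ) 1) :
    |hat k i s - hat k (i + 1) t| ≤ (1 - s) + t := by
  obtain ⟨h0, h1⟩ := hs
  obtain ⟨h2, h3⟩ := ht
  rw [abs_le]
  unfold hat
  split_ifs <;> constructor <;> linarith

theorem t2_mem (p : Fin 6 → V) (i : Fin 6) {s : ℝ} (hs : s ∈ Icc (0 : ℝ) 1) : pt p i s ∈ edge p i :=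
  ⟨1 - s, s, by linarith [hs.2], hs.1, by ring, rfl⟩

theorem t2_ne1 : ∀ i : Fin 6, i ≠ i + 1 := by decide

theorem t2_ne2 : ∀ i : Fin 6, i ≠ i + 1 + 1 := by decide

theorem t2_cancel : ∀ i j : Fin 6, i + 1 = j + 1 → i = j := by decide

theorem t2_same (p : Fin 6 → V) (hp : Embedded p) (i : Fin 6) :
    ∃ C : ℝ, 0 ≤ C ∧ ∀ k : Fin 6, ∀ s ∈ Icc (0 : ℝ) 1, ∀ t ∈ Icc (0 : ℝ) 1,
      |hat k i s - hat k i t| ≤ C * ‖pt p i s - pt p i t‖ := by
  have hne : p i - p (i + 1) ≠ 0 := sub_ne_zero.2 fun h => t2_ne1 i (hp.1 h)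
  have hpos : 0 < ‖p i - p (i + 1)‖ := norm_pos_iff.2 hne
  refine ⟨‖p i - p (i + 1)‖⁻¹, by positivity, ?_⟩
  intro k s hs t ht
  have e : pt p i s - pt p i t = (t - s) • (p i - p (i + 1)) := by
    unfold pt
    module
  rw [e, norm_smul, Real.norm_eq_abs, abs_sub_comm t s]
  refine (t2_hat_same k i s t).trans (le_of_eq ?_)
  rw [mul_comm (|s - t|), ← mul_assoc, inv_mul_cancel₀ hpos.ne', one_mul]

theorem t2_next (t1 : T1) (p : Fin 6 → V) (hp : Embedded p) (i : Fin 6) :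
    ∃ C : ℝ, 0 ≤ C ∧ ∀ k : Fin 6, ∀ s ∈ Icc (0 : ℝ) 1, ∀ t ∈ Icc (0 : ℝ) 1,
      |hat k i s - hat k (i + 1) t| ≤ C * ‖pt p i s - pt p (i + 1) t‖ := by
  have hne1 : p i - p (i + 1) ≠ 0 := sub_ne_zero.2 fun h => t2_ne1 i (hp.1 h)
  have hne2 : p (i + 1 + 1) - p (i + 1) ≠ 0 := sub_ne_zero.2 fun h => t2_ne1 (i + 1) (hp.1 h).symm
  have hyp : ∀ s t : ℝ, 0 ≤ s → 0 ≤ t → s • (p i - p (i + 1)) = t • (p (i + 1 + 1) - p (i + 1)) →
      s = 0 ∧ t = 0 := by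
    intro s t hs ht hst
    rcases eq_or_lt_of_le (add_nonneg hs ht) with hN | hN
    · constructor <;> linarith
    obtain ⟨σ, hσ⟩ : ∃ σ : ℝ, σ = (s + t)⁻¹ * s := ⟨_, rfl⟩
    obtain ⟨τ, hτ⟩ : ∃ τ : ℝ, τ = (s + t)⁻¹ * t := ⟨_, rfl⟩
    have hNi : 0 < (s + t)⁻¹ := inv_pos.2 hN
    have hσ0 : 0 ≤ σ := by rw [hσ]; positivity
    have hτ0 : 0 ≤ τ := by rw [hτ]; positivity
    have hsum : σ + τ = 1 := by
      rw [hσ, hτ, ← mul_add, inv_mul_cancel₀ hN.ne']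
    have hστ : σ • (p i - p (i + 1)) = τ • (p (i + 1 + 1) - p (i + 1)) := by
      rw [hσ, hτ, mul_smul, mul_smul, hst]
    have hx1 : p (i + 1) + σ • (p i - p (i + 1)) ∈ edge p i :=
      ⟨σ, 1 - σ, hσ0, by linarith, by ring, by module⟩
    have hx2 : p (i + 1) + σ • (p i - p (i + 1)) ∈ edge p (i + 1) := by
      rw [hστ]
      exact ⟨1 - τ, τ, by linarith, hτ0, by ring, by module⟩
    obtain ⟨h1, h2⟩ := hp.2 i (i + 1) (t2_ne1 i) ⟨hx1, hx2⟩
    have h3 : p (i + 1) + σ • (p i - p (i + 1)) = p (i + 1) := by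
      rcases h1 with h1 | h1
      · rcases h2 with h2 | h2
        · exact h2
        · exact absurd (hp.1 (h1.symm.trans h2)) (t2_ne2 i)
      · exact h1
    have h4 : σ • (p i - p (i + 1)) = 0 := by
      rwa [add_eq_left] at h3
    have h5 : σ = 0 := (smul_eq_zero.1 h4).resolve_right hne1
    have h6 : τ = 0 := by
      rw [h4] at hστ
      exact (smul_eq_zero.1 hστ.symm).resolve_right hne2
    exfalso
    linarith
  obtain ⟨c, hc, h⟩ := t1 _ _ hyp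
  refine ⟨c⁻¹, by positivity, ?_⟩
  intro k s hs t ht
  have e : pt p i s - pt p (i + 1) t =
      (1 - s) • (p i - p (i + 1)) - t • (p (i + 1 + 1) - p (i + 1)) := by
    unfold pt
    module
  have h1 := h (1 - s) t (by linarith [hs.2]) ht.1
  rw [← e] at h1
  refine (t2_hat_next k i hs ht).trans ?_
  rw [inv_mul_eq_div, le_div_iff₀ hc]
  linarith

theorem t2_far (p : Fin 6 → V) (hp : Embedded p) (i j : Fin 6) (h1 : i ≠ j) (h2 : j ≠ i + 1)
    (h3 : i ≠ j + 1) :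
    ∃ C : ℝ, 0 ≤ C ∧ ∀ k : Fin 6, ∀ s ∈ Icc (0 : ℝ) 1, ∀ t ∈ Icc (0 : ℝ) 1,
      |hat k i s - hat k j t| ≤ C * ‖pt p i s - pt p j t‖ := by
  have hcont : Continuous fun q : ℝ × ℝ => ‖pt p i q.1 - pt p j q.2‖ := by
    unfold pt
    fun_prop
  have hK : IsCompact (Icc (0 : ℝ) 1 ×ˢ Icc (0 : ℝ) 1) := isCompact_Icc.prod isCompact_Icc
  have hKne : (Icc (0 : ℝ) 1 ×ˢ Icc (0 : ℝ) 1).Nonempty :=
    (nonempty_Icc.2 zero_le_one).prod (nonempty_Icc.2 zero_le_one)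
  obtain ⟨q, hq, hmin⟩ := hK.exists_isMinOn hKne hcont.continuousOn
  rw [isMinOn_iff] at hmin
  rw [mem_prod] at hq
  have hpos : 0 < ‖pt p i q.1 - pt p j q.2‖ := by
    rw [norm_pos_iff, sub_ne_zero]
    intro hEq
    have hm1 : pt p i q.1 ∈ edge p i := t2_mem p i hq.1
    have hm2 : pt p i q.1 ∈ edge p j := by
      rw [hEq]
      exact t2_mem p j hq.2
    obtain ⟨g1, g2⟩ := hp.2 i j h1 ⟨hm1, hm2⟩
    rcases g1 with g1 | g1
    · rcases g2 with g2 | g2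
      · exact h1 (hp.1 (g1.symm.trans g2))
      · exact h3 (hp.1 (g1.symm.trans g2))
    · rcases g2 with g2 | g2
      · exact h2 (hp.1 (g1.symm.trans g2)).symm
      · exact h1 (t2_cancel i j (hp.1 (g1.symm.trans g2)))
  refine ⟨‖pt p i q.1 - pt p j q.2‖⁻¹, by positivity, ?_⟩
  intro k s hs t ht
  have h4 : ‖pt p i q.1 - pt p j q.2‖ ≤ ‖pt p i s - pt p j t‖ := hmin (s, t) (mk_mem_prod hs ht)
  have h5 : |hat k i s - hat k j t| ≤ 1 := by
    have a1 := t2_hat01 k i hs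
    have a2 := t2_hat01 k j ht
    rw [abs_le]
    constructor <;> linarith [a1.1, a1.2, a2.1, a2.2]
  refine h5.trans ?_
  rw [inv_mul_eq_div, le_div_iff₀ hpos, one_mul]
  exact h4

theorem t2_pair (t1 : T1) (p : Fin 6 → V) (hp : Embedded p) (i j : Fin 6) :
    ∃ C : ℝ, 0 ≤ C ∧ ∀ k : Fin 6, ∀ s ∈ Icc (0 : ℝ) 1, ∀ t ∈ Icc (0 : ℝ) 1,
      |hat k i s - hat k j t| ≤ C * ‖pt p i s - pt p j t‖ := by
  by_cases h1 : i = j
  · subst h1
    exact t2_same p hp i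
  by_cases h2 : j = i + 1
  · subst h2
    exact t2_next t1 p hp i
  by_cases h3 : i = j + 1
  · subst h3
    obtain ⟨C, hC, h⟩ := t2_next t1 p hp j
    refine ⟨C, hC, ?_⟩
    intro k s hs t ht
    rw [abs_sub_comm, norm_sub_rev]
    exact h k t ht s hs
  exact t2_far p hp i j h1 h2 h3

theorem pT2 (t1 : T1) : T2 := by
  intro p hp
  choose C hC0 hC using t2_pair t1 p hp
  refine ⟨∑ i, ∑ j, C i j, Finset.sum_nonneg fun i _ => Finset.sum_nonneg fun j _ => hC0 i j, ?_⟩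
  intro i j k s hs t ht
  refine (hC i j k s hs t ht).trans (mul_le_mul_of_nonneg_right ?_ (norm_nonneg _))
  calc C i j ≤ ∑ j', C i j' :=
        Finset.single_le_sum (f := fun j' => C i j') (fun j' _ => hC0 i j') (Finset.mem_univ j)
    _ ≤ ∑ i', ∑ j', C i' j' :=
        Finset.single_le_sum (f := fun i' => ∑ j', C i' j')
          (fun i' _ => Finset.sum_nonneg fun j' _ => hC0 i' j') (Finset.mem_univ i)

end Pool.Agent.H223.MB
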