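import Pool.Agent.H223.MB.Stm
open scoped RealInnerProductSpace Topology
open Set Filter
namespace Pool.Agent.H223.MB

theorem t4_lin (g : V → V) (K : NNReal) (hg : LipschitzWith K g) :
    ApproximatesLinearOn (fun x => x + g x)
      ((ContinuousLinearEquiv.refl ℝ V : V ≃L[ℝ] V) : V →L[ℝ] V) univ K := by
  intro x _ y _
  have h : (x + g x - (y + g y) -
      ((ContinuousLinearEquiv.refl ℝ V : V ≃L[ℝ] V) : V →L[ℝ] V) (x - y)) = g x - g y := by
    simp
    abel
  rw [h]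
  exact hg.norm_sub_le x y

theorem t4_norm : ‖(((ContinuousLinearEquiv.refl ℝ V : V ≃L[ℝ] V).symm : V ≃L[ℝ] V) : V →L[ℝ] V)‖₊ = 1 := by
  have : (((ContinuousLinearEquiv.refl ℝ V : V ≃L[ℝ] V).symm : V ≃L[ℝ] V) : V →L[ℝ] V) =
      ContinuousLinearMap.id ℝ V := by ext x; simp
  rw [this]
  exact Subtype.ext ContinuousLinearMap.norm_id

theorem pT4 : T4 := by
  intro g K hK hg
  have hc : Subsingleton V ∨
      K < ‖(((ContinuousLinearEquiv.refl ℝ V : V ≃L[ℝ] V).symm : V ≃L[ℝ] V) : V →L[ℝ] V)‖₊⁻¹ := by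
    right
    rw [t4_norm, inv_one]
    exact hK
  exact ((t4_lin g K hg).toHomeomorph _ hc).isHomeomorph

end Pool.Agent.H223.MB
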