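import Pool.Agent.H223.MB.Stm

/-! Project MB (helper223), task T5, by helper152. -/

open scoped RealInnerProductSpace Topology
open Set Filter

namespace Pool.Agent.H223.MB

theorem t5_edge (p : Fin 6 → V) (i : Fin 6) : edge p i = pt p i '' Icc 0 1 := by
  unfold edge pt
  exact segment_eq_image ℝ (p i) (p (i + 1))

theorem t5_main (t4 : T4) (p : Fin 6 → V) (hp : Embedded p) (φ : Fin 6 → V → ℝ) (K : NNReal)
    (hφ : ∀ k, LipschitzWith K (φ k))
    (hpt : ∀ k i : Fin 6, ∀ s ∈ Icc (0 : ℝ) 1, φ k (pt p i s) = hat k i s) (q : Fin 6 → V)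
    (hq : (K : ℝ) * ∑ k, ‖q k - p k‖ < 1) :
    Embedded q ∧ AmbientIsotopic (trace p) (trace q) := by
  obtain ⟨g, hg⟩ : ∃ g : V → V, g = fun x => ∑ k, φ k x • (q k - p k) := ⟨_, rfl⟩
  have hgl : ∀ x y, dist (g x) (g y) ≤ ((K : ℝ) * ∑ k, ‖q k - p k‖) * dist x y := by
    intro x y
    rw [dist_eq_norm]
    have h1 : g x - g y = ∑ k, (φ k x - φ k y) • (q k - p k) := by
      rw [hg]
      simp only [sub_smul, Finset.sum_sub_distrib]
    rw [h1]
    refine (norm_sum_le _ _).trans ?_
    rw [Finset.mul_sum, Finset.sum_mul]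
    refine Finset.sum_le_sum fun k _ => ?_
    rw [norm_smul]
    have h2 : ‖φ k x - φ k y‖ ≤ K * dist x y := by
      rw [← dist_eq_norm]
      exact (hφ k).dist_le_mul x y
    calc ‖φ k x - φ k y‖ * ‖q k - p k‖ ≤ (K * dist x y) * ‖q k - p k‖ :=
          mul_le_mul_of_nonneg_right h2 (norm_nonneg _)
      _ = K * ‖q k - p k‖ * dist x y := by ring
  have hgc : Continuous g := by
    rw [hg]
    refine continuous_finsetSum _ fun k _ => ?_
    exact (hφ k).continuous.smul continuous_const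
  have hH : ∀ t ∈ Icc (0 : ℝ) 1, IsHomeomorph (fun x => x + t • g x) := by
    intro t ht
    refine t4 (fun x => t • g x) (Real.toNNReal ((K : ℝ) * ∑ k, ‖q k - p k‖))
      (Real.toNNReal_lt_one.2 hq) ?_
    refine LipschitzWith.of_dist_le' fun x y => ?_
    rw [dist_smul₀, Real.norm_of_nonneg ht.1]
    calc t * dist (g x) (g y) ≤ 1 * dist (g x) (g y) := mul_le_mul_of_nonneg_right ht.2 dist_nonneg
      _ = dist (g x) (g y) := one_mul _
      _ ≤ _ := hgl x y
  have hmap : ∀ i : Fin 6, ∀ s ∈ Icc (0 : ℝ) 1,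
      pt p i s + (1 : ℝ) • g (pt p i s) = pt q i s := by
    intro i s hs
    have h1 : g (pt p i s) = (1 - s) • (q i - p i) + s • (q (i + 1) - p (i + 1)) := by
      rw [hg]
      simp only [hpt _ i s hs, hat, add_smul, Finset.sum_add_distrib, ite_smul, zero_smul,
        Finset.sum_ite_eq', Finset.mem_univ, if_true]
    rw [h1, one_smul]
    unfold pt
    module
  have hH1 := hH 1 ⟨zero_le_one, le_rfl⟩
  obtain ⟨T, hT⟩ : ∃ T : V → V, T = fun x => x + (1 : ℝ) • g x := ⟨_, rfl⟩
  rw [← hT] at hH1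
  have hTpt : ∀ i : Fin 6, ∀ s ∈ Icc (0 : ℝ) 1, T (pt p i s) = pt q i s := by
    intro i s hs
    rw [hT]
    exact hmap i s hs
  have hTv : ∀ k, T (p k) = q k := by
    intro k
    have h1 := hTpt k 0 ⟨le_rfl, zero_le_one⟩
    simpa [pt] using h1
  have hTe : ∀ i, T '' edge p i = edge q i := by
    intro i
    rw [t5_edge, t5_edge, image_image]
    exact image_congr fun s hs => hTpt i s hs
  refine ⟨⟨?_, ?_⟩, fun t x => x + t • g x, ?_, hH, ?_, ?_⟩
  · intro i j hij
    rw [← hTv, ← hTv] at hij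
    exact hp.1 (hH1.injective hij)
  · intro i j hij
    have h1 : T '' ({p i, p (i + 1)} ∩ {p j, p (j + 1)}) =
        ({q i, q (i + 1)} : Set V) ∩ {q j, q (j + 1)} := by
      rw [image_inter hH1.injective, image_pair, image_pair, hTv, hTv, hTv, hTv]
    rw [← h1, ← hTe i, ← hTe j, ← image_inter hH1.injective]
    exact image_mono (hp.2 i j hij)
  · apply Continuous.continuousOn
    exact continuous_snd.add (continuous_fst.smul (hgc.comp continuous_snd))
  · intro x
    simp
  · show (fun x => x + (1 : ℝ) • g x) '' trace p = trace q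
    rw [← hT]
    unfold trace
    rw [image_iUnion]
    exact iUnion_congr hTe

/-- **T5** -/
theorem pT5 (t3 : T3) (t4 : T4) : T5 := by
  intro p hp
  obtain ⟨φ, K, hφ, hpt⟩ := t3 p hp
  have hev : ∀ᶠ q in 𝓝 p, (K : ℝ) * ∑ k, ‖q k - p k‖ < 1 := by
    have hc : Continuous (fun q : Fin 6 → V => (K : ℝ) * ∑ k, ‖q k - p k‖) := by
      refine continuous_const.mul (continuous_finsetSum _ fun k _ => ?_)
      exact ((continuous_apply k).sub continuous_const).norm
    refine (hc.tendsto p).eventually (gt_mem_nhds ?_)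
    simp
  filter_upwards [hev] with q hq
  exact t5_main t4 p hp φ K hφ hpt q hq

end Pool.Agent.H223.MB
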