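import Pool.Agent.H223.MB.Stm

/-!
# An embedded hexagon is not collinear
-/

open scoped RealInnerProductSpace Topology
open Set Filter

namespace Pool.Agent.H223.MB

/-- A point between two others on a line is in the segment. -/
theorem t6_seg {x v : V} {a b c : ℝ} (h1 : a ≤ b) (h2 : b ≤ c) :
    b • v + x ∈ segment ℝ (a • v + x) (c • v + x) := by
  rcases (h1.trans h2).eq_or_lt with h | h
  · have h3 : a = b := le_antisymm h1 (h ▸ h2)
    rw [h3]
    exact left_mem_segment ℝ _ _
  · have hne : c - a ≠ 0 := by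
      intro h0
      linarith
    have hpos : 0 < c - a := by linarith
    have hs : (c - b) / (c - a) + (b - a) / (c - a) = 1 := by
      rw [← add_div, div_eq_one_iff_eq hne]
      ring
    have ht : (c - b) / (c - a) * a + (b - a) / (c - a) * c = b := by
      rw [div_mul_eq_mul_div, div_mul_eq_mul_div, ← add_div, div_eq_iff hne]
      ring
    refine ⟨(c - b) / (c - a), (b - a) / (c - a), ?_, ?_, hs, ?_⟩
    · exact div_nonneg (by linarith) hpos.le
    · exact div_nonneg (by linarith) hpos.le
    · have h4 : ((c - b) / (c - a)) • (a • v + x) + ((b - a) / (c - a)) • (c • v + x) =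
          ((c - b) / (c - a) * a + (b - a) / (c - a) * c) • v +
            ((c - b) / (c - a) + (b - a) / (c - a)) • x := by
        module
      rw [h4, hs, ht, one_smul]

/-- T6: an embedded hexagon is not collinear. -/
theorem pT6 : T6 := by
  intro p hp hcol
  obtain ⟨hinj, hedge⟩ := hp
  rw [collinear_iff_of_mem (mem_range_self 0)] at hcol
  obtain ⟨v, hv⟩ := hcol
  have hv' : ∀ i, ∃ r : ℝ, p i = r • v + p 0 := fun i => hv _ (mem_range_self i)
  choose c hc using hv'
  have hcinj : Function.Injective c := by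
    intro i j hij
    apply hinj
    rw [hc i, hc j, hij]
  obtain ⟨i, hi⟩ := Finite.exists_max c
  have e1 : ∀ i : Fin 6, i - 1 + 1 = i := by decide
  have e2 : ∀ i : Fin 6, i - 1 ≠ i := by decide
  have e3 : ∀ i : Fin 6, i + 1 ≠ i := by decide
  have e4 : ∀ i : Fin 6, i - 1 ≠ i + 1 := by decide
  have h0 := hedge (i - 1) i (e2 i)
  have hE1 : edge p (i - 1) = segment ℝ (p (i - 1)) (p i) := by
    unfold edge
    rw [e1 i]
  have hE2 : edge p i = segment ℝ (p i) (p (i + 1)) := rfl
  rw [hE1, hE2, e1 i] at h0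
  rcases le_total (c (i - 1)) (c (i + 1)) with h | h
  · have h1 : p (i + 1) ∈ segment ℝ (p (i - 1)) (p i) := by
      rw [hc (i + 1), hc (i - 1), hc i]
      exact t6_seg h (hi _)
    have h2 := (h0 ⟨h1, right_mem_segment ℝ _ _⟩).1
    rcases h2 with h2 | h2
    · exact e4 i (hinj h2).symm
    · exact e3 i (hinj h2)
  · have h1 : p (i - 1) ∈ segment ℝ (p i) (p (i + 1)) := by
      rw [segment_symm, hc (i + 1), hc (i - 1), hc i]
      exact t6_seg h (hi _)
    have h2 := (h0 ⟨left_mem_segment ℝ _ _, h1⟩).2
    rcases h2 with h2 | h2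
    · exact e2 i (hinj h2)
    · exact e4 i (hinj h2)

end Pool.Agent.H223.MB
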