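import Pool.Agent.H223.MB.F1
import Pool.Agent.H223.MB.F2
import Pool.Agent.H223.MB.F3
import Pool.Agent.H223.MB.D2
import Pool.Agent.H223.MB.S1
import Pool.Agent.H223.MB.HOM
import Pool.Agent.H223.MB.C1b
import Pool.Agent.H223.MB.C2
import Pool.Agent.H223.MB.SE0c
import Pool.Agent.H223.MB.SE1b
import Pool.Agent.H223.MB.SE2
import Pool.Agent.H223.MB.KER
import Pool.Agent.H223.MB.RANK
import Pool.Agent.H223.MB.LA1
import Pool.Agent.H223.MB.FAC
import Pool.Agent.H223.MB.LV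
import Pool.Agent.H223.MB.GEO1
import Pool.Agent.H223.MB.GEO2
import Pool.Agent.H223.MB.T1
import Pool.Agent.H223.MB.T2
import Pool.Agent.H223.MB.T3b
import Pool.Agent.H223.MB.T4b
import Pool.Agent.H223.MB.T5
import Pool.Agent.H223.MB.T6b

/-!
# Assembly of the project MP_6bf31b_an
-/

open scoped RealInnerProductSpace Topology
open Set Filter

namespace Pool.Agent.H223.MB

theorem asm1 (p : Fin 6 → V) (hp : Function.Injective p) (hmin : IsLocalMin energy p) :
    EuclideanGeometry.Concyclic (range p) ∨ Collinear ℝ (range p) :=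
  main1 (pF2 pF1) pF3 pS1 (pC2 (pC1 (pF2 pF1) pD2)) (pSE1 (pSE0 (pF2 pF1) pD2 pHOM))
    (pSE2 (pSE0 (pF2 pF1) pD2 pHOM)) pKER pRANK pLA1 pFAC pLV pGEO1 pGEO2 p hp hmin

theorem asmT5 : T5 := pT5 (pT3 (pT2 pT1)) pT4

theorem asm2 (p : Fin 6 → V) (hp : Embedded p)
    (hmin : ∀ q : Fin 6 → V, Embedded q → AmbientIsotopic (trace p) (trace q) → energy p ≤ energy q) :
    EuclideanGeometry.Concyclic (range p) :=
  main2 asmT5 pT6 asm1 p hp hmin


end Pool.Agent.H223.MB
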