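import Pool.Agent.H223.MB.Stm2

/-!
# CONV: convex polygons are embedded
-/

open scoped RealInnerProductSpace Topology
open Set Filter

namespace Pool.Agent.H223.MB

private noncomputable def conv_D (a b c : ℝ) : ℝ :=
  (Real.cos b - Real.cos a) * (Real.sin c - Real.sin a) -
    (Real.sin b - Real.sin a) * (Real.cos c - Real.cos a)

private theorem conv_D_rot (a b c : ℝ) : conv_D a b c = conv_D b c a := by
  unfold conv_D
  ring

private theorem conv_D_eq (u v w : ℝ) : conv_D (2 * u) (2 * v) (2 * w) =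
    4 * Real.sin (v - u) * Real.sin (w - v) * Real.sin (w - u) := by
  have h1 := Real.sin_sq_add_cos_sq u
  have h2 := Real.sin_sq_add_cos_sq v
  have h3 := Real.sin_sq_add_cos_sq w
  have e1 : Real.cos (2 * v) - Real.cos (2 * u) = -2 * Real.sin (v + u) * Real.sin (v - u) := by
    rw [Real.cos_sub_cos]
    congr 2 <;> ring_nf
  have e2 : Real.sin (2 * w) - Real.sin (2 * u) = 2 * Real.sin (w - u) * Real.cos (w + u) := by
    rw [Real.sin_sub_sin]
    congr 2 <;> ring_nf
  have e3 : Real.sin (2 * v) - Real.sin (2 * u) = 2 * Real.sin (v - u) * Real.cos (v + u) := by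
    rw [Real.sin_sub_sin]
    congr 2 <;> ring_nf
  have e4 : Real.cos (2 * w) - Real.cos (2 * u) = -2 * Real.sin (w + u) * Real.sin (w - u) := by
    rw [Real.cos_sub_cos]
    congr 2 <;> ring_nf
  have e5 : Real.sin (w - v) = Real.sin (w + u) * Real.cos (v + u) -
      Real.cos (w + u) * Real.sin (v + u) := by
    rw [← Real.sin_sub]
    congr 1
    ring
  unfold conv_D
  rw [e1, e2, e3, e4, e5]
  ring

private theorem conv_D_pos (a b c : ℝ) (h1 : a < b) (h2 : b < c) (h3 : c < a + 2 * Real.pi) :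
    0 < conv_D a b c := by
  have h := conv_D_eq (a / 2) (b / 2) (c / 2)
  rw [show 2 * (a / 2) = a by ring, show 2 * (b / 2) = b by ring,
    show 2 * (c / 2) = c by ring] at h
  rw [h]
  have s1 : 0 < Real.sin (b / 2 - a / 2) := Real.sin_pos_of_pos_of_lt_pi (by linarith) (by linarith)
  have s2 : 0 < Real.sin (c / 2 - b / 2) := Real.sin_pos_of_pos_of_lt_pi (by linarith) (by linarith)
  have s3 : 0 < Real.sin (c / 2 - a / 2) := Real.sin_pos_of_pos_of_lt_pi (by linarith) (by linarith)
  positivity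

private theorem conv_pos (θ : Fin 6 → ℝ) (h : Sorted θ) (i k : Fin 6) (h1 : k ≠ i)
    (h2 : k ≠ i + 1) : 0 < conv_D (θ i) (θ (i + 1)) (θ k) := by
  obtain ⟨a1, a2, a3, a4, a5, a6⟩ := h
  fin_cases i <;> fin_cases k <;> first
    | exact absurd rfl h1
    | exact absurd rfl h2
    | (refine conv_D_pos _ _ _ ?_ ?_ ?_ <;>
        simp only [Fin.isValue, Fin.mk_zero', Fin.mk_one, Fin.reduceFinMk, Fin.reduceAdd, zero_add] <;>
        linarith)
    | (rw [conv_D_rot]
       refine conv_D_pos _ _ _ ?_ ?_ ?_ <;>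
        simp only [Fin.isValue, Fin.mk_zero', Fin.mk_one, Fin.reduceFinMk, Fin.reduceAdd, zero_add] <;>
        linarith)
    | (rw [conv_D_rot, conv_D_rot]
       refine conv_D_pos _ _ _ ?_ ?_ ?_ <;>
        simp only [Fin.isValue, Fin.mk_zero', Fin.mk_one, Fin.reduceFinMk, Fin.reduceAdd, zero_add] <;>
        linarith)

/-- the affine functional vanishing on the edge -/
private noncomputable def conv_H (c e₁ e₂ : V) (R a b : ℝ) (x : V) : ℝ :=
  (Real.cos b - Real.cos a) * (⟪x - c, e₂⟫ - R * Real.sin a) -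
    (Real.sin b - Real.sin a) * (⟪x - c, e₁⟫ - R * Real.cos a)

private theorem conv_H_comb (c e₁ e₂ : V) (R a b : ℝ) (x y : V) (s t : ℝ) (hst : s + t = 1) :
    conv_H c e₁ e₂ R a b (s • x + t • y) =
      s * conv_H c e₁ e₂ R a b x + t * conv_H c e₁ e₂ R a b y := by
  have h1 : s • x + t • y - c = s • (x - c) + t • (y - c) := by
    have h2 : c = s • c + t • c := by rw [← add_smul, hst, one_smul]
    conv_lhs => rw [h2]
    rw [smul_sub, smul_sub]
    abel
  unfold conv_H
  rw [h1]
  simp only [inner_add_left, inner_smul_left, conj_trivial]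
  have h3 : t = 1 - s := by linarith
  rw [h3]
  ring

private theorem conv_H_circ (c e₁ e₂ : V) (R a b : ℝ) (θ : Fin 6 → ℝ) (hON : ON e₁ e₂)
    (k : Fin 6) : conv_H c e₁ e₂ R a b (circ c R e₁ e₂ θ k) = R * conv_D a b (θ k) := by
  obtain ⟨h1, h2, h3⟩ := hON
  have h4 : circ c R e₁ e₂ θ k - c =
      (R * Real.cos (θ k)) • e₁ + (R * Real.sin (θ k)) • e₂ := by
    unfold circ
    abel
  have h5 : ⟪e₂, e₁⟫ = 0 := by rw [real_inner_comm]; exact h3
  unfold conv_H conv_D
  rw [h4]
  simp only [inner_add_left, inner_smul_left, conj_trivial, h3, h5, real_inner_self_eq_norm_sq,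
    h1, h2]
  ring

private theorem conv_D_left (a b : ℝ) : conv_D a b a = 0 := by
  unfold conv_D
  ring

private theorem conv_D_right (a b : ℝ) : conv_D a b b = 0 := by
  unfold conv_D
  ring

theorem pCONV : CONV := by
  intro c R e₁ e₂ θ hR hON hS
  obtain ⟨A, hA⟩ : ∃ A : Fin 6 → V, A = circ c R e₁ e₂ θ := ⟨_, rfl⟩
  obtain ⟨H, hH⟩ : ∃ H : Fin 6 → V → ℝ, H = fun i x => conv_H c e₁ e₂ R (θ i) (θ (i + 1)) x :=
    ⟨_, rfl⟩
  have Hpos : ∀ i k : Fin 6, k ≠ i → k ≠ i + 1 → 0 < H i (A k) := by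
    intro i k h1 h2
    rw [hH, hA]
    show 0 < conv_H c e₁ e₂ R (θ i) (θ (i + 1)) (circ c R e₁ e₂ θ k)
    rw [conv_H_circ c e₁ e₂ R _ _ θ hON k]
    exact mul_pos hR (conv_pos θ hS i k h1 h2)
  have H0 : ∀ i : Fin 6, H i (A i) = 0 := by
    intro i
    rw [hH, hA]
    show conv_H c e₁ e₂ R (θ i) (θ (i + 1)) (circ c R e₁ e₂ θ i) = 0
    rw [conv_H_circ c e₁ e₂ R _ _ θ hON i, conv_D_left, mul_zero]
  have H1 : ∀ i : Fin 6, H i (A (i + 1)) = 0 := by
    intro i
    rw [hH, hA]
    show conv_H c e₁ e₂ R (θ i) (θ (i + 1)) (circ c R e₁ e₂ θ (i + 1)) = 0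
    rw [conv_H_circ c e₁ e₂ R _ _ θ hON (i + 1), conv_D_right, mul_zero]
  have Hc : ∀ (i : Fin 6) (x y : V) (s t : ℝ), s + t = 1 →
      H i (s • x + t • y) = s * H i x + t * H i y := by
    intro i x y s t hst
    rw [hH]
    exact conv_H_comb c e₁ e₂ R _ _ x y s t hst
  rw [← hA]
  have hf1 : ∀ i : Fin 6, i ≠ i + 1 := by decide
  have hf2 : ∀ i : Fin 6, i ≠ i + 1 + 1 := by decide
  have hf3 : ∀ i : Fin 6, i + 1 + 1 ≠ i + 1 := by decide
  constructor
  · intro i j hij
    by_contra hne
    by_cases h1 : j = i + 1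
    · have h2 := Hpos j i hne (by rw [h1]; exact hf2 i)
      rw [hij, H0] at h2
      exact lt_irrefl 0 h2
    · have h2 := Hpos i j (Ne.symm hne) h1
      rw [← hij, H0] at h2
      exact lt_irrefl 0 h2
  · intro i j hij x hx
    obtain ⟨hxi, hxj⟩ := hx
    obtain ⟨s, t, hs, ht, hst, hx1⟩ := hxi
    obtain ⟨s', t', hs', ht', hst', hx2⟩ := hxj
    have h0 : H i x = 0 := by
      rw [← hx1, Hc i _ _ s t hst, H0, H1]
      ring
    rw [← hx2, Hc i _ _ s' t' hst'] at h0
    by_cases h1 : j = i + 1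
    · subst h1
      rw [H1, mul_zero, zero_add] at h0
      have h2 := Hpos i (i + 1 + 1) (Ne.symm (hf2 i)) (hf3 i)
      have h3 : t' = 0 := by
        rcases mul_eq_zero.1 h0 with h | h
        · exact h
        · exact absurd h h2.ne'
      have h4 : s' = 1 := by linarith
      have h5 : x = A (i + 1) := by
        rw [← hx2, h3, h4]
        simp
      rw [h5]
      exact ⟨Or.inr rfl, Or.inl rfl⟩
    · by_cases h2 : j + 1 = i
      · subst h2
        rw [H0, mul_zero, add_zero] at h0
        have h3 := Hpos (j + 1) j (hf1 j) (hf2 j)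
        have h4 : s' = 0 := by
          rcases mul_eq_zero.1 h0 with h | h
          · exact h
          · exact absurd h h3.ne'
        have h5 : t' = 1 := by linarith
        have h6 : x = A (j + 1) := by
          rw [← hx2, h4, h5]
          simp
        rw [h6]
        exact ⟨Or.inl rfl, Or.inr rfl⟩
      · exfalso
        have h3 := Hpos i j (Ne.symm hij) h1
        have h4 := Hpos i (j + 1) h2 (fun h => hij (add_right_cancel h).symm)
        have h5 : 0 ≤ s' * H i (A j) := mul_nonneg hs' h3.le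
        have h6 : 0 ≤ t' * H i (A (j + 1)) := mul_nonneg ht' h4.le
        have h7 : s' * H i (A j) = 0 := by linarith
        have h8 : t' * H i (A (j + 1)) = 0 := by linarith
        have h9 : s' = 0 := by
          rcases mul_eq_zero.1 h7 with h | h
          · exact h
          · exact absurd h h3.ne'
        have h10 : t' = 0 := by
          rcases mul_eq_zero.1 h8 with h | h
          · exact h
          · exact absurd h h4.ne'
        linarith

end Pool.Agent.H223.MB
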