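import Pool.Agent.H223.MB.Stm2

/-!
# Chords with interlaced end points meet
-/

open scoped RealInnerProductSpace Topology
open Set Filter

namespace Pool.Agent.H223.MB

theorem cross_half (u v : ℝ) : Real.sin (2 * u) + Real.sin (2 * v) - Real.sin (2 * (u + v)) =
    4 * (Real.sin u * Real.sin v * Real.sin (u + v)) := by
  rw [Real.sin_two_mul, Real.sin_two_mul, Real.sin_two_mul, Real.sin_add, Real.cos_add]
  have h1 := Real.sin_sq_add_cos_sq u
  have h2 := Real.sin_sq_add_cos_sq v
  linear_combination (-2 * Real.sin u * Real.cos u) * h2 + (-2 * Real.sin v * Real.cos v) * h1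

/-- twice the area of the triangle of three points of the unit circle -/
noncomputable def cross_area (r s t : ℝ) : ℝ :=
  (Real.cos s - Real.cos r) * (Real.sin t - Real.sin r) -
    (Real.sin s - Real.sin r) * (Real.cos t - Real.cos r)

theorem cross_area_pos {r s t : ℝ} (h1 : r < s) (h2 : s < t) (h3 : t < r + 2 * Real.pi) :
    0 < cross_area r s t := by
  have h4 : cross_area r s t = Real.sin (s - r) + Real.sin (t - s) - Real.sin (t - r) := by
    unfold cross_area
    rw [Real.sin_sub, Real.sin_sub, Real.sin_sub]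
    ring
  have h5 := cross_half ((s - r) / 2) ((t - s) / 2)
  have e1 : 2 * ((s - r) / 2) = s - r := by ring
  have e2 : 2 * ((t - s) / 2) = t - s := by ring
  have e3 : 2 * ((s - r) / 2 + (t - s) / 2) = t - r := by ring
  rw [e1, e2, e3] at h5
  rw [h4, h5]
  have p1 : 0 < Real.sin ((s - r) / 2) :=
    Real.sin_pos_of_pos_of_lt_pi (by linarith) (by linarith)
  have p2 : 0 < Real.sin ((t - s) / 2) :=
    Real.sin_pos_of_pos_of_lt_pi (by linarith) (by linarith)
  have p3 : 0 < Real.sin ((s - r) / 2 + (t - s) / 2) :=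
    Real.sin_pos_of_pos_of_lt_pi (by linarith) (by linarith)
  positivity

theorem pCROSS : CROSS := by
  intro c R e₁ e₂ φ i j k l hij hjk hkl hli
  obtain ⟨a, ha⟩ : ∃ a, a = cross_area (φ j) (φ k) (φ l) := ⟨_, rfl⟩
  obtain ⟨b, hb⟩ : ∃ b, b = cross_area (φ i) (φ j) (φ l) := ⟨_, rfl⟩
  obtain ⟨d, hd⟩ : ∃ d, d = cross_area (φ i) (φ k) (φ l) := ⟨_, rfl⟩
  obtain ⟨g, hg⟩ : ∃ g, g = cross_area (φ i) (φ j) (φ k) := ⟨_, rfl⟩
  have pa : 0 < a := by
    rw [ha]; exact cross_area_pos hjk hkl (by linarith)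
  have pb : 0 < b := by
    rw [hb]; exact cross_area_pos hij (by linarith) hli
  have pd : 0 < d := by
    rw [hd]; exact cross_area_pos (by linarith) hkl hli
  have pg : 0 < g := by
    rw [hg]; exact cross_area_pos hij hjk (by linarith)
  have q0 : a + b = d + g := by
    rw [ha, hb, hd, hg]; unfold cross_area; ring
  have q1 : a * Real.cos (φ i) + b * Real.cos (φ k) = d * Real.cos (φ j) + g * Real.cos (φ l) := by
    rw [ha, hb, hd, hg]; unfold cross_area; ring
  have q2 : a * Real.sin (φ i) + b * Real.sin (φ k) = d * Real.sin (φ j) + g * Real.sin (φ l) := by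
    rw [ha, hb, hd, hg]; unfold cross_area; ring
  have pN : 0 < a + b := by linarith
  refine ⟨(a / (a + b)) • circ c R e₁ e₂ φ i + (b / (a + b)) • circ c R e₁ e₂ φ k,
    ⟨a / (a + b), b / (a + b), by positivity, by positivity, ?_, rfl⟩,
    ⟨d / (a + b), g / (a + b), by positivity, by positivity, ?_, ?_⟩⟩
  · field_simp
  · rw [← add_div, ← q0]
    exact div_self pN.ne'
  · have k1 : ∀ (s t : ℝ) (m n : Fin 6), (s / (a + b)) • circ c R e₁ e₂ φ m +
        (t / (a + b)) • circ c R e₁ e₂ φ n = ((s + t) / (a + b)) • c +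
        (R * (s * Real.cos (φ m) + t * Real.cos (φ n)) / (a + b)) • e₁ +
        (R * (s * Real.sin (φ m) + t * Real.sin (φ n)) / (a + b)) • e₂ := by
      intro s t m n
      unfold circ
      module
    rw [k1, k1, q0, q1, q2]

end Pool.Agent.H223.MB
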