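import Pool.Agent.H223.MB.Stm2

/-!
# ORD1: coordinates on a circle (helper87)
-/

open scoped RealInnerProductSpace Topology
open Set Filter

namespace Pool.Agent.H223.MB

/-- Points of the unit circle are given by angles in `[0, 2π)`. -/
theorem ord1_angle (x y : ℝ) (h : x ^ 2 + y ^ 2 = 1) :
    ∃ φ : ℝ, 0 ≤ φ ∧ φ < 2 * Real.pi ∧ Real.cos φ = x ∧ Real.sin φ = y := by
  have hz : ‖(⟨x, y⟩ : ℂ)‖ = 1 := by
    rw [Complex.norm_def, Complex.normSq_mk, Real.sqrt_eq_one]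
    nlinarith
  have hz0 : (⟨x, y⟩ : ℂ) ≠ 0 := by
    intro h0
    rw [h0, norm_zero] at hz
    exact zero_ne_one hz
  have hc : Real.cos (Complex.arg ⟨x, y⟩) = x := by
    rw [Complex.cos_arg hz0, hz, div_one]
  have hs : Real.sin (Complex.arg ⟨x, y⟩) = y := by
    rw [Complex.sin_arg, hz, div_one]
  have h1 := Complex.neg_pi_lt_arg (⟨x, y⟩ : ℂ)
  have h2 := Complex.arg_le_pi (⟨x, y⟩ : ℂ)
  have hpi := Real.pi_pos
  rcases le_or_gt 0 (Complex.arg ⟨x, y⟩) with h3 | h3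
  · exact ⟨_, h3, by linarith, hc, hs⟩
  · exact ⟨Complex.arg ⟨x, y⟩ + 2 * Real.pi, by linarith, by linarith,
      by rw [Real.cos_add_two_pi, hc], by rw [Real.sin_add_two_pi, hs]⟩

/-- In a space of dimension at most two the vectors orthogonal to an orthonormal pair vanish. -/
theorem ord1_span (W : Submodule ℝ V) (hW : Module.rank ℝ W ≤ 2) (e₁ e₂ : V) (h₁ : e₁ ∈ W)
    (h₂ : e₂ ∈ W) (hn₁ : ‖e₁‖ = 1) (hn₂ : ‖e₂‖ = 1) (h12 : ⟪e₁, e₂⟫ = 0) (w : V) (hw : w ∈ W) :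
    w = ⟪e₁, w⟫ • e₁ + ⟪e₂, w⟫ • e₂ := by
  by_contra hne
  obtain ⟨u, hu⟩ : ∃ u : V, u = w - ⟪e₁, w⟫ • e₁ - ⟪e₂, w⟫ • e₂ := ⟨_, rfl⟩
  have hu0 : u ≠ 0 := by
    intro h0
    apply hne
    rw [h0, eq_comm, sub_sub, sub_eq_zero] at hu
    exact hu
  have huW : u ∈ W := by
    rw [hu]
    exact W.sub_mem (W.sub_mem hw (W.smul_mem _ h₁)) (W.smul_mem _ h₂)
  have h21 : ⟪e₂, e₁⟫ = 0 := by rw [real_inner_comm]; exact h12
  have h11 : ⟪e₁, e₁⟫ = 1 := by rw [real_inner_self_eq_norm_sq, hn₁]; norm_num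
  have h22 : ⟪e₂, e₂⟫ = 1 := by rw [real_inner_self_eq_norm_sq, hn₂]; norm_num
  have hu1 : ⟪e₁, u⟫ = 0 := by
    rw [hu, inner_sub_right, inner_sub_right, inner_smul_right, inner_smul_right, h11, h12]
    ring
  have hu2 : ⟪e₂, u⟫ = 0 := by
    rw [hu, inner_sub_right, inner_sub_right, inner_smul_right, inner_smul_right, h21, h22]
    ring
  have hu1' : ⟪u, e₁⟫ = 0 := by rw [real_inner_comm]; exact hu1
  have hu2' : ⟪u, e₂⟫ = 0 := by rw [real_inner_comm]; exact hu2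
  have hli : LinearIndependent ℝ (![⟨e₁, h₁⟩, ⟨e₂, h₂⟩, ⟨u, huW⟩] : Fin 3 → W) := by
    apply linearIndependent_of_ne_zero_of_inner_eq_zero (𝕜 := ℝ)
    · intro i
      fin_cases i
      · intro h0
        have h0' : e₁ = 0 := congrArg Subtype.val h0
        rw [h0', norm_zero] at hn₁
        exact zero_ne_one hn₁
      · intro h0
        have h0' : e₂ = 0 := congrArg Subtype.val h0
        rw [h0', norm_zero] at hn₂
        exact zero_ne_one hn₂
      · intro h0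
        exact hu0 (congrArg Subtype.val h0)
    · intro i j hij
      fin_cases i <;> fin_cases j <;> first | exact absurd rfl hij | skip
      · exact h12
      · exact hu1
      · exact h21
      · exact hu2
      · exact hu1'
      · exact hu2'
  have h3 := hli.cardinal_le_rank
  have h4 : Cardinal.mk (Fin 3) = 3 := by simp
  rw [h4] at h3
  have h5 := h3.trans hW
  norm_num at h5

theorem pORD1 : ORD1 := by
  intro p hp hc
  obtain ⟨⟨o, r, hor⟩, hcop⟩ := hc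
  have hor' : ∀ i, dist (p i) o = r := fun i => hor (p i) ⟨i, rfl⟩
  obtain ⟨W, hWdef⟩ : ∃ W : Submodule ℝ V, W = vectorSpan ℝ (range p) := ⟨_, rfl⟩
  have hW : Module.rank ℝ W ≤ 2 := by rw [hWdef]; exact hcop
  have hpW : ∀ i j, p i - p j ∈ W := by
    intro i j
    rw [hWdef]
    exact vsub_mem_vectorSpan ℝ ⟨i, rfl⟩ ⟨j, rfl⟩
  -- the projection of the centre
  obtain ⟨c, hcdef⟩ : ∃ c : V, c = p 0 + W.starProjection (o - p 0) := ⟨_, rfl⟩
  have hpc : ∀ i, p i - c ∈ W := by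
    intro i
    have h1 : p i - c = (p i - p 0) - W.starProjection (o - p 0) := by
      rw [hcdef]; abel
    rw [h1]
    exact W.sub_mem (hpW i 0) (by rw [Submodule.starProjection_apply]; exact Submodule.coe_mem _)
  have hoc : ∀ w ∈ W, ⟪w, o - c⟫ = 0 := by
    intro w hw
    have h1 : o - c = (o - p 0) - W.starProjection (o - p 0) := by
      rw [hcdef]; abel
    rw [h1]
    have h2 := Submodule.sub_starProjection_mem_orthogonal (K := W) (o - p 0)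
    exact (Submodule.mem_orthogonal W _).1 h2 w hw
  have hpyth : ∀ i, ‖p i - c‖ ^ 2 = r ^ 2 - ‖o - c‖ ^ 2 := by
    intro i
    have h1 : p i - o = (p i - c) - (o - c) := by abel
    have h2 : ‖p i - o‖ = r := by rw [← dist_eq_norm]; exact hor' i
    have h3 : ‖p i - o‖ ^ 2 = ‖p i - c‖ ^ 2 - 2 * ⟪p i - c, o - c⟫ + ‖o - c‖ ^ 2 := by
      rw [h1]; exact norm_sub_sq_real _ _
    rw [hoc _ (hpc i), h2] at h3
    linarith
  obtain ⟨R, hR⟩ : ∃ R : ℝ, R = ‖p 0 - c‖ := ⟨_, rfl⟩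
  have hRi : ∀ i, ‖p i - c‖ = R := by
    intro i
    have h1 : ‖p i - c‖ ^ 2 = R ^ 2 := by rw [hR, hpyth i, hpyth 0]
    exact (pow_left_inj₀ (norm_nonneg _) (by rw [hR]; exact norm_nonneg _) two_ne_zero).1 h1
  have hR0 : 0 < R := by
    rcases (norm_nonneg (p 0 - c)).lt_or_eq with h | h
    · rw [hR]; exact h
    · exfalso
      have h0 : R = 0 := by rw [hR]; exact h.symm
      have h1 : ∀ i, p i = c := fun i => by
        have := hRi i
        rw [h0, norm_eq_zero, sub_eq_zero] at this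
        exact this
      exact absurd (hp ((h1 0).trans (h1 1).symm)) (by decide)
  obtain ⟨e₁, he₁⟩ : ∃ e₁ : V, e₁ = R⁻¹ • (p 0 - c) := ⟨_, rfl⟩
  have hp0 : p 0 - c = R • e₁ := by
    rw [he₁, smul_smul, mul_inv_cancel₀ hR0.ne', one_smul]
  have he₁W : e₁ ∈ W := by rw [he₁]; exact W.smul_mem _ (hpc 0)
  have hn₁ : ‖e₁‖ = 1 := by
    rw [he₁, norm_smul, norm_inv, Real.norm_of_nonneg hR0.le, ← hR, inv_mul_cancel₀ hR0.ne']
  have h11 : ⟪e₁, e₁⟫ = 1 := by rw [real_inner_self_eq_norm_sq, hn₁]; norm_num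
  -- a second vector
  obtain ⟨w, hwW, hw0⟩ : ∃ w ∈ W, w - ⟪e₁, w⟫ • e₁ ≠ 0 := by
    by_contra hcon
    push Not at hcon
    have h1 : ∀ i, i ≠ 0 → p i - c = (-R) • e₁ := by
      intro i hi
      have h2 : p i - c = ⟪e₁, p i - c⟫ • e₁ := sub_eq_zero.1 (hcon _ (hpc i))
      obtain ⟨t, ht⟩ : ∃ t : ℝ, t = ⟪e₁, p i - c⟫ := ⟨_, rfl⟩
      rw [← ht] at h2
      have h3 : |t| = R := by
        have := hRi i
        rw [h2, norm_smul, hn₁, mul_one] at this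
        exact this
      rcases abs_eq hR0.le |>.1 h3 with h4 | h4
      · exfalso
        apply hi
        apply hp
        have h5 : p i - c = p 0 - c := by rw [h2, h4, hp0]
        exact sub_left_injective h5
      · rw [h2, h4]
    have h2 : p 1 - c = p 2 - c := by rw [h1 1 (by decide), h1 2 (by decide)]
    exact absurd (hp (sub_left_injective h2)) (by decide)
  obtain ⟨u, hu⟩ : ∃ u : V, u = w - ⟪e₁, w⟫ • e₁ := ⟨_, rfl⟩
  rw [← hu] at hw0
  have huW : u ∈ W := by rw [hu]; exact W.sub_mem hwW (W.smul_mem _ he₁W)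
  have hu1 : ⟪e₁, u⟫ = 0 := by
    rw [hu, inner_sub_right, inner_smul_right, h11]; ring
  have hun : 0 < ‖u‖ := norm_pos_iff.2 hw0
  obtain ⟨e₂, he₂⟩ : ∃ e₂ : V, e₂ = ‖u‖⁻¹ • u := ⟨_, rfl⟩
  have he₂W : e₂ ∈ W := by rw [he₂]; exact W.smul_mem _ huW
  have hn₂ : ‖e₂‖ = 1 := by
    rw [he₂, norm_smul, norm_inv, norm_norm, inv_mul_cancel₀ hun.ne']
  have h12 : ⟪e₁, e₂⟫ = 0 := by rw [he₂, inner_smul_right, hu1, mul_zero]
  have h22 : ⟪e₂, e₂⟫ = 1 := by rw [real_inner_self_eq_norm_sq, hn₂]; norm_num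
  have hrep : ∀ i, p i - c = ⟪e₁, p i - c⟫ • e₁ + ⟪e₂, p i - c⟫ • e₂ := fun i =>
    ord1_span W hW e₁ e₂ he₁W he₂W hn₁ hn₂ h12 _ (hpc i)
  have hsq : ∀ i, (⟪e₁, p i - c⟫ / R) ^ 2 + (⟪e₂, p i - c⟫ / R) ^ 2 = 1 := by
    intro i
    obtain ⟨a, ha⟩ : ∃ a : ℝ, a = ⟪e₁, p i - c⟫ := ⟨_, rfl⟩
    obtain ⟨b, hb⟩ : ∃ b : ℝ, b = ⟪e₂, p i - c⟫ := ⟨_, rfl⟩
    have h1 := hrep i
    rw [← ha, ← hb] at h1 ⊢
    have h2 : ‖p i - c‖ ^ 2 = a ^ 2 + b ^ 2 := by
      rw [h1, norm_add_sq_real, norm_smul, norm_smul, hn₁, hn₂, inner_smul_left, inner_smul_right,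
        h12, mul_one, mul_one, Real.norm_eq_abs, Real.norm_eq_abs, sq_abs, sq_abs]
      simp
    rw [hRi i] at h2
    rw [div_pow, div_pow, ← add_div, ← h2, div_self (by positivity)]
  choose φ hφ0 hφ1 hφc hφs using fun i => ord1_angle _ _ (hsq i)
  have hcirc : p = circ c R e₁ e₂ φ := by
    funext i
    unfold circ
    rw [hφc i, hφs i, mul_div_cancel₀ _ hR0.ne', mul_div_cancel₀ _ hR0.ne', add_assoc, ← hrep i]
    abel
  refine ⟨c, R, e₁, e₂, φ, hR0, ⟨hn₁, hn₂, h12⟩, ?_, fun i => ⟨hφ0 i, hφ1 i⟩, ?_, hcirc⟩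
  · have h1 : Real.cos (φ 0) = 1 := by
      rw [hφc 0, hp0, inner_smul_right, h11, mul_one, div_self hR0.ne']
    have hpi := Real.pi_pos
    exact (Real.cos_eq_one_iff_of_lt_of_lt (by linarith [hφ0 0]) (hφ1 0)).1 h1
  · intro i j hij
    apply hp
    rw [hcirc]
    unfold circ
    rw [hij]

end Pool.Agent.H223.MB
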