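import Pool.Agent.H223.MB.Stm2

/-!
# ORD2: an embedded hexagon with vertices on a circle has its vertices in cyclic order (helper235)
-/

open scoped RealInnerProductSpace Topology
open Set Filter

namespace Pool.Agent.H223.MB

/-- the order of six numbers without interlaced neighbours -/
private theorem ord2_pure (x : Fin 6 → ℝ) (hx : Function.Injective x) (h0 : ∀ i, i ≠ 0 → x 0 < x i)
    (f : ∀ i j : Fin 6, i ≠ j → i ≠ j + 1 → i + 1 ≠ j → ∀ a c b d : Fin 6,
      ((a = i ∧ c = i + 1) ∨ (a = i + 1 ∧ c = i)) → ((b = j ∧ d = j + 1) ∨ (b = j + 1 ∧ d = j)) →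
      x a < x b → x b < x c → x c < x d → False) :
    (x 1 < x 2 ∧ x 2 < x 3 ∧ x 3 < x 4 ∧ x 4 < x 5) ∨
      (x 5 < x 4 ∧ x 4 < x 3 ∧ x 3 < x 2 ∧ x 2 < x 1) := by
  have tri : ∀ i j : Fin 6, i ≠ j → ¬ x i < x j → x j < x i := fun i j hij h =>
    lt_of_le_of_ne (not_lt.1 h) fun e => hij (hx e).symm
  have g01 := h0 1 (by decide)
  have g02 := h0 2 (by decide)
  have g03 := h0 3 (by decide)
  have g04 := h0 4 (by decide)
  have g05 := h0 5 (by decide)
  by_cases h12 : x 1 < x 2
  · left
    have h13 : x 1 < x 3 := by
      by_contra h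
      exact f 0 2 (by decide) (by decide) (by decide) 0 1 3 2 (by decide) (by decide) g03
        (tri _ _ (by decide) h) h12
    have h14 : x 1 < x 4 := by
      by_contra h
      exact f 0 3 (by decide) (by decide) (by decide) 0 1 4 3 (by decide) (by decide) g04
        (tri _ _ (by decide) h) h13
    have h15 : x 1 < x 5 := by
      by_contra h
      exact f 0 4 (by decide) (by decide) (by decide) 0 1 5 4 (by decide) (by decide) g05
        (tri _ _ (by decide) h) h14
    have h25 : x 2 < x 5 := by
      by_contra h
      exact f 5 1 (by decide) (by decide) (by decide) 0 5 1 2 (by decide) (by decide) g01 h15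
        (tri _ _ (by decide) h)
    have h35 : x 3 < x 5 := by
      by_contra h
      exact f 5 2 (by decide) (by decide) (by decide) 0 5 2 3 (by decide) (by decide) g02 h25
        (tri _ _ (by decide) h)
    have h45 : x 4 < x 5 := by
      by_contra h
      exact f 5 3 (by decide) (by decide) (by decide) 0 5 3 4 (by decide) (by decide) g03 h35
        (tri _ _ (by decide) h)
    have h24 : x 2 < x 4 := by
      by_contra h
      exact f 1 4 (by decide) (by decide) (by decide) 1 2 4 5 (by decide) (by decide) h14
        (tri _ _ (by decide) h) h25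
    have h23 : x 2 < x 3 := by
      by_contra h
      exact f 1 3 (by decide) (by decide) (by decide) 1 2 3 4 (by decide) (by decide) h13
        (tri _ _ (by decide) h) h24
    have h34 : x 3 < x 4 := by
      by_contra h
      exact f 2 4 (by decide) (by decide) (by decide) 2 3 4 5 (by decide) (by decide) h24
        (tri _ _ (by decide) h) h35
    exact ⟨h12, h23, h34, h45⟩
  · right
    have h21 : x 2 < x 1 := tri _ _ (by decide) h12
    have h31 : x 3 < x 1 := by
      by_contra h
      exact f 0 2 (by decide) (by decide) (by decide) 0 1 2 3 (by decide) (by decide) g02 h21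
        (tri _ _ (by decide) h)
    have h41 : x 4 < x 1 := by
      by_contra h
      exact f 0 3 (by decide) (by decide) (by decide) 0 1 3 4 (by decide) (by decide) g03 h31
        (tri _ _ (by decide) h)
    have h51 : x 5 < x 1 := by
      by_contra h
      exact f 0 4 (by decide) (by decide) (by decide) 0 1 4 5 (by decide) (by decide) g04 h41
        (tri _ _ (by decide) h)
    have h52 : x 5 < x 2 := by
      by_contra h
      exact f 5 1 (by decide) (by decide) (by decide) 0 5 2 1 (by decide) (by decide) g02
        (tri _ _ (by decide) h) h51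
    have h53 : x 5 < x 3 := by
      by_contra h
      exact f 5 2 (by decide) (by decide) (by decide) 0 5 3 2 (by decide) (by decide) g03
        (tri _ _ (by decide) h) h52
    have h54 : x 5 < x 4 := by
      by_contra h
      exact f 5 3 (by decide) (by decide) (by decide) 0 5 4 3 (by decide) (by decide) g04
        (tri _ _ (by decide) h) h53
    have h42 : x 4 < x 2 := by
      by_contra h
      exact f 4 1 (by decide) (by decide) (by decide) 5 4 2 1 (by decide) (by decide) h52
        (tri _ _ (by decide) h) h41
    have h32 : x 3 < x 2 := by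
      by_contra h
      exact f 3 1 (by decide) (by decide) (by decide) 4 3 2 1 (by decide) (by decide) h42
        (tri _ _ (by decide) h) h31
    have h43 : x 4 < x 3 := by
      by_contra h
      exact f 4 2 (by decide) (by decide) (by decide) 5 4 3 2 (by decide) (by decide) h53
        (tri _ _ (by decide) h) h42
    exact ⟨h54, h43, h32, h21⟩

theorem pORD2 (cross : CROSS) : ORD2 := by
  intro c R e₁ e₂ φ hR hON hφ0 hφ hinj hemb
  refine ord2_pure φ hinj (fun i hi => ?_) ?_
  · exact lt_of_le_of_ne (by rw [hφ0]; exact (hφ i).1) fun e => hi (hinj e).symm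
  intro i j hij hij1 hi1j a k b d hac hbd h1 h2 h3
  have hi1j1 : i + 1 ≠ j + 1 := fun h => hij (add_right_cancel h)
  obtain ⟨z, hz1, hz2⟩ := cross c R e₁ e₂ φ a b k d h1 h2 h3 (by
    have := (hφ d).2
    have := (hφ a).1
    linarith)
  set p := circ c R e₁ e₂ φ with hp
  have hz1' : z ∈ edge p i := by
    rcases hac with ⟨rfl, rfl⟩ | ⟨rfl, rfl⟩
    · exact hz1
    · rw [segment_symm] at hz1
      exact hz1
  have hz2' : z ∈ edge p j := by
    rcases hbd with ⟨rfl, rfl⟩ | ⟨rfl, rfl⟩
    · exact hz2
    · rw [segment_symm] at hz2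
      exact hz2
  obtain ⟨hm1, hm2⟩ := hemb.2 i j hij ⟨hz1', hz2'⟩
  simp only [mem_insert_iff, mem_singleton_iff] at hm1 hm2
  have hpi := hemb.1
  rcases hm1 with rfl | rfl
  · rcases hm2 with h | h
    · exact hij (hpi h)
    · exact hij1 (hpi h)
  · rcases hm2 with h | h
    · exact hi1j (hpi h)
    · exact hi1j1 (hpi h)

end Pool.Agent.H223.MB
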