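import Pool.Agent.H223.MB.Stm2

/-!
# PATHL: along a path of embedded hexagons the knot type is constant
-/

open scoped RealInnerProductSpace Topology
open Set Filter

namespace Pool.Agent.H223.MB

theorem pPATHL (t5 : T5) (ai : AI) : PATHL := by
  intro P hP hE
  obtain ⟨hsymm, htrans, hrefl⟩ := ai
  have : PreconnectedSpace (Icc (0 : ℝ) 1) := Subtype.preconnectedSpace isPreconnected_Icc
  have hc : Continuous (fun t : Icc (0 : ℝ) 1 => P t) := continuousOn_iff_continuous_domRestrict.1 hP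
  have hloc : ∀ t₀ : Icc (0 : ℝ) 1, ∀ᶠ t : Icc (0 : ℝ) 1 in 𝓝 t₀,
      AmbientIsotopic (trace (P t₀)) (trace (P t)) := fun t₀ =>
    ((hc.tendsto t₀).eventually (t5 (P t₀) (hE t₀ t₀.2))).mono fun t ht => ht.2
  have hclopen : IsClopen {t : Icc (0 : ℝ) 1 | AmbientIsotopic (trace (P 0)) (trace (P t))} := by
    constructor
    · rw [← isOpen_compl_iff, isOpen_iff_mem_nhds]
      intro t₀ ht₀
      filter_upwards [hloc t₀] with t ht hmem
      exact ht₀ (htrans _ _ _ hmem (hsymm _ _ ht))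
    · rw [isOpen_iff_mem_nhds]
      intro t₀ ht₀
      filter_upwards [hloc t₀] with t ht
      exact htrans _ _ _ ht₀ ht
  have huniv := hclopen.eq_univ ⟨⟨0, by simp⟩, hrefl _⟩
  have h1 : (⟨1, by simp⟩ : Icc (0 : ℝ) 1) ∈
      {t : Icc (0 : ℝ) 1 | AmbientIsotopic (trace (P 0)) (trace (P t))} := by
    rw [huniv]
    exact mem_univ _
  exact h1

end Pool.Agent.H223.MB
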