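import Pool.Agent.H223.MB.Stm2

open scoped RealInnerProductSpace Topology
open Set Filter

namespace Pool.Agent.H223.MB

private theorem reg_sorted : Sorted (fun i : Fin 6 => (i : ℝ) * (Real.pi / 3)) := by
  have h := Real.pi_pos
  refine ⟨?_, ?_, ?_, ?_, ?_, ?_⟩ <;> simp <;> linarith

private theorem reg_step (pathl : PATHL) (conv : CONV) (c : ℝ → V) (R : ℝ → ℝ) (e₁ e₂ : ℝ → V)
    (hc : Continuous c) (hR : Continuous R) (h₁ : Continuous e₁) (h₂ : Continuous e₂)
    (hpos : ∀ t ∈ Icc (0 : ℝ) 1, 0 < R t) (hon : ∀ t, ON (e₁ t) (e₂ t)) :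
    AmbientIsotopic (trace (circ (c 0) (R 0) (e₁ 0) (e₂ 0) (fun i => (i : ℝ) * (Real.pi / 3))))
      (trace (circ (c 1) (R 1) (e₁ 1) (e₂ 1) (fun i => (i : ℝ) * (Real.pi / 3)))) := by
  refine pathl (fun t => circ (c t) (R t) (e₁ t) (e₂ t) (fun i => (i : ℝ) * (Real.pi / 3)))
    (Continuous.continuousOn ?_) (fun t ht => conv _ _ _ _ _ (hpos t ht) (hon t) reg_sorted)
  unfold circ
  fun_prop

private theorem reg_A (pathl : PATHL) (conv : CONV) (e₁ e₂ : V) (h : ON e₁ e₂) :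
    AmbientIsotopic (trace (circ 0 1 e₁ e₂ (fun i => (i : ℝ) * (Real.pi / 3))))
      (trace (circ 0 1 e₂ (-e₁) (fun i => (i : ℝ) * (Real.pi / 3)))) := by
  obtain ⟨h1, h2, h3⟩ := h
  have h3' : ⟪e₂, e₁⟫ = 0 := by rw [real_inner_comm]; exact h3
  have e11 : ⟪e₁, e₁⟫ = 1 := by rw [real_inner_self_eq_norm_sq, h1]; norm_num
  have e22 : ⟪e₂, e₂⟫ = 1 := by rw [real_inner_self_eq_norm_sq, h2]; norm_num
  have key := reg_step pathl conv (fun _ => 0) (fun _ => 1)
    (fun t => Real.cos (t * (Real.pi / 2)) • e₁ + Real.sin (t * (Real.pi / 2)) • e₂)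
    (fun t => (-Real.sin (t * (Real.pi / 2))) • e₁ + Real.cos (t * (Real.pi / 2)) • e₂)
    continuous_const continuous_const (by fun_prop) (by fun_prop) (fun _ _ => one_pos) (fun t => by
      have hsc := Real.sin_sq_add_cos_sq (t * (Real.pi / 2))
      refine ⟨?_, ?_, ?_⟩
      · rw [norm_eq_sqrt_real_inner, Real.sqrt_eq_one]
        simp only [inner_add_left, inner_add_right, real_inner_smul_left, real_inner_smul_right, e11, e22, h3, h3']
        linarith
      · rw [norm_eq_sqrt_real_inner, Real.sqrt_eq_one]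
        simp only [inner_add_left, inner_add_right, real_inner_smul_left, real_inner_smul_right, e11, e22, h3, h3']
        linarith
      · simp only [inner_add_left, inner_add_right, real_inner_smul_left, real_inner_smul_right, e11, e22, h3, h3']
        ring)
  simpa using key

/-- a unit vector orthogonal to two vectors -/
private theorem reg_D (a b : V) : ∃ n : V, ‖n‖ = 1 ∧ ⟪a, n⟫ = 0 ∧ ⟪b, n⟫ = 0 := by
  let f : V →ₗ[ℝ] (Fin 2 → ℝ) := LinearMap.pi ![(innerₛₗ ℝ a : V →ₗ[ℝ] ℝ), (innerₛₗ ℝ b : V →ₗ[ℝ] ℝ)]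
  have hk : LinearMap.ker f ≠ ⊥ := by
    apply LinearMap.ker_ne_bot_of_finrank_lt
    rw [Module.finrank_fin_fun, finrank_euclideanSpace_fin]
    norm_num
  obtain ⟨x, hx, hx0⟩ := Submodule.exists_mem_ne_zero_of_ne_bot hk
  have hx1 : f x = 0 := LinearMap.mem_ker.1 hx
  have ha : ⟪a, x⟫ = 0 := by
    have := congrFun hx1 0
    simpa [f] using this
  have hb : ⟪b, x⟫ = 0 := by
    have := congrFun hx1 1
    simpa [f] using this
  have hn : 0 < ‖x‖ := norm_pos_iff.2 hx0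
  refine ⟨‖x‖⁻¹ • x, ?_, ?_, ?_⟩
  · rw [norm_smul, norm_inv, norm_norm]
    exact inv_mul_cancel₀ hn.ne'
  · rw [real_inner_smul_right, ha, mul_zero]
  · rw [real_inner_smul_right, hb, mul_zero]

private theorem reg_B0 (pathl : PATHL) (conv : CONV) (e₁ e₂ n : V) (h : ON e₁ e₂) (hn : ‖n‖ = 1) (hn1 : ⟪e₁, n⟫ = 0)
    (hn2 : ⟪e₂, n⟫ = 0) (a : ℝ) :
    AmbientIsotopic (trace (circ 0 1 e₁ e₂ (fun i => (i : ℝ) * (Real.pi / 3))))
      (trace (circ 0 1 e₁ (Real.cos a • e₂ + Real.sin a • n) (fun i => (i : ℝ) * (Real.pi / 3)))) := by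
  obtain ⟨h1, h2, h3⟩ := h
  have hn2' : ⟪n, e₂⟫ = 0 := by rw [real_inner_comm]; exact hn2
  have e22 : ⟪e₂, e₂⟫ = 1 := by rw [real_inner_self_eq_norm_sq, h2]; norm_num
  have enn : ⟪n, n⟫ = 1 := by rw [real_inner_self_eq_norm_sq, hn]; norm_num
  have key := reg_step pathl conv (fun _ => 0) (fun _ => 1) (fun _ => e₁)
    (fun t => Real.cos (t * a) • e₂ + Real.sin (t * a) • n)
    continuous_const continuous_const continuous_const (by fun_prop) (fun _ _ => one_pos) (fun t => by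
      have hsc := Real.sin_sq_add_cos_sq (t * a)
      refine ⟨h1, ?_, ?_⟩
      · rw [norm_eq_sqrt_real_inner, Real.sqrt_eq_one]
        simp only [inner_add_left, inner_add_right, real_inner_smul_left, real_inner_smul_right, e22, enn, hn2, hn2']
        linarith
      · simp only [inner_add_right, real_inner_smul_right, h3, hn1]
        ring)
  simpa using key

private theorem reg_B (pathl : PATHL) (conv : CONV) (e₁ e₂ w : V) (h : ON e₁ e₂) (hw : ON e₁ w) :
    AmbientIsotopic (trace (circ 0 1 e₁ e₂ (fun i => (i : ℝ) * (Real.pi / 3))))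
      (trace (circ 0 1 e₁ w (fun i => (i : ℝ) * (Real.pi / 3)))) := by
  obtain ⟨h1, h2, h3⟩ := h
  obtain ⟨_, w2, w3⟩ := hw
  have e22 : ⟪e₂, e₂⟫ = 1 := by rw [real_inner_self_eq_norm_sq, h2]; norm_num
  set x : ℝ := ⟪e₂, w⟫ with hx
  set u : V := w - x • e₂ with hu
  have hu1 : ⟪e₁, u⟫ = 0 := by
    rw [hu, inner_sub_right, real_inner_smul_right, w3, h3]
    ring
  have hu2 : ⟪e₂, u⟫ = 0 := by
    rw [hu, inner_sub_right, real_inner_smul_right, e22]
    ring
  have hun : ‖u‖ ^ 2 = 1 - x ^ 2 := by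
    rw [hu, norm_sub_sq_real, real_inner_smul_right, real_inner_comm e₂ w, norm_smul, w2, h2, Real.norm_eq_abs,
      mul_pow, sq_abs, ← hx]
    ring
  -- a unit vector `n` with `u = ‖u‖ • n`
  obtain ⟨n, hn, hn1, hn2, hnu⟩ : ∃ n : V, ‖n‖ = 1 ∧ ⟪e₁, n⟫ = 0 ∧ ⟪e₂, n⟫ = 0 ∧ u = ‖u‖ • n := by
    by_cases h0 : u = 0
    · obtain ⟨n, a1, a2, a3⟩ := reg_D e₁ e₂
      exact ⟨n, a1, a2, a3, by rw [h0]; simp⟩
    · have hp : 0 < ‖u‖ := norm_pos_iff.2 h0
      refine ⟨‖u‖⁻¹ • u, ?_, ?_, ?_, ?_⟩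
      · rw [norm_smul, norm_inv, norm_norm]
        exact inv_mul_cancel₀ hp.ne'
      · rw [real_inner_smul_right, hu1, mul_zero]
      · rw [real_inner_smul_right, hu2, mul_zero]
      · rw [smul_smul, mul_inv_cancel₀ hp.ne', one_smul]
  have hxa : |x| ≤ 1 := by
    rw [← sq_le_one_iff_abs_le_one]
    nlinarith [sq_nonneg ‖u‖]
  have hcos : Real.cos (Real.arccos x) = x := Real.cos_arccos (abs_le.1 hxa).1 (abs_le.1 hxa).2
  have hsin : Real.sin (Real.arccos x) = ‖u‖ := by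
    rw [Real.sin_arccos, ← hun, Real.sqrt_sq (norm_nonneg _)]
  have key := reg_B0 pathl conv e₁ e₂ n ⟨h1, h2, h3⟩ hn hn1 hn2 (Real.arccos x)
  rw [hcos, hsin, ← hnu, hu] at key
  simpa using key

theorem pREG (ai : AI) (pathl : PATHL) (conv : CONV) : REG := by
  intro c R e₁ e₂ hR hon
  obtain ⟨-, tr, -⟩ := ai
  have E : ON (EuclideanSpace.single 0 1 : V) (EuclideanSpace.single 1 1 : V) := by
    refine ⟨by simp, by simp, by simp [EuclideanSpace.inner_single_left]⟩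
  have s0 : AmbientIsotopic (trace (circ c R e₁ e₂ (fun i => (i : ℝ) * (Real.pi / 3))))
      (trace (circ 0 1 e₁ e₂ (fun i => (i : ℝ) * (Real.pi / 3)))) := by
    have key := reg_step pathl conv (fun t => (1 - t) • c) (fun t => (1 - t) * R + t) (fun _ => e₁) (fun _ => e₂)
      (by fun_prop) (by fun_prop) continuous_const continuous_const (fun t ht => by
        rcases eq_or_lt_of_le ht.1 with h | h
        · rw [← h]
          simpa using hR
        · have : 0 ≤ (1 - t) * R := mul_nonneg (by linarith [ht.2]) hR.le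
          linarith) (fun _ => hon)
    simpa using key
  obtain ⟨w, hw, hw1, hw2⟩ := reg_D e₁ (EuclideanSpace.single 0 1 : V)
  have c1 : ON e₁ w := ⟨hon.1, hw, hw1⟩
  have c2 : ON w (-e₁) := ⟨hw, by rw [norm_neg]; exact hon.1, by rw [inner_neg_right, real_inner_comm, hw1, neg_zero]⟩
  have c3 : ON w (EuclideanSpace.single 0 1 : V) := ⟨hw, E.1, by rw [real_inner_comm]; exact hw2⟩
  have c4 : ON (EuclideanSpace.single 0 1 : V) (-w) := ⟨E.1, by rw [norm_neg]; exact hw, by rw [inner_neg_right, hw2, neg_zero]⟩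
  refine tr _ _ _ s0 ?_
  refine tr _ _ _ (reg_B pathl conv e₁ e₂ w hon c1) ?_
  refine tr _ _ _ (reg_A pathl conv e₁ w c1) ?_
  refine tr _ _ _ (reg_B pathl conv w (-e₁) _ c2 c3) ?_
  refine tr _ _ _ (reg_A pathl conv w _ c3) ?_
  exact reg_B pathl conv _ (-w) _ c4 E

end Pool.Agent.H223.MB
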