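import Pool.Agent.H223.MB.Stm2

/-!
# Third part: a hexagonal trefoil is knotted
-/

open scoped RealInnerProductSpace Topology
open Set Filter

namespace Pool.Agent.H223.MB

/-- Some fundamental group of the complement is not commutative. -/
def NC {E : Type} [TopologicalSpace E] (S : Set E) : Prop :=
  ∃ (x : {p : E // p ∉ S}) (α β : FundamentalGroup {p : E // p ∉ S} x), α * β ≠ β * α

/-- A hexagonal trefoil. -/
noncomputable def tref : Fin 6 → V :=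
  ![!₂[0, 0, 0], !₂[0, 2, 1], !₂[3, 2, 0], !₂[1, 0, 1], !₂[1, 3, 0], !₂[3, 3, 1]]

/-- The same in `ℝ × ℝ × ℝ`. -/
def TT : Set (ℝ × ℝ × ℝ) :=
  {p | (p.1 = 0 ∧ 0 ≤ p.2.1 ∧ p.2.1 ≤ 2 ∧ p.2.2 = p.2.1 / 2) ∨
       (0 ≤ p.1 ∧ p.1 ≤ 3 ∧ p.2.1 = 2 ∧ p.2.2 = 1 - p.1 / 3) ∨
       (1 ≤ p.1 ∧ p.1 ≤ 3 ∧ p.2.1 = p.1 - 1 ∧ p.2.2 = (3 - p.1) / 2) ∨
       (p.1 = 1 ∧ 0 ≤ p.2.1 ∧ p.2.1 ≤ 3 ∧ p.2.2 = 1 - p.2.1 / 3) ∨
       (1 ≤ p.1 ∧ p.1 ≤ 3 ∧ p.2.1 = 3 ∧ p.2.2 = (p.1 - 1) / 2) ∨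
       (0 ≤ p.1 ∧ p.1 ≤ 3 ∧ p.2.1 = p.1 ∧ p.2.2 = p.1 / 3)}

/-- W1 -/
def W1 : Prop := NC TT

/-- W2 -/
def W2 : Prop := NC TT → NC (trace tref)

/-- W3 -/
def W3 : Prop := Embedded tref

/-- W4 -/
def W4 : Prop := ∀ K L : Set V, AmbientIsotopic K L → NC K → NC L

/-- The standard hexagon. -/
noncomputable def std : Fin 6 → V :=
  circ 0 1 (EuclideanSpace.single 0 1) (EuclideanSpace.single 1 1) (fun i => (i : ℝ) * (Real.pi / 3))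

/-- The hexagonal gauge. -/
noncomputable def NN (x y : ℝ) : ℝ := max (2 * |y| / √3) (|x| + |y| / √3)

/-- The hexagon in `ℝ × ℝ × ℝ`. -/
def HH : Set (ℝ × ℝ × ℝ) := {p | p.2.2 = 0 ∧ NN p.1 p.2.1 = 1}

/-- W6 -/
def W6 : Prop := NC (trace std) → NC HH

/-- GEN -/
def GEN : Prop := ∀ (X : Type) [TopologicalSpace X] (W : Fin 3 → Set X) (x₀ : X), (∀ i, IsOpen (W i)) →
  (∀ x, ∃ i, x ∈ W i) → (∀ i, x₀ ∈ W i) → (∀ i, SimplyConnectedSpace (W i)) →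
  ∀ g : Path.Homotopic.Quotient x₀ x₀,
  (∀ i j, i ≤ j → ∀ x, x ∈ W i → x ∈ W j → ∀ γ δ : Path x₀ x, (∀ t, γ t ∈ W i) → (∀ t, δ t ∈ W j) →
    (Path.Homotopic.Quotient.mk (γ.trans δ.symm) = Path.Homotopic.Quotient.mk (Path.refl x₀) ∨
     Path.Homotopic.Quotient.mk (γ.trans δ.symm) = g)) →
  ∀ (x : X) (α β : FundamentalGroup X x), α * β = β * α

/-- W5: the complement of the plane hexagon. -/
def W5 : Prop := ¬ NC HH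

theorem main3 (ai : AI) (unk : UNK) (reg : REG) (w1 : W1) (w2 : W2) (w3 : W3) (w4 : W4) (w5 : W5) (w6 : W6)
    (h : ∀ p : Fin 6 → V, Embedded p →
      (∀ q : Fin 6 → V, Embedded q → AmbientIsotopic (trace p) (trace q) → energy p ≤ energy q) →
      EuclideanGeometry.Concyclic (range p)) :
    Embedded tref ∧ ¬ ∃ p : Fin 6 → V, Embedded p ∧ AmbientIsotopic (trace tref) (trace p) ∧
      ∀ q : Fin 6 → V, Embedded q → AmbientIsotopic (trace tref) (trace q) → energy p ≤ energy q := by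
  refine ⟨w3, ?_⟩
  rintro ⟨p, hp, hiso, hmin⟩
  have hc := h p hp (fun q hq hpq => hmin q hq (ai.2.1 _ _ _ hiso hpq))
  obtain ⟨c, R, e₁, e₂, hR, hON, hU⟩ := unk p hp hc
  have h1 := ai.2.1 _ _ _ (ai.2.1 _ _ _ hiso hU) (reg c R e₁ e₂ hR hON)
  exact w5 (w6 (w4 _ _ h1 (w2 w1)))

end Pool.Agent.H223.MB
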