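import Pool.Agent.H223.MB.Stm2

/-!
# Concyclic embedded hexagons are isotopic to regular plane hexagons (statement `UNK` of MP_6bf31b_an)
-/

open scoped RealInnerProductSpace Topology
open Set Filter

namespace Pool.Agent.H223.MB

theorem unk_sorted {φ : Fin 6 → ℝ} (h : Sorted φ) {t : ℝ} (ht : t ∈ Icc (0 : ℝ) 1) :
    Sorted (fun i => (1 - t) * φ i + t * ((i : ℝ) * (Real.pi / 3))) := by
  obtain ⟨h1, h2, h3, h4, h5, h6⟩ := h
  obtain ⟨t0, t1⟩ := ht
  have hpi := Real.pi_pos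
  have key : ∀ a b d e : ℝ, a < b → d < e → (1 - t) * a + t * d < (1 - t) * b + t * e := by
    intro a b d e hab hde
    rcases t0.eq_or_lt with h | h
    · rw [← h]
      simpa using hab
    · have e1 : (1 - t) * a ≤ (1 - t) * b := mul_le_mul_of_nonneg_left hab.le (by linarith)
      have e2 : t * d < t * e := mul_lt_mul_of_pos_left hde h
      linarith
  have c0 : (((0 : Fin 6) : ℕ) : ℝ) = 0 := by norm_num
  have c1 : (((1 : Fin 6) : ℕ) : ℝ) = 1 := by norm_num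
  have c2 : (((2 : Fin 6) : ℕ) : ℝ) = 2 := by norm_num
  have c3 : (((3 : Fin 6) : ℕ) : ℝ) = 3 := by norm_num
  have c4 : (((4 : Fin 6) : ℕ) : ℝ) = 4 := by norm_num
  have c5 : (((5 : Fin 6) : ℕ) : ℝ) = 5 := by norm_num
  unfold Sorted
  simp only [c0, c1, c2, c3, c4, c5]
  refine ⟨key _ _ _ _ h1 (by linarith), key _ _ _ _ h2 (by linarith), key _ _ _ _ h3 (by linarith),
    key _ _ _ _ h4 (by linarith), key _ _ _ _ h5 (by linarith), ?_⟩
  have h := key _ _ (5 * (Real.pi / 3)) (0 * (Real.pi / 3) + 2 * Real.pi) h6 (by linarith)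
  nlinarith

theorem unk_inc (pathl : PATHL) (conv : CONV) (c : V) (R : ℝ) (e₁ e₂ : V) (φ : Fin 6 → ℝ) (hR : 0 < R)
    (hON : ON e₁ e₂) (h : Sorted φ) :
    AmbientIsotopic (trace (circ c R e₁ e₂ φ))
      (trace (circ c R e₁ e₂ (fun i => (i : ℝ) * (Real.pi / 3)))) := by
  have h1 := pathl (fun t => circ c R e₁ e₂ (fun i => (1 - t) * φ i + t * ((i : ℝ) * (Real.pi / 3))))
    (by
      apply Continuous.continuousOn
      refine continuous_pi fun i => ?_
      unfold circ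
      fun_prop)
    (fun t ht => conv c R e₁ e₂ _ hR hON (unk_sorted h ht))
  have e0 : (fun i : Fin 6 => (1 - (0 : ℝ)) * φ i + 0 * ((i : ℝ) * (Real.pi / 3))) = φ := by
    funext i
    ring
  have e1 : (fun i : Fin 6 => (1 - (1 : ℝ)) * φ i + 1 * ((i : ℝ) * (Real.pi / 3))) =
      fun i : Fin 6 => (i : ℝ) * (Real.pi / 3) := by
    funext i
    ring
  rw [e0, e1] at h1
  exact h1

theorem unk_ON {e₁ e₂ : V} (h : ON e₁ e₂) : ON e₁ (-e₂) := by
  obtain ⟨h1, h2, h3⟩ := h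
  exact ⟨h1, by rw [norm_neg]; exact h2, by rw [inner_neg_right, h3, neg_zero]⟩

theorem unk_flip (c : V) (R : ℝ) (e₁ e₂ : V) (φ : Fin 6 → ℝ) (h0 : φ 0 = 0) :
    circ c R e₁ e₂ φ = circ c R e₁ (-e₂) (fun i => if i = 0 then 0 else 2 * Real.pi - φ i) := by
  funext i
  unfold circ
  by_cases hi : i = 0
  · subst hi
    simp [h0]
  · simp only [if_neg hi, Real.cos_two_pi_sub, Real.sin_two_pi_sub]
    simp

theorem unk_dec {φ : Fin 6 → ℝ} (h0 : φ 0 = 0) (hb : ∀ i, 0 ≤ φ i ∧ φ i < 2 * Real.pi)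
    (hinj : Function.Injective φ) (h : φ 5 < φ 4 ∧ φ 4 < φ 3 ∧ φ 3 < φ 2 ∧ φ 2 < φ 1) :
    Sorted (fun i => if i = 0 then 0 else 2 * Real.pi - φ i) := by
  obtain ⟨h1, h2, h3, h4⟩ := h
  have h5 : 0 < φ 5 := by
    refine lt_of_le_of_ne (hb 5).1 fun h => ?_
    have : (5 : Fin 6) = 0 := hinj (by rw [← h, h0])
    exact absurd this (by decide)
  have h6 := (hb 1).2
  have n1 : (1 : Fin 6) ≠ 0 := by decide
  have n2 : (2 : Fin 6) ≠ 0 := by decide
  have n3 : (3 : Fin 6) ≠ 0 := by decide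
  have n4 : (4 : Fin 6) ≠ 0 := by decide
  have n5 : (5 : Fin 6) ≠ 0 := by decide
  unfold Sorted
  simp only [if_true, if_neg n1, if_neg n2, if_neg n3, if_neg n4, if_neg n5]
  refine ⟨by linarith, by linarith, by linarith, by linarith, by linarith, by linarith⟩

theorem pUNK (ai : AI) (pathl : PATHL) (ord1 : ORD1) (ord2 : ORD2) (conv : CONV) : UNK := by
  intro p hp hc
  obtain ⟨c, R, e₁, e₂, φ, hR, hON, h0, hb, hinj, rfl⟩ := ord1 p hp.1 hc
  rcases ord2 c R e₁ e₂ φ hR hON h0 hb hinj hp with h | h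
  · refine ⟨c, R, e₁, e₂, hR, hON, unk_inc pathl conv c R e₁ e₂ φ hR hON ?_⟩
    obtain ⟨h1, h2, h3, h4⟩ := h
    have h5 : 0 < φ 1 := by
      refine lt_of_le_of_ne (hb 1).1 fun h => ?_
      have : (1 : Fin 6) = 0 := hinj (by rw [← h, h0])
      exact absurd this (by decide)
    have h6 := (hb 5).2
    exact ⟨by rw [h0]; exact h5, h1, h2, h3, h4, by rw [h0]; linarith⟩
  · refine ⟨c, R, e₁, -e₂, hR, unk_ON hON, ?_⟩
    rw [unk_flip c R e₁ e₂ φ h0]
    exact unk_inc pathl conv c R e₁ (-e₂) _ hR (unk_ON hON) (unk_dec h0 hb hinj h)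

end Pool.Agent.H223.MB
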