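import Pool.Agent.H223.MB.Asm
import Pool.Agent.H223.MB.AI
import Pool.Agent.H223.MB.PATHLb
import Pool.Agent.H223.MB.CROSSb
import Pool.Agent.H223.MB.ORD1
import Pool.Agent.H223.MB.ORD2b
import Pool.Agent.H223.MB.CONVc
import Pool.Agent.H223.MB.UNKb
import Pool.Agent.H223.MB.REGc
import Pool.Agent.H223.MB.Stm3

/-!
# Assembly of the second part
-/

open scoped RealInnerProductSpace Topology
open Set Filter

namespace Pool.Agent.H223.MB

theorem asmPATHL : PATHL := pPATHL asmT5 pAI

theorem asmUNK : UNK := pUNK pAI asmPATHL pORD1 (pORD2 pCROSS) pCONV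

theorem asmREG : REG := pREG pAI asmPATHL pCONV

/-- An embedded hexagon with concyclic vertices is ambient isotopic to the standard regular hexagon. -/
theorem asm_std (p : Fin 6 → V) (hp : Embedded p) (h : EuclideanGeometry.Concyclic (range p)) :
    AmbientIsotopic (trace p) (trace std) := by
  obtain ⟨c, R, e₁, e₂, hR, hON, hU⟩ := asmUNK p hp h
  exact pAI.2.1 _ _ _ hU (asmREG c R e₁ e₂ hR hON)

end Pool.Agent.H223.MB
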