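import Pool.Agent.H223.MB.Stm

/-!
# C1: derivative of the energy along a straight path (helper20)
-/

open scoped RealInnerProductSpace Topology
open Set Filter

namespace Pool.Agent.H223.MB

theorem c1_norm (x y : V) (hx : x ≠ 0) :
    HasDerivAt (fun t : ℝ => ‖x + t • y‖) (‖x‖ * (⟪x, y⟫ / ‖x‖ ^ 2)) 0 := by
  have hn : 0 < ‖x‖ := norm_pos_iff.2 hx
  have h1 : HasDerivAt (fun t : ℝ => x + t • y) y 0 := by
    simpa using ((hasDerivAt_id (0 : ℝ)).smul_const y).const_add x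
  have h2 : HasDerivAt (fun t : ℝ => ‖x + t • y‖ ^ 2) (2 * ⟪x + (0 : ℝ) • y, y⟫) 0 := h1.norm_sq
  have h3 : ‖x + (0 : ℝ) • y‖ ^ 2 ≠ 0 := by
    rw [zero_smul, add_zero]
    positivity
  have h4 := h2.sqrt h3
  have e1 : (fun t : ℝ => Real.sqrt (‖x + t • y‖ ^ 2)) = fun t : ℝ => ‖x + t • y‖ := by
    funext t
    exact Real.sqrt_sq (norm_nonneg _)
  have e2 : 2 * ⟪x + (0 : ℝ) • y, y⟫ / (2 * Real.sqrt (‖x + (0 : ℝ) • y‖ ^ 2)) =
      ‖x‖ * (⟪x, y⟫ / ‖x‖ ^ 2) := by
    rw [zero_smul, add_zero, Real.sqrt_sq hn.le]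
    field_simp
  rw [e1, e2] at h4
  exact h4

theorem c1_diff (p w : Fin 6 → V) (t : ℝ) (i j : Fin 6) :
    (p j + t • w j) - (p i + t • w i) = (p j - p i) + t • (w j - w i) := by
  rw [smul_sub]
  abel

theorem c1_inj (p w : Fin 6 → V) (hp : Function.Injective p) :
    ∀ᶠ t : ℝ in 𝓝 0, Function.Injective (fun i => p i + t • w i) := by
  have h : ∀ᶠ t : ℝ in 𝓝 0, ∀ i j : Fin 6, i ≠ j → (p j - p i) + t • (w j - w i) ≠ 0 := by
    rw [eventually_all]
    intro i
    rw [eventually_all]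
    intro j
    by_cases hij : i = j
    · exact Eventually.of_forall fun t h => absurd hij h
    · have hc : ContinuousAt (fun t : ℝ => (p j - p i) + t • (w j - w i)) 0 := by fun_prop
      have hne : (p j - p i) + (0 : ℝ) • (w j - w i) ≠ 0 := by
        rw [zero_smul, add_zero, sub_ne_zero]
        exact fun h => hij (hp h).symm
      filter_upwards [hc.eventually_ne hne] with t ht _ using ht
  filter_upwards [h] with t ht i j hij
  by_contra hne
  refine ht i j hne ?_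
  rw [← c1_diff p w t i j, sub_eq_zero]
  exact hij.symm

/-- C1 -/
theorem pC1 (f2 : F2) (d2 : D2) : C1 := by
  intro p w hp L hL
  let r : ℝ → Fin 6 → Fin 6 → ℝ := fun t i j => ‖(p j - p i) + t • (w j - w i)‖
  let l : Fin 6 → Fin 6 → ℝ := fun i j => ⟪p j - p i, w j - w i⟫ / ‖p j - p i‖ ^ 2
  have hr0 : r 0 = dm p := by
    funext i j
    show ‖(p j - p i) + (0 : ℝ) • (w j - w i)‖ = ‖p j - p i‖
    rw [zero_smul, add_zero]
  have hsub : ∀ i j : Fin 6, i ≠ j → p j - p i ≠ 0 := by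
    intro i j hij
    rw [sub_ne_zero]
    exact fun h => hij (hp h).symm
  have hd : ∀ i j, i ≠ j → HasDerivWithinAt (fun u => r u i j) (r 0 i j * l i j) univ 0 := by
    intro i j hij
    rw [hasDerivWithinAt_univ, hr0]
    exact c1_norm (p j - p i) (w j - w i) (hsub i j hij)
  have hne : ∀ i j, i ≠ j → r 0 i j ≠ 0 := by
    intro i j hij
    rw [hr0]
    exact norm_ne_zero_iff.2 (hsub i j hij)
  have h1 := d2 r l 0 univ hd hne
  rw [hasDerivWithinAt_univ, hr0] at h1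
  have hsymm : ∀ i j, l i j = l j i := by
    intro i j
    show ⟪p j - p i, w j - w i⟫ / ‖p j - p i‖ ^ 2 = ⟪p i - p j, w i - w j⟫ / ‖p i - p j‖ ^ 2
    rw [← neg_sub (p j) (p i), ← neg_sub (w j) (w i), inner_neg_neg, norm_neg]
  rw [hL.rep l hsymm] at h1
  refine h1.congr_of_eventuallyEq ?_
  filter_upwards [c1_inj p w hp] with t ht
  rw [f2 _ ht]
  congr 1
  funext i j
  show ‖(p j + t • w j) - (p i + t • w i)‖ = ‖(p j - p i) + t • (w j - w i)‖
  rw [c1_diff]

end Pool.Agent.H223.MB
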