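import Pool.Agent.H223.MB.Stm

open scoped RealInnerProductSpace Topology
open Set Filter

namespace Pool.Agent.H223.MB

private lemma c2_sum (L : Fin 6 → Fin 6 → ℝ) (hL : ∀ i j, L i j = L j i) (p : Fin 6 → V)
    (i : Fin 6) (v : V) (w : Fin 6 → V) (hwi : w i = v) (hw : ∀ a, a ≠ i → w a = 0) :
    ∑ a, ∑ b, L a b * (⟪p b - p a, w b - w a⟫ / ‖p b - p a‖ ^ 2) / 2
      = - ⟪∑ j, (L i j / ‖p j - p i‖ ^ 2) • (p j - p i), v⟫ := by
  set g : Fin 6 → Fin 6 → ℝ := fun a b => L a b / ‖p b - p a‖ ^ 2 * ⟪p b - p a, w a⟫ with hg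
  have h1 : ∀ a b, L a b * (⟪p b - p a, w b - w a⟫ / ‖p b - p a‖ ^ 2) / 2
      = -(g a b + g b a) / 2 := by
    intro a b
    have e1 : ‖p a - p b‖ = ‖p b - p a‖ := norm_sub_rev _ _
    have e2 : ⟪p a - p b, w b⟫ = -⟪p b - p a, w b⟫ := by
      rw [← inner_neg_left, neg_sub]
    simp only [hg]
    rw [e1, e2, hL b a, inner_sub_right]
    ring
  have h2 : ∑ a, ∑ b, g a b = ⟪∑ j, (L i j / ‖p j - p i‖ ^ 2) • (p j - p i), v⟫ := by
    rw [Finset.sum_eq_single i]
    · rw [sum_inner]
      refine Finset.sum_congr rfl fun b _ => ?_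
      simp only [hg]
      rw [hwi, inner_smul_left]
      simp
    · intro a _ ha
      refine Finset.sum_eq_zero fun b _ => ?_
      simp only [hg]
      rw [hw a ha, inner_zero_right, mul_zero]
    · intro h
      exact absurd (Finset.mem_univ i) h
  have h3 : ∑ a, ∑ b, g b a = ∑ a, ∑ b, g a b := Finset.sum_comm
  calc ∑ a, ∑ b, L a b * (⟪p b - p a, w b - w a⟫ / ‖p b - p a‖ ^ 2) / 2
      = ∑ a, ∑ b, (-(g a b + g b a) / 2) :=
        Finset.sum_congr rfl fun a _ => Finset.sum_congr rfl fun b _ => h1 a b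
    _ = -((∑ a, ∑ b, g a b) + ∑ a, ∑ b, g b a) / 2 := by
        simp only [neg_div, Finset.sum_neg_distrib, ← Finset.sum_div, ← Finset.sum_add_distrib]
    _ = _ := by
        rw [h3, h2]
        ring

theorem pC2 (c1 : C1) : C2 := by
  intro p hp hmin L hL i
  set u : V := ∑ j, (L i j / ‖p j - p i‖ ^ 2) • (p j - p i) with hu
  have key : ∀ v : V, ⟪u, v⟫ = 0 := by
    intro v
    set w : Fin 6 → V := fun a => if a = i then v else 0 with hw
    have hd := c1 p w hp L hL
    have hc : Continuous (fun t : ℝ => (fun k => p k + t • w k : Fin 6 → V)) := by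
      fun_prop
    have h0 : (fun k => p k + (0 : ℝ) • w k : Fin 6 → V) = p := by
      funext k
      simp
    have hm : IsLocalMin (fun t : ℝ => energy (fun k => p k + t • w k)) 0 := by
      have h := IsLocalMin.comp_continuous (f := energy (m := 6))
        (g := fun t : ℝ => (fun k => p k + t • w k : Fin 6 → V)) (b := (0 : ℝ))
        (by
          rw [h0]
          exact hmin) hc.continuousAt
      exact h
    have hz := hm.hasDerivAt_eq_zero hd
    rw [c2_sum L hL.symm p i v w (by simp [hw]) (fun a ha => by simp [hw, ha])] at hz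
    linarith
  exact inner_self_eq_zero.mp (key u)

end Pool.Agent.H223.MB
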