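import Pool.Agent.H223.MB.Stm2

open scoped RealInnerProductSpace Topology
open Set Filter

namespace Pool.Agent.H223.MB

/-- the trigonometric identity -/
private theorem conv_trig (u v : ℝ) : Real.sin (2 * u) + Real.sin (2 * v) - Real.sin (2 * (u + v)) =
    4 * Real.sin u * Real.sin v * Real.sin (u + v) := by
  have hu := Real.sin_sq_add_cos_sq u
  have hv := Real.sin_sq_add_cos_sq v
  rw [Real.sin_two_mul, Real.sin_two_mul, Real.sin_two_mul, Real.sin_add, Real.cos_add]
  linear_combination (-2 * Real.sin u * Real.cos u) * hv + (-2 * Real.sin v * Real.cos v) * hu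

/-- twice the oriented area of the triangle of three points of the unit circle -/
private noncomputable def conv_det (a b c : ℝ) : ℝ :=
  (Real.cos b - Real.cos a) * (Real.sin c - Real.sin a) -
    (Real.sin b - Real.sin a) * (Real.cos c - Real.cos a)

private theorem conv_det_eq (a b c : ℝ) : conv_det a b c =
    4 * Real.sin ((c - b) / 2) * Real.sin ((b - a) / 2) * Real.sin ((c - a) / 2) := by
  have h := conv_trig ((c - b) / 2) ((b - a) / 2)
  have e1 : 2 * ((c - b) / 2) = c - b := by ring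
  have e2 : 2 * ((b - a) / 2) = b - a := by ring
  have e3 : (c - b) / 2 + (b - a) / 2 = (c - a) / 2 := by ring
  have e4 : 2 * ((c - a) / 2) = c - a := by ring
  rw [e3, e1, e2, e4] at h
  rw [← h, Real.sin_sub, Real.sin_sub, Real.sin_sub]
  unfold conv_det
  ring

private theorem conv_sin_pos {x y : ℝ} (h1 : x < y) (h2 : y < x + 2 * Real.pi) :
    0 < Real.sin ((y - x) / 2) :=
  Real.sin_pos_of_pos_of_lt_pi (by linarith) (by linarith)

private theorem conv_sin_neg {x y : ℝ} (h1 : x < y) (h2 : y < x + 2 * Real.pi) :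
    Real.sin ((x - y) / 2) < 0 := by
  have h := conv_sin_pos h1 h2
  have e : (x - y) / 2 = -((y - x) / 2) := by ring
  rw [e, Real.sin_neg]
  linarith

private theorem conv_det_pos {a b c : ℝ}
    (h : (a < b ∧ b < c ∧ c < a + 2 * Real.pi) ∨ (c < a ∧ a < b ∧ b < c + 2 * Real.pi) ∨
      (b < c ∧ c < a ∧ a < b + 2 * Real.pi)) : 0 < conv_det a b c := by
  rw [conv_det_eq]
  rcases h with ⟨h1, h2, h3⟩ | ⟨h1, h2, h3⟩ | ⟨h1, h2, h3⟩
  · have s1 := conv_sin_pos (x := b) (y := c) h2 (by linarith)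
    have s2 := conv_sin_pos (x := a) (y := b) h1 (by linarith)
    have s3 := conv_sin_pos (x := a) (y := c) (by linarith) h3
    positivity
  · have s1 := conv_sin_neg (x := c) (y := b) (by linarith) (by linarith)
    have s2 := conv_sin_pos (x := a) (y := b) h2 (by linarith)
    have s3 := conv_sin_neg (x := c) (y := a) h1 (by linarith)
    have e : 4 * Real.sin ((c - b) / 2) * Real.sin ((b - a) / 2) * Real.sin ((c - a) / 2) =
      4 * (-Real.sin ((c - b) / 2)) * Real.sin ((b - a) / 2) * (-Real.sin ((c - a) / 2)) := by ring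
    rw [e]
    have t1 : 0 < -Real.sin ((c - b) / 2) := by linarith
    have t3 : 0 < -Real.sin ((c - a) / 2) := by linarith
    positivity
  · have s1 := conv_sin_pos (x := b) (y := c) h1 (by linarith)
    have s2 := conv_sin_neg (x := b) (y := a) (by linarith) h3
    have s3 := conv_sin_neg (x := c) (y := a) h2 (by linarith)
    have e : 4 * Real.sin ((c - b) / 2) * Real.sin ((b - a) / 2) * Real.sin ((c - a) / 2) =
      4 * Real.sin ((c - b) / 2) * (-Real.sin ((b - a) / 2)) * (-Real.sin ((c - a) / 2)) := by ring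
    rw [e]
    have t1 : 0 < -Real.sin ((b - a) / 2) := by linarith
    have t3 : 0 < -Real.sin ((c - a) / 2) := by linarith
    positivity

private theorem conv_ord {θ : Fin 6 → ℝ} (hs : Sorted θ) (i k : Fin 6) (h1 : k ≠ i)
    (h2 : k ≠ i + 1) :
    (θ i < θ (i + 1) ∧ θ (i + 1) < θ k ∧ θ k < θ i + 2 * Real.pi) ∨
    (θ k < θ i ∧ θ i < θ (i + 1) ∧ θ (i + 1) < θ k + 2 * Real.pi) ∨
    (θ (i + 1) < θ k ∧ θ k < θ i ∧ θ i < θ (i + 1) + 2 * Real.pi) := by
  obtain ⟨g0, g1, g2, g3, g4, g5⟩ := hs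
  have hpi := Real.pi_pos
  fin_cases i <;> fin_cases k <;>
    first
    | exact absurd rfl h1
    | exact absurd rfl h2
    | exact Or.inl ⟨by first | exact g0 | exact g1 | exact g2 | exact g3 | exact g4,
        by simp only [Fin.zero_eta, Fin.mk_one, Fin.reduceFinMk, Fin.isValue, Fin.reduceAdd, zero_add]; linarith,
        by simp only [Fin.zero_eta, Fin.mk_one, Fin.reduceFinMk, Fin.isValue, Fin.reduceAdd, zero_add]; linarith⟩
    | exact Or.inr (Or.inl ⟨
        by simp only [Fin.zero_eta, Fin.mk_one, Fin.reduceFinMk, Fin.isValue, Fin.reduceAdd, zero_add]; linarith,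
        by simp only [Fin.zero_eta, Fin.mk_one, Fin.reduceFinMk, Fin.isValue, Fin.reduceAdd, zero_add]; linarith,
        by simp only [Fin.zero_eta, Fin.mk_one, Fin.reduceFinMk, Fin.isValue, Fin.reduceAdd, zero_add]; linarith⟩)
    | exact Or.inr (Or.inr ⟨
        by simp only [Fin.zero_eta, Fin.mk_one, Fin.reduceFinMk, Fin.isValue, Fin.reduceAdd, zero_add]; linarith,
        by simp only [Fin.zero_eta, Fin.mk_one, Fin.reduceFinMk, Fin.isValue, Fin.reduceAdd, zero_add]; linarith,
        by simp only [Fin.zero_eta, Fin.mk_one, Fin.reduceFinMk, Fin.isValue, Fin.reduceAdd, zero_add]; linarith⟩)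

/-- the affine function which vanishes on the line through `a` and `b` -/
private noncomputable def conv_h (e₁ e₂ a b x : V) : ℝ :=
  (⟪e₁, b⟫ - ⟪e₁, a⟫) * (⟪e₂, x⟫ - ⟪e₂, a⟫) - (⟪e₂, b⟫ - ⟪e₂, a⟫) * (⟪e₁, x⟫ - ⟪e₁, a⟫)

private theorem conv_h_affine (e₁ e₂ a b x y : V) {s t : ℝ} (h : s + t = 1) :
    conv_h e₁ e₂ a b (s • x + t • y) = s * conv_h e₁ e₂ a b x + t * conv_h e₁ e₂ a b y := by
  unfold conv_h
  rw [inner_add_right, inner_add_right, inner_smul_right, inner_smul_right, inner_smul_right,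
    inner_smul_right]
  have ht : t = 1 - s := by linarith
  subst ht
  ring

private theorem conv_h_left (e₁ e₂ a b : V) : conv_h e₁ e₂ a b a = 0 := by
  unfold conv_h
  ring

private theorem conv_h_right (e₁ e₂ a b : V) : conv_h e₁ e₂ a b b = 0 := by
  unfold conv_h
  ring

private theorem conv_inner1 {c : V} {R : ℝ} {e₁ e₂ : V} (he : ON e₁ e₂) (θ : Fin 6 → ℝ)
    (i : Fin 6) : ⟪e₁, circ c R e₁ e₂ θ i⟫ = ⟪e₁, c⟫ + R * Real.cos (θ i) := by
  obtain ⟨h1, h2, h3⟩ := he
  unfold circ
  rw [inner_add_right, inner_add_right, inner_smul_right, inner_smul_right, h3,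
    real_inner_self_eq_norm_sq, h1]
  ring

private theorem conv_inner2 {c : V} {R : ℝ} {e₁ e₂ : V} (he : ON e₁ e₂) (θ : Fin 6 → ℝ)
    (i : Fin 6) : ⟪e₂, circ c R e₁ e₂ θ i⟫ = ⟪e₂, c⟫ + R * Real.sin (θ i) := by
  obtain ⟨h1, h2, h3⟩ := he
  unfold circ
  rw [inner_add_right, inner_add_right, inner_smul_right, inner_smul_right,
    real_inner_comm e₁ e₂, h3,
    real_inner_self_eq_norm_sq, h2]
  ring

private theorem conv_h_pos {c : V} {R : ℝ} {e₁ e₂ : V} {θ : Fin 6 → ℝ} (hR : 0 < R)
    (he : ON e₁ e₂) (hs : Sorted θ) (i k : Fin 6) (h1 : k ≠ i) (h2 : k ≠ i + 1) :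
    0 < conv_h e₁ e₂ (circ c R e₁ e₂ θ i) (circ c R e₁ e₂ θ (i + 1)) (circ c R e₁ e₂ θ k) := by
  have h := conv_det_pos (conv_ord hs i k h1 h2)
  have e : conv_h e₁ e₂ (circ c R e₁ e₂ θ i) (circ c R e₁ e₂ θ (i + 1)) (circ c R e₁ e₂ θ k) =
      R ^ 2 * conv_det (θ i) (θ (i + 1)) (θ k) := by
    unfold conv_h conv_det
    rw [conv_inner1 he, conv_inner1 he, conv_inner1 he, conv_inner2 he, conv_inner2 he,
      conv_inner2 he]
    ring
  rw [e]
  positivity

theorem pCONV : CONV := by
  intro c R e₁ e₂ θ hR he hs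
  have pos := fun i k h1 h2 => conv_h_pos (c := c) hR he hs i k h1 h2
  set p : Fin 6 → V := circ c R e₁ e₂ θ with hp
  have two : ∀ i : Fin 6, i ≠ i + 1 + 1 ∧ i + 1 + 1 ≠ i + 1 := by decide
  have far : ∀ i j : Fin 6, j + 1 = i → j ≠ i ∧ j ≠ i + 1 := by decide
  have add1 : ∀ i j : Fin 6, i ≠ j → j + 1 ≠ i + 1 := by decide
  constructor
  · intro i j hij
    by_contra hne
    by_cases h : j = i + 1
    · subst h
      have h1 := pos (i + 1) i (fun h => hne h) (two i).1
      rw [hij, conv_h_left] at h1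
      exact lt_irrefl _ h1
    · have h1 := pos i j (fun h' => hne h'.symm) h
      rw [← hij, conv_h_left] at h1
      exact lt_irrefl _ h1
  · rintro i j hij x ⟨⟨a, b, ha, hb, hab, hx⟩, ⟨s, t, hs0, ht0, hst, hx'⟩⟩
    have h0 : conv_h e₁ e₂ (p i) (p (i + 1)) x = 0 := by
      rw [← hx, conv_h_affine _ _ _ _ _ _ hab, conv_h_left, conv_h_right]
      ring
    rw [← hx', conv_h_affine _ _ _ _ _ _ hst] at h0
    by_cases c1 : j = i + 1
    · subst c1
      rw [conv_h_right] at h0
      have h1 := pos i (i + 1 + 1) (two i).1.symm (two i).2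
      have h2 : t = 0 := by
        have h3 : t * conv_h e₁ e₂ (p i) (p (i + 1)) (p (i + 1 + 1)) = 0 := by linarith
        exact (mul_eq_zero.1 h3).resolve_right h1.ne'
      subst h2
      have h3 : s = 1 := by linarith
      subst h3
      have h4 : x = p (i + 1) := by rw [← hx']; simp
      rw [h4]
      exact ⟨Or.inr rfl, Or.inl rfl⟩
    · by_cases c2 : j + 1 = i
      · have h1 := pos i j (far i j c2).1 (far i j c2).2
        rw [c2, conv_h_left] at h0
        have h2 : s = 0 := by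
          have h3 : s * conv_h e₁ e₂ (p i) (p (i + 1)) (p j) = 0 := by linarith
          exact (mul_eq_zero.1 h3).resolve_right h1.ne'
        subst h2
        have h3 : t = 1 := by linarith
        subst h3
        have h4 : x = p (j + 1) := by rw [← hx']; simp
        rw [h4]
        refine ⟨Or.inl ?_, Or.inr rfl⟩
        rw [c2]
      · exfalso
        have h1 := pos i j hij.symm c1
        have h2 := pos i (j + 1) c2 (add1 i j hij)
        have h3 : 0 ≤ s * conv_h e₁ e₂ (p i) (p (i + 1)) (p j) := mul_nonneg hs0 h1.le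
        have h4 : 0 ≤ t * conv_h e₁ e₂ (p i) (p (i + 1)) (p (j + 1)) := mul_nonneg ht0 h2.le
        have h5 : s * conv_h e₁ e₂ (p i) (p (i + 1)) (p j) = 0 := by linarith
        have h6 : t * conv_h e₁ e₂ (p i) (p (i + 1)) (p (j + 1)) = 0 := by linarith
        have h7 := (mul_eq_zero.1 h5).resolve_right h1.ne'
        have h8 := (mul_eq_zero.1 h6).resolve_right h2.ne'
        linarith

end Pool.Agent.H223.MB
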