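import Pool.Agent.H223.MB.Stm2

open scoped RealInnerProductSpace Topology
open Set Filter

namespace Pool.Agent.H223.MB

/-- Twice the signed area of a triangle inscribed in the unit circle. -/
private noncomputable def crossArea (s t u : ℝ) : ℝ :=
  (Real.cos t - Real.cos s) * (Real.sin u - Real.sin s) -
    (Real.sin t - Real.sin s) * (Real.cos u - Real.cos s)

private theorem crossArea_eq (s u v : ℝ) :
    crossArea s (s + 2 * u) (s + 2 * u + 2 * v) =
      4 * Real.sin u * Real.sin v * Real.sin (u + v) := by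
  have h1 : crossArea s (s + 2 * u) (s + 2 * u + 2 * v) =
      Real.sin ((s + 2 * u + 2 * v) - (s + 2 * u)) + Real.sin ((s + 2 * u) - s) -
        Real.sin ((s + 2 * u + 2 * v) - s) := by
    rw [Real.sin_sub, Real.sin_sub, Real.sin_sub]
    unfold crossArea
    ring
  have e1 : (s + 2 * u + 2 * v) - (s + 2 * u) = 2 * v := by ring
  have e2 : (s + 2 * u) - s = 2 * u := by ring
  have e3 : (s + 2 * u + 2 * v) - s = 2 * u + 2 * v := by ring
  rw [h1, e1, e2, e3, Real.sin_add (2 * u) (2 * v), Real.sin_add u v, Real.sin_two_mul,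
    Real.sin_two_mul, Real.cos_two_mul, Real.cos_two_mul]
  have hu := Real.sin_sq_add_cos_sq u
  have hv := Real.sin_sq_add_cos_sq v
  have hu' : Real.cos u ^ 2 = 1 - Real.sin u ^ 2 := by linarith
  have hv' : Real.cos v ^ 2 = 1 - Real.sin v ^ 2 := by linarith
  rw [hu', hv']
  ring

private theorem crossArea_pos {s t u : ℝ} (h1 : s < t) (h2 : t < u) (h3 : u < s + 2 * Real.pi) :
    0 < crossArea s t u := by
  have e1 : t = s + 2 * ((t - s) / 2) := by ring
  have e2 : u = s + 2 * ((t - s) / 2) + 2 * ((u - t) / 2) := by ring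
  have key := crossArea_eq s ((t - s) / 2) ((u - t) / 2)
  rw [← e2, ← e1] at key
  rw [key]
  have p1 : 0 < Real.sin ((t - s) / 2) :=
    Real.sin_pos_of_pos_of_lt_pi (by linarith) (by linarith)
  have p2 : 0 < Real.sin ((u - t) / 2) :=
    Real.sin_pos_of_pos_of_lt_pi (by linarith) (by linarith)
  have p3 : 0 < Real.sin ((t - s) / 2 + (u - t) / 2) :=
    Real.sin_pos_of_pos_of_lt_pi (by linarith) (by linarith)
  positivity

private theorem cross_comb (c : V) (R : ℝ) (e₁ e₂ : V) (φ : Fin 6 → ℝ) (i j : Fin 6) (p q : ℝ)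
    (h : p + q = 1) :
    p • circ c R e₁ e₂ φ i + q • circ c R e₁ e₂ φ j =
      c + (R * (p * Real.cos (φ i) + q * Real.cos (φ j))) • e₁ +
        (R * (p * Real.sin (φ i) + q * Real.sin (φ j))) • e₂ := by
  have h' : q = 1 - p := by linarith
  subst h'
  unfold circ
  module

/-- Chords with interlaced end points meet. -/
theorem pCROSS : CROSS := by
  intro c R e₁ e₂ φ i j k l hij hjk hkl hli
  have ha : 0 < crossArea (φ j) (φ k) (φ l) := crossArea_pos hjk hkl (by linarith)
  have hb : 0 < crossArea (φ i) (φ j) (φ l) := crossArea_pos hij (by linarith) hli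
  have hd : 0 < crossArea (φ i) (φ k) (φ l) := crossArea_pos (by linarith) hkl hli
  have hg : 0 < crossArea (φ i) (φ j) (φ k) := crossArea_pos hij hjk (by linarith)
  have hsum : crossArea (φ i) (φ k) (φ l) + crossArea (φ i) (φ j) (φ k) =
      crossArea (φ j) (φ k) (φ l) + crossArea (φ i) (φ j) (φ l) := by
    unfold crossArea
    ring
  have hcos : crossArea (φ i) (φ k) (φ l) * Real.cos (φ j) +
      crossArea (φ i) (φ j) (φ k) * Real.cos (φ l) =
      crossArea (φ j) (φ k) (φ l) * Real.cos (φ i) +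
        crossArea (φ i) (φ j) (φ l) * Real.cos (φ k) := by
    unfold crossArea
    ring
  have hsin : crossArea (φ i) (φ k) (φ l) * Real.sin (φ j) +
      crossArea (φ i) (φ j) (φ k) * Real.sin (φ l) =
      crossArea (φ j) (φ k) (φ l) * Real.sin (φ i) +
        crossArea (φ i) (φ j) (φ l) * Real.sin (φ k) := by
    unfold crossArea
    ring
  generalize crossArea (φ j) (φ k) (φ l) = a at ha hsum hcos hsin
  generalize crossArea (φ i) (φ j) (φ l) = b at hb hsum hcos hsin
  generalize crossArea (φ i) (φ k) (φ l) = d at hd hsum hcos hsin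
  generalize crossArea (φ i) (φ j) (φ k) = g at hg hsum hcos hsin
  have hS : 0 < a + b := by linarith
  have hS' : a + b ≠ 0 := ne_of_gt hS
  have h1 : a / (a + b) + b / (a + b) = 1 := by
    rw [← add_div]
    exact div_self hS'
  have h2 : d / (a + b) + g / (a + b) = 1 := by
    rw [← add_div, hsum]
    exact div_self hS'
  refine ⟨(a / (a + b)) • circ c R e₁ e₂ φ i + (b / (a + b)) • circ c R e₁ e₂ φ k,
    ⟨a / (a + b), b / (a + b), by positivity, by positivity, h1, rfl⟩,
    ⟨d / (a + b), g / (a + b), by positivity, by positivity, h2, ?_⟩⟩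
  rw [cross_comb c R e₁ e₂ φ j l _ _ h2, cross_comb c R e₁ e₂ φ i k _ _ h1]
  have q1 : d / (a + b) * Real.cos (φ j) + g / (a + b) * Real.cos (φ l) =
      a / (a + b) * Real.cos (φ i) + b / (a + b) * Real.cos (φ k) := by
    rw [div_mul_eq_mul_div, div_mul_eq_mul_div, div_mul_eq_mul_div, div_mul_eq_mul_div,
      ← add_div, ← add_div, hcos]
  have q2 : d / (a + b) * Real.sin (φ j) + g / (a + b) * Real.sin (φ l) =
      a / (a + b) * Real.sin (φ i) + b / (a + b) * Real.sin (φ k) := by
    rw [div_mul_eq_mul_div, div_mul_eq_mul_div, div_mul_eq_mul_div, div_mul_eq_mul_div,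
      ← add_div, ← add_div, hsin]
  rw [q1, q2]

end Pool.Agent.H223.MB
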