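import Pool.Agent.H223.MB.Stm2

/-!
# CROSS: chords with interlaced end points meet (helper632, for the project MB of helper223)
-/

open scoped RealInnerProductSpace Topology
open Set Filter

namespace Pool.Agent.H223.MB

/-- Twice the signed area of the triangle with the vertices `e(r)`, `e(s)`, `e(t)` of the unit circle. -/
private noncomputable def cross_area (r s t : ℝ) : ℝ :=
  (Real.cos s - Real.cos r) * (Real.sin t - Real.sin r) -
    (Real.sin s - Real.sin r) * (Real.cos t - Real.cos r)

private lemma cross_area_eq (r s t : ℝ) : cross_area r s t =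
    4 * Real.sin ((s - r) / 2) * Real.sin ((t - r) / 2) * Real.sin ((t - s) / 2) := by
  have h : Real.sin ((t - s) / 2) = Real.sin ((t + r) / 2) * Real.cos ((s + r) / 2) -
      Real.cos ((t + r) / 2) * Real.sin ((s + r) / 2) := by
    rw [← Real.sin_sub]
    congr 1
    ring
  rw [cross_area, Real.cos_sub_cos, Real.cos_sub_cos, Real.sin_sub_sin, Real.sin_sub_sin, h]
  ring

private lemma cross_area_pos {r s t : ℝ} (h1 : r < s) (h2 : s < t) (h3 : t < r + 2 * Real.pi) :
    0 < cross_area r s t := by
  rw [cross_area_eq]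
  have a1 : 0 < Real.sin ((s - r) / 2) := Real.sin_pos_of_pos_of_lt_pi (by linarith) (by linarith)
  have a2 : 0 < Real.sin ((t - r) / 2) := Real.sin_pos_of_pos_of_lt_pi (by linarith) (by linarith)
  have a3 : 0 < Real.sin ((t - s) / 2) := Real.sin_pos_of_pos_of_lt_pi (by linarith) (by linarith)
  positivity

private lemma cross_comb (c e₁ e₂ : V) (R α β u₁ v₁ u₂ v₂ : ℝ) (h : α + β = 1) :
    α • (c + (R * u₁) • e₁ + (R * v₁) • e₂) + β • (c + (R * u₂) • e₁ + (R * v₂) • e₂) =
      c + (R * (α * u₁ + β * u₂)) • e₁ + (R * (α * v₁ + β * v₂)) • e₂ := by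
  obtain rfl : β = 1 - α := by linarith
  module

theorem pCROSS : CROSS := by
  intro c R e₁ e₂ φ i j k l hij hjk hkl hli
  have ha : 0 < cross_area (φ j) (φ k) (φ l) := cross_area_pos hjk hkl (by linarith)
  have hb : 0 < cross_area (φ i) (φ j) (φ l) := cross_area_pos hij (by linarith) hli
  have hd : 0 < cross_area (φ i) (φ k) (φ l) := cross_area_pos (by linarith) hkl hli
  have hg : 0 < cross_area (φ i) (φ j) (φ k) := cross_area_pos hij hjk (by linarith)
  have hs : cross_area (φ j) (φ k) (φ l) + cross_area (φ i) (φ j) (φ l) =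
      cross_area (φ i) (φ k) (φ l) + cross_area (φ i) (φ j) (φ k) := by
    unfold cross_area
    ring
  have hc : cross_area (φ j) (φ k) (φ l) * Real.cos (φ i) + cross_area (φ i) (φ j) (φ l) * Real.cos (φ k) =
      cross_area (φ i) (φ k) (φ l) * Real.cos (φ j) + cross_area (φ i) (φ j) (φ k) * Real.cos (φ l) := by
    unfold cross_area
    ring
  have hn : cross_area (φ j) (φ k) (φ l) * Real.sin (φ i) + cross_area (φ i) (φ j) (φ l) * Real.sin (φ k) =
      cross_area (φ i) (φ k) (φ l) * Real.sin (φ j) + cross_area (φ i) (φ j) (φ k) * Real.sin (φ l) := by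
    unfold cross_area
    ring
  generalize cross_area (φ j) (φ k) (φ l) = a at *
  generalize cross_area (φ i) (φ j) (φ l) = b at *
  generalize cross_area (φ i) (φ k) (φ l) = d at *
  generalize cross_area (φ i) (φ j) (φ k) = g at *
  have hS : 0 < a + b := by linarith
  have hS' : a + b ≠ 0 := hS.ne'
  have e1 : a / (a + b) + b / (a + b) = 1 := by
    rw [← add_div, div_self hS']
  have e2 : d / (a + b) + g / (a + b) = 1 := by
    rw [← add_div, ← hs, div_self hS']
  refine ⟨c + (R * (a / (a + b) * Real.cos (φ i) + b / (a + b) * Real.cos (φ k))) • e₁ +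
    (R * (a / (a + b) * Real.sin (φ i) + b / (a + b) * Real.sin (φ k))) • e₂, ?_, ?_⟩
  · exact ⟨a / (a + b), b / (a + b), by positivity, by positivity, e1, cross_comb _ _ _ _ _ _ _ _ _ _ e1⟩
  · refine ⟨d / (a + b), g / (a + b), by positivity, by positivity, e2, ?_⟩
    unfold circ
    rw [cross_comb _ _ _ _ _ _ _ _ _ _ e2]
    have f1 : a / (a + b) * Real.cos (φ i) + b / (a + b) * Real.cos (φ k) =
        d / (a + b) * Real.cos (φ j) + g / (a + b) * Real.cos (φ l) := by
      rw [div_mul_eq_mul_div, div_mul_eq_mul_div, div_mul_eq_mul_div, div_mul_eq_mul_div,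
        ← add_div, ← add_div, hc]
    have f2 : a / (a + b) * Real.sin (φ i) + b / (a + b) * Real.sin (φ k) =
        d / (a + b) * Real.sin (φ j) + g / (a + b) * Real.sin (φ l) := by
      rw [div_mul_eq_mul_div, div_mul_eq_mul_div, div_mul_eq_mul_div, div_mul_eq_mul_div,
        ← add_div, ← add_div, hn]
    rw [f1, f2]

end Pool.Agent.H223.MB
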