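import Pool.Agent.H223.MB.Stm

/-!
# D2: the derivative of `G`
-/

open scoped RealInnerProductSpace Topology
open Set Filter

namespace Pool.Agent.H223.MB

theorem d2_f {X Y Z : ℝ → ℝ} {x y z t : ℝ} {s : Set ℝ} (hX : HasDerivWithinAt X (X t * x) s t)
    (hY : HasDerivWithinAt Y (Y t * y) s t) (hZ : HasDerivWithinAt Z (Z t * z) s t)
    (hY0 : Y t ≠ 0) (hZ0 : Z t ≠ 0) :
    HasDerivWithinAt (fun u => f (X u) (Y u) (Z u))
      (AX (X t) (Y t) (Z t) * x + AY (X t) (Y t) (Z t) * y + AZ (X t) (Y t) (Z t) * z) s t := by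
  have hS : HasDerivWithinAt (fun u => X u + Y u) (X t * x + Y t * y) s t := hX.fun_add hY
  have hS2 : HasDerivWithinAt (fun u => (X u + Y u) ^ 2)
      (2 * (X t + Y t) * (X t * x + Y t * y)) s t :=
    (hS.fun_pow 2).congr_deriv (by push_cast; ring)
  have hZ2 : HasDerivWithinAt (fun u => Z u ^ 2) (2 * Z t * (Z t * z)) s t :=
    (hZ.fun_pow 2).congr_deriv (by push_cast; ring)
  have hN : HasDerivWithinAt (fun u => (X u + Y u) ^ 2 - Z u ^ 2)
      (2 * (X t + Y t) * (X t * x + Y t * y) - 2 * Z t * (Z t * z)) s t := hS2.fun_sub hZ2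
  have hD : HasDerivWithinAt (fun u => 2 * Y u * Z u)
      (2 * (Y t * y) * Z t + 2 * Y t * (Z t * z)) s t := (hY.const_mul 2).fun_mul hZ
  have hD0 : 2 * Y t * Z t ≠ 0 := mul_ne_zero (mul_ne_zero two_ne_zero hY0) hZ0
  have h := hN.fun_div hD hD0
  refine h.congr_deriv ?_
  unfold AX AY AZ
  field_simp
  ring

theorem d2_mul {X Y : ℝ → ℝ} {x y t : ℝ} {s : Set ℝ} (hX : HasDerivWithinAt X (X t * x) s t)
    (hY : HasDerivWithinAt Y (Y t * y) s t) :
    HasDerivWithinAt (fun u => X u * Y u) ((X t * Y t) * (x + y)) s t :=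
  (hX.fun_mul hY).congr_deriv (by ring)

theorem d2_idx (i j : Fin 6) (h : Far i j) :
    i ≠ i + 1 ∧ j ≠ j + 1 ∧ i + 1 ≠ j ∧ i ≠ j + 1 ∧ i ≠ j ∧ i + 1 ≠ j + 1 := by
  revert i j
  decide

theorem pD2 : D2 := by
  intro r l t s hr h0
  unfold G dG
  refine HasDerivWithinAt.fun_sum ?_
  intro i _
  refine HasDerivWithinAt.fun_sum ?_
  intro j _
  by_cases h : Far i j
  · simp only [if_pos h]
    obtain ⟨h1, h2, h3, h4, h5, h6⟩ := d2_idx i j h
    exact d2_f (X := fun u => PX (r u) i j) (Y := fun u => PY (r u) i j)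
      (Z := fun u => PZ (r u) i j)
      (d2_mul (hr i (i + 1) h1) (hr j (j + 1) h2))
      (d2_mul (hr (i + 1) j h3) (hr i (j + 1) h4))
      (d2_mul (hr i j h5) (hr (i + 1) (j + 1) h6))
      (mul_ne_zero (h0 (i + 1) j h3) (h0 i (j + 1) h4))
      (mul_ne_zero (h0 i j h5) (h0 (i + 1) (j + 1) h6))
  · simp only [if_neg h]
    exact hasDerivWithinAt_const t s 0

end Pool.Agent.H223.MB
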