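import Mathlib

/-!
# Discrete Moebius energy of hexagons: definitions (MP_6bf31b_an)
-/

open scoped RealInnerProductSpace
open Set

namespace Pool.Agent.H223.MB

/-- Euclidean three-space. -/
abbrev V := EuclideanSpace ℝ (Fin 3)

/-- A tangent vector at `a` of the circle (or line) through `a`, `b`, `c`, oriented by the order `a → b → c`. -/
noncomputable def tanv (a b c : V) : V := (‖b - a‖ ^ 2)⁻¹ • (b - a) - (‖c - a‖ ^ 2)⁻¹ • (c - a)

/-- The summand of the energy, for `a = p i`, `b = p (i+1)`, `c = p j`, `d = p (j+1)`. -/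
noncomputable def summand (a b c d : V) : ℝ :=
  ‖b - a‖ * ‖d - c‖ / (‖c - a‖ * ‖d - b‖) *
    (1 - (Real.cos (InnerProductGeometry.angle (tanv a b c) (tanv a c d)) +
      Real.cos (InnerProductGeometry.angle (tanv b d a) (tanv b c d))) / 2)

/-- Cyclic distance larger than one. -/
def Far {m : ℕ} [NeZero m] (i j : Fin m) : Prop := j ≠ i ∧ j ≠ i + 1 ∧ i ≠ j + 1

instance {m : ℕ} [NeZero m] (i j : Fin m) : Decidable (Far i j) := by unfold Far; infer_instance

/-- The energy `E_cos^m`. -/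
noncomputable def energy {m : ℕ} [NeZero m] (p : Fin m → V) : ℝ :=
  ∑ i, ∑ j, if Far i j then summand (p i) (p (i + 1)) (p j) (p (j + 1)) else 0

/-- The edge `[p i, p (i+1)]`. -/
def edge {m : ℕ} [NeZero m] (p : Fin m → V) (i : Fin m) : Set V := segment ℝ (p i) (p (i + 1))

/-- Embedded polygons: the vertices are distinct and distinct edges meet only in shared endpoints. -/
def Embedded {m : ℕ} [NeZero m] (p : Fin m → V) : Prop :=
  Function.Injective p ∧ ∀ i j, i ≠ j → edge p i ∩ edge p j ⊆ {p i, p (i + 1)} ∩ {p j, p (j + 1)}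

/-- The closed curve traced by the polygon. -/
def trace {m : ℕ} [NeZero m] (p : Fin m → V) : Set V := ⋃ i, edge p i

/-- Ambient isotopy of subsets of `ℝ³`. -/
def AmbientIsotopic (K L : Set V) : Prop :=
  ∃ H : ℝ → V → V, ContinuousOn (fun q : ℝ × V => H q.1 q.2) (Icc 0 1 ×ˢ univ) ∧
    (∀ t ∈ Icc (0 : ℝ) 1, IsHomeomorph (H t)) ∧ (∀ x, H 0 x = x) ∧ H 1 '' K = L

/-! ## Auxiliary notions -/

/-- `(X+Y)²-Z²` over `2YZ`. -/
noncomputable def f (X Y Z : ℝ) : ℝ := ((X + Y) ^ 2 - Z ^ 2) / (2 * Y * Z)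

/-- `∂ f / ∂ log X` -/
noncomputable def AX (X Y Z : ℝ) : ℝ := X * (X + Y) / (Y * Z)
/-- `∂ f / ∂ log Y` -/
noncomputable def AY (X Y Z : ℝ) : ℝ := (Y ^ 2 + Z ^ 2 - X ^ 2) / (2 * Y * Z)
/-- `∂ f / ∂ log Z` -/
noncomputable def AZ (X Y Z : ℝ) : ℝ := -((X + Y) ^ 2 + Z ^ 2) / (2 * Y * Z)

/-- The three products for a pair of edges `i`, `j` and a matrix `r` of distances. -/
def PX (r : Fin 6 → Fin 6 → ℝ) (i j : Fin 6) : ℝ := r i (i + 1) * r j (j + 1)
/-- see `PX` -/
def PY (r : Fin 6 → Fin 6 → ℝ) (i j : Fin 6) : ℝ := r (i + 1) j * r i (j + 1)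
/-- see `PX` -/
def PZ (r : Fin 6 → Fin 6 → ℝ) (i j : Fin 6) : ℝ := r i j * r (i + 1) (j + 1)

/-- The energy of hexagons as a function of the distances. -/
noncomputable def G (r : Fin 6 → Fin 6 → ℝ) : ℝ :=
  ∑ i, ∑ j, if Far i j then f (PX r i j) (PY r i j) (PZ r i j) else 0

/-- Its derivative, in terms of the logarithmic derivatives `l` of the distances. -/
noncomputable def dG (r l : Fin 6 → Fin 6 → ℝ) : ℝ :=
  ∑ i, ∑ j, if Far i j then
    AX (PX r i j) (PY r i j) (PZ r i j) * (l i (i + 1) + l j (j + 1)) +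
    AY (PX r i j) (PY r i j) (PZ r i j) * (l (i + 1) j + l i (j + 1)) +
    AZ (PX r i j) (PY r i j) (PZ r i j) * (l i j + l (i + 1) (j + 1)) else 0

/-- The matrix of the distances. -/
noncomputable def dm (p : Fin 6 → V) (i j : Fin 6) : ℝ := ‖p j - p i‖

/-- Matrices of distances: symmetric, positive off the diagonal, Ptolemy's inequality. -/
structure Good (r : Fin 6 → Fin 6 → ℝ) : Prop where
  symm : ∀ i j, r i j = r j i
  pos : ∀ i j, i ≠ j → 0 < r i j
  ptol1 : ∀ i j, Far i j → PY r i j ≤ PX r i j + PZ r i j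
  ptol2 : ∀ i j, Far i j → PZ r i j ≤ PX r i j + PY r i j

/-- `i` and `j` are different and not neighbours. -/
def NonAdj (i j : Fin 6) : Prop := j ≠ i ∧ j ≠ i + 1 ∧ i ≠ j + 1

/-- The stress matrix: coefficients of `dG r` (twice counted). -/
structure Stress (r L : Fin 6 → Fin 6 → ℝ) : Prop where
  symm : ∀ i j, L i j = L j i
  diag : ∀ i, L i i = 0
  sum : ∀ i, ∑ j, L i j = 0
  neg : ∀ i j, NonAdj i j → L i j < 0
  rep : ∀ l : Fin 6 → Fin 6 → ℝ, (∀ i j, l i j = l j i) → dG r l = ∑ i, ∑ j, L i j * l i j / 2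

/-- The linear relations `α + ⟨β, p i⟩ + γ |p i|² = 0`, as a subspace. -/
noncomputable def Rel (p : Fin 6 → V) : (ℝ × V × ℝ) →ₗ[ℝ] (Fin 6 → ℝ) where
  toFun q := fun i => q.1 + inner ℝ q.2.1 (p i) + q.2.2 * ‖p i‖ ^ 2
  map_add' q q' := by
    ext i
    simp only [Prod.fst_add, Prod.snd_add, Pi.add_apply, inner_add_left]
    ring
  map_smul' c q := by
    ext i
    simp only [Prod.smul_fst, Prod.smul_snd, Pi.smul_apply, inner_smul_left, smul_eq_mul,
      RingHom.id_apply]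
    simp only [conj_trivial]
    ring

end Pool.Agent.H223.MB
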