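import Pool.Agent.H223.MB.Stm

/-!
# Project MB (helper223), F1: formula for the summand (helper928)
-/

open scoped RealInnerProductSpace Topology
open Set Filter

namespace Pool.Agent.H223.MB

theorem f1_inv (x y : V) (hx : x ≠ 0) (hy : y ≠ 0) :
    ‖(‖x‖ ^ 2)⁻¹ • x - (‖y‖ ^ 2)⁻¹ • y‖ = ‖x - y‖ / (‖x‖ * ‖y‖) := by
  have h := dist_div_norm_sq_smul hx hy 1
  rw [dist_eq_norm, dist_eq_norm, one_div, one_div, inv_pow, inv_pow] at h
  rw [h]
  ring

theorem f1_cos (P Q : V) : Real.cos (InnerProductGeometry.angle P Q) =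
    (‖P + Q‖ ^ 2 - ‖P‖ ^ 2 - ‖Q‖ ^ 2) / 2 / (‖P‖ * ‖Q‖) := by
  rw [InnerProductGeometry.cos_angle]
  congr 1
  have h := norm_add_sq_real P Q
  linarith

theorem f1_cos' (x y z : V) (hx : x ≠ 0) (hy : y ≠ 0) (hz : z ≠ 0) :
    Real.cos (InnerProductGeometry.angle ((‖x‖ ^ 2)⁻¹ • x - (‖y‖ ^ 2)⁻¹ • y)
      ((‖y‖ ^ 2)⁻¹ • y - (‖z‖ ^ 2)⁻¹ • z)) =
    ((‖x - z‖ / (‖x‖ * ‖z‖)) ^ 2 - (‖x - y‖ / (‖x‖ * ‖y‖)) ^ 2 -
      (‖y - z‖ / (‖y‖ * ‖z‖)) ^ 2) / 2 /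
      ((‖x - y‖ / (‖x‖ * ‖y‖)) * (‖y - z‖ / (‖y‖ * ‖z‖))) := by
  rw [f1_cos, sub_add_sub_cancel, f1_inv x y hx hy, f1_inv y z hy hz, f1_inv x z hx hz]

theorem pF1 : F1 := by
  intro a b c d hab hac had hbc hbd hcd
  have h1 : b - a ≠ 0 := sub_ne_zero.2 hab.symm
  have h2 : c - a ≠ 0 := sub_ne_zero.2 hac.symm
  have h3 : d - a ≠ 0 := sub_ne_zero.2 had.symm
  have h4 : c - b ≠ 0 := sub_ne_zero.2 hbc.symm
  have h5 : d - b ≠ 0 := sub_ne_zero.2 hbd.symm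
  have h6 : d - c ≠ 0 := sub_ne_zero.2 hcd.symm
  have h7 : a - b ≠ 0 := sub_ne_zero.2 hab
  have e1 := f1_cos' (b - a) (c - a) (d - a) h1 h2 h3
  have e2 : Real.cos (InnerProductGeometry.angle (tanv b d a) (tanv b c d)) =
      Real.cos (InnerProductGeometry.angle (tanv b c d) (tanv b d a)) := by
    rw [InnerProductGeometry.angle_comm]
  have e3 := f1_cos' (c - b) (d - b) (a - b) h4 h5 h7
  unfold summand
  rw [e2]
  unfold tanv
  rw [e1, e3]
  rw [show b - a - (d - a) = -(d - b) by abel, show b - a - (c - a) = -(c - b) by abel,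
    show c - a - (d - a) = -(d - c) by abel, show c - b - (a - b) = c - a by abel,
    show c - b - (d - b) = -(d - c) by abel, show d - b - (a - b) = d - a by abel,
    show a - b = -(b - a) by abel]
  simp only [norm_neg]
  unfold f
  have p1 := norm_pos_iff.2 h1
  have p2 := norm_pos_iff.2 h2
  have p3 := norm_pos_iff.2 h3
  have p4 := norm_pos_iff.2 h4
  have p5 := norm_pos_iff.2 h5
  have p6 := norm_pos_iff.2 h6
  generalize ‖b - a‖ = p at *
  generalize ‖c - a‖ = q at *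
  generalize ‖d - a‖ = r at *
  generalize ‖c - b‖ = s at *
  generalize ‖d - b‖ = t at *
  generalize ‖d - c‖ = u at *
  have p1' := p1.ne'
  have p2' := p2.ne'
  have p3' := p3.ne'
  have p4' := p4.ne'
  have p5' := p5.ne'
  have p6' := p6.ne'
  field_simp
  ring

end Pool.Agent.H223.MB
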