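import Pool.Agent.H223.MB.Stm

set_option autoImplicit false

open scoped RealInnerProductSpace Topology
open Set Filter

namespace Pool.Agent.H223.MB

private theorem f1_norm (x y : V) (hx : x ≠ 0) (hy : y ≠ 0) :
    ‖(‖x‖ ^ 2)⁻¹ • x - (‖y‖ ^ 2)⁻¹ • y‖ = ‖x - y‖ / (‖x‖ * ‖y‖) := by
  have h := dist_div_norm_sq_smul hx hy 1
  rw [dist_eq_norm, dist_eq_norm] at h
  have e : ∀ z : V, (1 / ‖z‖) ^ 2 = (‖z‖ ^ 2)⁻¹ := fun z => by rw [one_div, inv_pow]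
  rw [e, e] at h
  rw [h]
  ring

private theorem f1_cos (P Q : V) : Real.cos (InnerProductGeometry.angle P Q) =
    (‖P + Q‖ ^ 2 - ‖P‖ ^ 2 - ‖Q‖ ^ 2) / 2 / (‖P‖ * ‖Q‖) := by
  rw [InnerProductGeometry.cos_angle]
  congr 1
  have := norm_add_sq_real P Q
  linarith

private theorem f1_tan (a b c : V) (hab : a ≠ b) (hac : a ≠ c) :
    ‖tanv a b c‖ = ‖c - b‖ / (‖b - a‖ * ‖c - a‖) := by
  unfold tanv
  rw [f1_norm _ _ (sub_ne_zero.2 hab.symm) (sub_ne_zero.2 hac.symm), sub_sub_sub_cancel_right,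
    norm_sub_rev b c]

theorem pF1 : F1 := by
  intro a b c d hab hac had hbc hbd hcd
  have n1 : ‖tanv a b c‖ = ‖c - b‖ / (‖b - a‖ * ‖c - a‖) := f1_tan a b c hab hac
  have n2 : ‖tanv a c d‖ = ‖d - c‖ / (‖c - a‖ * ‖d - a‖) := f1_tan a c d hac had
  have n3 : ‖tanv a b c + tanv a c d‖ = ‖d - b‖ / (‖b - a‖ * ‖d - a‖) := by
    rw [← f1_tan a b d hab had]
    congr 1
    unfold tanv
    abel
  have m1 : ‖tanv b d a‖ = ‖d - a‖ / (‖d - b‖ * ‖b - a‖) := by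
    rw [f1_tan b d a hbd hab.symm, norm_sub_rev a d, norm_sub_rev a b]
  have m2 : ‖tanv b c d‖ = ‖d - c‖ / (‖c - b‖ * ‖d - b‖) := f1_tan b c d hbc hbd
  have m3 : ‖tanv b d a + tanv b c d‖ = ‖c - a‖ / (‖c - b‖ * ‖b - a‖) := by
    have h := f1_tan b c a hbc hab.symm
    rw [norm_sub_rev a c, norm_sub_rev a b] at h
    rw [← h]
    congr 1
    unfold tanv
    abel
  have p1 : 0 < ‖b - a‖ := norm_pos_iff.2 (sub_ne_zero.2 hab.symm)
  have p2 : 0 < ‖c - a‖ := norm_pos_iff.2 (sub_ne_zero.2 hac.symm)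
  have p3 : 0 < ‖d - a‖ := norm_pos_iff.2 (sub_ne_zero.2 had.symm)
  have p4 : 0 < ‖c - b‖ := norm_pos_iff.2 (sub_ne_zero.2 hbc.symm)
  have p5 : 0 < ‖d - b‖ := norm_pos_iff.2 (sub_ne_zero.2 hbd.symm)
  have p6 : 0 < ‖d - c‖ := norm_pos_iff.2 (sub_ne_zero.2 hcd.symm)
  unfold summand f
  rw [f1_cos, f1_cos, n1, n2, n3, m1, m2, m3]
  generalize ‖b - a‖ = A at *
  generalize ‖c - a‖ = B at *
  generalize ‖d - a‖ = C at *
  generalize ‖c - b‖ = D at *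
  generalize ‖d - b‖ = E at *
  generalize ‖d - c‖ = F at *
  have q1 := p1.ne'
  have q2 := p2.ne'
  have q3 := p3.ne'
  have q4 := p4.ne'
  have q5 := p5.ne'
  have q6 := p6.ne'
  field_simp
  ring

end Pool.Agent.H223.MB
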