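import Pool.Agent.H223.MB.Stm

/-!
# FAC: a positive semidefinite 6x6 matrix of rank at most two is a sum of two squares (helper437, for helper223)
-/

open scoped RealInnerProductSpace Topology
open Set Filter

namespace Pool.Agent.H223.MB

private lemma fac_entry (M : Matrix (Fin 6) (Fin 6) ℝ) (hH : M.IsHermitian) (i j : Fin 6) :
    M i j = ∑ k, hH.eigenvalues k * (hH.eigenvectorBasis k i * hH.eigenvectorBasis k j) := by
  have h := hH.spectral_theorem
  have h2 := congrFun (congrFun h i) j
  rw [h2, Unitary.conjStarAlgAut_apply, Matrix.mul_apply]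
  apply Finset.sum_congr rfl
  intro k _
  rw [Matrix.mul_diagonal]
  simp only [Matrix.IsHermitian.eigenvectorUnitary_apply, Matrix.star_apply, Function.comp, star_trivial,
    RCLike.ofReal_real_eq_id, id]
  ring

theorem pFAC : FAC := by
  classical
  intro M hs hp hr
  have hH : M.IsHermitian := by
    ext i j
    simp only [Matrix.conjTranspose_apply, star_trivial]
    exact hs.apply i j
  have hn : ∀ k, 0 ≤ hH.eigenvalues k := by
    intro k
    rw [hH.eigenvalues_eq k]
    simpa using hp (hH.eigenvectorBasis k)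
  have hc : Fintype.card {i // hH.eigenvalues i ≠ 0} ≤ 2 := by
    rw [← hH.rank_eq_card_non_zero_eigs]; exact hr
  rw [Fintype.card_subtype] at hc
  obtain ⟨T, hT, hT2⟩ : ∃ T : Finset (Fin 6), (Finset.univ.filter fun i => hH.eigenvalues i ≠ 0) ⊆ T ∧ T.card = 2 := by
    obtain ⟨T, h1, _, h3⟩ := Finset.exists_subsuperset_card_eq
      (Finset.subset_univ (Finset.univ.filter fun i => hH.eigenvalues i ≠ 0)) hc (by simp)
    exact ⟨T, h1, h3⟩
  obtain ⟨a, b, hab, rfl⟩ := Finset.card_eq_two.1 hT2
  refine ⟨fun i => Real.sqrt (hH.eigenvalues a) * hH.eigenvectorBasis a i,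
    fun i => Real.sqrt (hH.eigenvalues b) * hH.eigenvectorBasis b i, fun i j => ?_⟩
  rw [fac_entry M hH i j]
  have hz : ∀ k ∈ (Finset.univ : Finset (Fin 6)), k ∉ ({a, b} : Finset (Fin 6)) →
      hH.eigenvalues k * (hH.eigenvectorBasis k i * hH.eigenvectorBasis k j) = 0 := by
    intro k _ hk
    have : hH.eigenvalues k = 0 := by
      by_contra h
      exact hk (hT (by simpa using h))
    rw [this, zero_mul]
  rw [← Finset.sum_subset (Finset.subset_univ ({a, b} : Finset (Fin 6))) hz, Finset.sum_pair hab]
  have ha := Real.mul_self_sqrt (hn a)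
  have hb := Real.mul_self_sqrt (hn b)
  linear_combination (-(hH.eigenvectorBasis a i * hH.eigenvectorBasis a j)) * ha
    - (hH.eigenvectorBasis b i * hH.eigenvectorBasis b j) * hb

end Pool.Agent.H223.MB
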