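import Pool.Agent.H223.MB.Stm

open scoped RealInnerProductSpace Topology
open Set Filter

namespace Pool.Agent.H223.MB

private theorem fac_two (S : Finset (Fin 6)) (hS : S.card ≤ 2) (v : Fin 6 → Fin 6 → ℝ) :
    ∃ x y : Fin 6 → ℝ, ∀ i j, ∑ k ∈ S, v k i * v k j = x i * x j + y i * y j := by
  obtain h | h | h : S.card = 0 ∨ S.card = 1 ∨ S.card = 2 := by omega
  · rw [Finset.card_eq_zero] at h
    subst h
    exact ⟨0, 0, fun i j => by simp⟩
  · obtain ⟨a, rfl⟩ := Finset.card_eq_one.1 h
    exact ⟨v a, 0, fun i j => by simp⟩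
  · obtain ⟨a, b, hab, rfl⟩ := Finset.card_eq_two.1 h
    exact ⟨v a, v b, fun i j => by rw [Finset.sum_pair hab]⟩

theorem pFAC : FAC := by
  intro M hsym hpos hrank
  classical
  have hM : M.IsHermitian := by
    rw [Matrix.IsHermitian, Matrix.conjTranspose_eq_transpose_of_trivial]
    exact hsym
  have hev : ∀ k, 0 ≤ hM.eigenvalues k := by
    intro k
    rw [hM.eigenvalues_eq]
    have h1 := hpos (⇑(hM.eigenvectorBasis k))
    simpa using h1
  have hcard : (Finset.univ.filter fun k => hM.eigenvalues k ≠ 0).card ≤ 2 := by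
    rw [hM.rank_eq_card_non_zero_eigs, Fintype.card_subtype] at hrank
    exact hrank
  have hspec : ∀ i j, M i j = ∑ k, (Real.sqrt (hM.eigenvalues k) * hM.eigenvectorBasis k i) *
      (Real.sqrt (hM.eigenvalues k) * hM.eigenvectorBasis k j) := by
    intro i j
    have h1 := hM.spectral_theorem
    rw [Unitary.conjStarAlgAut_apply] at h1
    have h2 := congrFun (congrFun h1 i) j
    rw [Matrix.mul_apply] at h2
    rw [h2]
    refine Finset.sum_congr rfl fun k _ => ?_
    rw [Matrix.mul_diagonal]
    have h3 : Real.sqrt (hM.eigenvalues k) * Real.sqrt (hM.eigenvalues k) = hM.eigenvalues k :=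
      Real.mul_self_sqrt (hev k)
    have h4 : (star (hM.eigenvectorUnitary : Matrix (Fin 6) (Fin 6) ℝ)) k j =
        hM.eigenvectorBasis k j := by
      rw [Matrix.star_apply, Matrix.IsHermitian.eigenvectorUnitary_apply]
      simp
    rw [h4, Matrix.IsHermitian.eigenvectorUnitary_apply]
    simp only [Function.comp_apply, RCLike.ofReal_real_eq_id, id_eq]
    linear_combination (-(hM.eigenvectorBasis k i * hM.eigenvectorBasis k j)) * h3
  obtain ⟨x, y, hxy⟩ := fac_two _ hcard
    fun k i => Real.sqrt (hM.eigenvalues k) * hM.eigenvectorBasis k i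
  refine ⟨x, y, fun i j => ?_⟩
  rw [hspec, ← hxy i j, Finset.sum_filter]
  refine Finset.sum_congr rfl fun k _ => ?_
  by_cases hk : hM.eigenvalues k = 0
  · simp [hk]
  · simp [hk]

end Pool.Agent.H223.MB
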