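import Pool.Agent.H223.MB.Stm

/-!
# Two independent relations: the points are concyclic or collinear (GEO2)
-/

open scoped RealInnerProductSpace Topology
open Set Filter

namespace Pool.Agent.H223.MB

private theorem geo2_span (p : Fin 6 → V) (S : Submodule ℝ V)
    (h : ∀ β ∈ S, ∀ i, (inner ℝ β (p i) : ℝ) = inner ℝ β (p 0)) :
    Module.finrank ℝ (vectorSpan ℝ (range p)) + Module.finrank ℝ S ≤ 3 := by
  have h1 : vectorSpan ℝ (range p) ≤ Sᗮ := by
    rw [vectorSpan_range_eq_span_range_vsub_right ℝ p 0, Submodule.span_le]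
    rintro x ⟨i, rfl⟩
    simp only [vsub_eq_sub, SetLike.mem_coe]
    rw [Submodule.mem_orthogonal]
    intro β hβ
    rw [inner_sub_right, h β hβ i, sub_self]
  have h2 := Submodule.finrank_mono h1
  have h3 := Submodule.finrank_add_finrank_orthogonal S
  have h4 : Module.finrank ℝ V = 3 := by simp [V]
  omega

private theorem geo2_rel (p : Fin 6 → V) (q : ℝ × V × ℝ) (hq : q ∈ LinearMap.ker (Rel p)) (i : Fin 6) :
    q.1 + inner ℝ q.2.1 (p i) + q.2.2 * ‖p i‖ ^ 2 = 0 := by
  have h := congrFun (LinearMap.mem_ker.1 hq) i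
  simpa [Rel] using h

theorem pGEO2 : GEO2 := by
  intro p hK
  by_cases hγ : ∀ q ∈ LinearMap.ker (Rel p), q.2.2 = 0
  · right
    -- the projection to the vectors `β`
    set π : (ℝ × V × ℝ) →ₗ[ℝ] V := (LinearMap.fst ℝ V ℝ).comp (LinearMap.snd ℝ ℝ (V × ℝ)) with hπ
    set S : Submodule ℝ V := (LinearMap.ker (Rel p)).map π with hS
    have hinj : Function.Injective (π.domRestrict (LinearMap.ker (Rel p))) := by
      rw [← LinearMap.ker_eq_bot, LinearMap.ker_eq_bot']
      rintro ⟨q, hq⟩ h0
      have hβ : q.2.1 = 0 := by simpa [hπ] using h0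
      have hg := hγ q hq
      have hr := geo2_rel p q hq 0
      rw [hβ, hg] at hr
      simp at hr
      apply Subtype.ext
      show q = 0
      exact Prod.ext hr (Prod.ext hβ hg)
    have hfin : Module.finrank ℝ S = Module.finrank ℝ (LinearMap.ker (Rel p)) := by
      have h1 := LinearMap.finrank_range_of_inj hinj
      rw [LinearMap.range_domRestrict] at h1
      exact h1
    have hsp := geo2_span p S (by
      rintro β ⟨q, hq, rfl⟩ i
      have hi := geo2_rel p q hq i
      have h0 := geo2_rel p q hq 0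
      have hg := hγ q hq
      rw [hg] at hi h0
      show (inner ℝ q.2.1 (p i) : ℝ) = inner ℝ q.2.1 (p 0)
      linarith)
    rw [collinear_iff_finrank_le_one]
    omega
  · left
    push Not at hγ
    obtain ⟨q, hq, hg⟩ := hγ
    refine ⟨?_, ?_⟩
    · -- cospherical
      refine ⟨-(1 / (2 * q.2.2)) • q.2.1, ‖p 0 - (-(1 / (2 * q.2.2)) • q.2.1)‖, ?_⟩
      rintro x ⟨i, rfl⟩
      rw [dist_eq_norm]
      have hi := geo2_rel p q hq i
      have h0 := geo2_rel p q hq 0
      have key : ‖p i - (-(1 / (2 * q.2.2)) • q.2.1)‖ ^ 2 = ‖p 0 - (-(1 / (2 * q.2.2)) • q.2.1)‖ ^ 2 := by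
        rw [@norm_sub_sq ℝ, @norm_sub_sq ℝ]
        simp only [inner_smul_right, RCLike.re_to_real]
        rw [real_inner_comm q.2.1 (p i), real_inner_comm q.2.1 (p 0)]
        have e1 : (‖p i‖ ^ 2 : ℝ) = -(q.1 + inner ℝ q.2.1 (p i)) / q.2.2 := by
          field_simp
          linarith
        have e2 : (‖p 0‖ ^ 2 : ℝ) = -(q.1 + inner ℝ q.2.1 (p 0)) / q.2.2 := by
          field_simp
          linarith
        rw [e1, e2]
        field_simp
        ring
      exact (sq_eq_sq₀ (norm_nonneg _) (norm_nonneg _)).1 key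
    · -- coplanar
      have hex : ∃ q' ∈ LinearMap.ker (Rel p), q' ≠ 0 ∧ q'.2.2 = 0 := by
        by_contra hcon
        push Not at hcon
        set π : (ℝ × V × ℝ) →ₗ[ℝ] ℝ := (LinearMap.snd ℝ V ℝ).comp (LinearMap.snd ℝ ℝ (V × ℝ)) with hπ
        have hinj : Function.Injective (π.domRestrict (LinearMap.ker (Rel p))) := by
          rw [← LinearMap.ker_eq_bot, LinearMap.ker_eq_bot']
          rintro ⟨r, hr⟩ h0
          have hβ : r.2.2 = 0 := by simpa [hπ] using h0
          by_contra hne
          exact hcon r hr (fun h => hne (Subtype.ext h)) hβ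
        have h1 := LinearMap.finrank_le_finrank_of_injective hinj
        rw [Module.finrank_self] at h1
        omega
      obtain ⟨r, hr, hr0, hr2⟩ := hex
      have hβ : r.2.1 ≠ 0 := by
        intro hβ
        have h0 := geo2_rel p r hr 0
        rw [hβ, hr2] at h0
        simp at h0
        exact hr0 (Prod.ext h0 (Prod.ext hβ hr2))
      have hsp := geo2_span p (Submodule.span ℝ {r.2.1}) (by
        intro β hmem i
        obtain ⟨c, rfl⟩ := Submodule.mem_span_singleton.1 hmem
        have hi := geo2_rel p r hr i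
        have h0 := geo2_rel p r hr 0
        rw [hr2] at hi h0
        rw [inner_smul_left, inner_smul_left]
        have : (inner ℝ r.2.1 (p i) : ℝ) = inner ℝ r.2.1 (p 0) := by linarith
        rw [this])
      rw [finrank_span_singleton hβ] at hsp
      rw [coplanar_iff_finrank_le_two]
      omega

end Pool.Agent.H223.MB
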