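import Pool.Agent.H223.MB.Stm2

open scoped RealInnerProductSpace Topology
open Set Filter

namespace Pool.Agent.H223.MB

private theorem ord1c_span {W : Submodule ℝ V} (hW : Module.finrank ℝ W ≤ 2) {e₁ e₂ w : V}
    (h1 : e₁ ∈ W) (h2 : e₂ ∈ W) (hw : w ∈ W) (n1 : ‖e₁‖ = 1) (n2 : ‖e₂‖ = 1)
    (h12 : ⟪e₁, e₂⟫ = 0) : w = ⟪e₁, w⟫ • e₁ + ⟪e₂, w⟫ • e₂ := by
  by_contra hne
  obtain ⟨z, hz⟩ : ∃ z, z = w - (⟪e₁, w⟫ • e₁ + ⟪e₂, w⟫ • e₂) := ⟨_, rfl⟩
  have hz0 : z ≠ 0 := by rw [hz]; exact sub_ne_zero.2 hne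
  have hzW : z ∈ W := by
    rw [hz]
    exact W.sub_mem hw (W.add_mem (W.smul_mem _ h1) (W.smul_mem _ h2))
  have i11 : ⟪e₁, e₁⟫ = 1 := by rw [real_inner_self_eq_norm_sq, n1]; norm_num
  have i22 : ⟪e₂, e₂⟫ = 1 := by rw [real_inner_self_eq_norm_sq, n2]; norm_num
  have h21 : ⟪e₂, e₁⟫ = 0 := by rw [real_inner_comm]; exact h12
  have z1 : ⟪e₁, z⟫ = 0 := by
    rw [hz, inner_sub_right, inner_add_right, inner_smul_right, inner_smul_right, i11, h12]; ring
  have z2 : ⟪e₂, z⟫ = 0 := by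
    rw [hz, inner_sub_right, inner_add_right, inner_smul_right, inner_smul_right, i22, h21]; ring
  have z1' : ⟪z, e₁⟫ = 0 := by rw [real_inner_comm]; exact z1
  have z2' : ⟪z, e₂⟫ = 0 := by rw [real_inner_comm]; exact z2
  have e1ne : e₁ ≠ 0 := by
    rintro rfl
    simp at n1
  have e2ne : e₂ ≠ 0 := by
    rintro rfl
    simp at n2
  have hli : LinearIndependent ℝ (![⟨e₁, h1⟩, ⟨e₂, h2⟩, ⟨z, hzW⟩] : Fin 3 → W) := by
    refine linearIndependent_of_ne_zero_of_inner_eq_zero (𝕜 := ℝ) ?_ ?_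
    · intro i
      fin_cases i
      · exact fun e => e1ne (congrArg Subtype.val e)
      · exact fun e => e2ne (congrArg Subtype.val e)
      · exact fun e => hz0 (congrArg Subtype.val e)
    · intro i j hij
      fin_cases i <;> fin_cases j
      · exact absurd rfl hij
      · exact h12
      · exact z1
      · exact h21
      · exact absurd rfl hij
      · exact z2
      · exact z1'
      · exact z2'
      · exact absurd rfl hij
  have h3 := hli.fintype_card_le_finrank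
  simp only [Fintype.card_fin] at h3
  omega

theorem pORD1 : ORD1 := by
  intro p hp hcc
  obtain ⟨⟨o, r, ho⟩, hco⟩ := hcc
  obtain ⟨W, hWd⟩ : ∃ W : Submodule ℝ V, W = vectorSpan ℝ (range p) := ⟨_, rfl⟩
  have hW : Module.finrank ℝ W ≤ 2 := by
    rw [hWd]
    exact coplanar_iff_finrank_le_two.1 hco
  have hd : ∀ i j, p i - p j ∈ W := fun i j => by
    rw [hWd]
    exact vsub_mem_vectorSpan ℝ (mem_range_self i) (mem_range_self j)
  obtain ⟨c, hc1, hc2⟩ : ∃ c : V, (∀ i, p i - c ∈ W) ∧ ∀ w ∈ W, ⟪w, o - c⟫ = 0 := by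
    refine ⟨p 0 + W.starProjection (o - p 0), fun i => ?_, fun w hw => ?_⟩
    · have h1 : p i - (p 0 + W.starProjection (o - p 0)) =
          (p i - p 0) - W.starProjection (o - p 0) := by abel
      rw [h1]
      exact W.sub_mem (hd i 0) (Submodule.starProjection_apply_mem _ _)
    · have h1 : o - (p 0 + W.starProjection (o - p 0)) =
          (o - p 0) - W.starProjection (o - p 0) := by abel
      rw [h1]
      exact (Submodule.sub_starProjection_mem_orthogonal (o - p 0)) w hw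
  have hn : ∀ i, ‖p i - c‖ ^ 2 = r ^ 2 - ‖o - c‖ ^ 2 := by
    intro i
    have h1 : dist (p i) o = r := ho _ (mem_range_self i)
    rw [dist_eq_norm] at h1
    have h2 : p i - o = (p i - c) - (o - c) := by abel
    have h3 := norm_sub_sq_real (p i - c) (o - c)
    rw [hc2 _ (hc1 i)] at h3
    rw [← h1, h2, h3]
    ring
  have hn' : ∀ i, ‖p i - c‖ = ‖p 0 - c‖ := fun i => by
    have h1 := (hn i).trans (hn 0).symm
    exact (sq_eq_sq₀ (norm_nonneg _) (norm_nonneg _)).1 h1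
  obtain ⟨R, hR⟩ : ∃ R, R = ‖p 0 - c‖ := ⟨_, rfl⟩
  have hR0 : 0 < R := by
    rw [hR]
    refine lt_of_le_of_ne (norm_nonneg _) fun e => ?_
    have h0 : p 0 = c := by
      rw [← sub_eq_zero, ← norm_eq_zero]
      exact e.symm
    have h1 : p 1 = c := by
      rw [← sub_eq_zero, ← norm_eq_zero, hn' 1]
      exact e.symm
    have := hp (h0.trans h1.symm)
    exact absurd this (by decide)
  obtain ⟨e₁, he⟩ : ∃ e : V, e = R⁻¹ • (p 0 - c) := ⟨_, rfl⟩
  have n1 : ‖e₁‖ = 1 := by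
    rw [he, norm_smul, norm_inv, Real.norm_eq_abs, abs_of_pos hR0, ← hR, inv_mul_cancel₀ hR0.ne']
  have he1W : e₁ ∈ W := by
    rw [he]
    exact W.smul_mem _ (hc1 0)
  have i11 : ⟪e₁, e₁⟫ = 1 := by rw [real_inner_self_eq_norm_sq, n1]; norm_num
  have hp0 : p 0 - c = R • e₁ := by
    rw [he, smul_smul, mul_inv_cancel₀ hR0.ne', one_smul]
  obtain ⟨e₂, n2, he2W, h12⟩ : ∃ e : V, ‖e‖ = 1 ∧ e ∈ W ∧ ⟪e₁, e⟫ = 0 := by
    by_cases hex : ∃ i, (p i - c) - ⟪e₁, p i - c⟫ • e₁ ≠ 0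
    · obtain ⟨i, hi⟩ := hex
      obtain ⟨z, hz⟩ : ∃ z, z = (p i - c) - ⟪e₁, p i - c⟫ • e₁ := ⟨_, rfl⟩
      rw [← hz] at hi
      have hzn : 0 < ‖z‖ := norm_pos_iff.2 hi
      have hzW : z ∈ W := by
        rw [hz]
        exact W.sub_mem (hc1 i) (W.smul_mem _ he1W)
      refine ⟨‖z‖⁻¹ • z, ?_, W.smul_mem _ hzW, ?_⟩
      · rw [norm_smul, norm_inv, norm_norm, inv_mul_cancel₀ hzn.ne']
      · have h6 : ∀ t : ℝ, ⟪e₁, (p i - c) - t • e₁⟫ = ⟪e₁, p i - c⟫ - t := fun t => by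
          generalize p i - c = q
          rw [inner_sub_right, inner_smul_right, i11, mul_one]
        rw [inner_smul_right, hz, h6, sub_self, mul_zero]
    · exfalso
      have hall : ∀ i, p i - c = ⟪e₁, p i - c⟫ • e₁ := fun i => by
        by_contra hne
        exact hex ⟨i, sub_ne_zero.2 hne⟩
      have ht : ∀ i, ⟪e₁, p i - c⟫ = R ∨ ⟪e₁, p i - c⟫ = -R := fun i => by
        have h1 : ‖p i - c‖ = |⟪e₁, p i - c⟫| := by
          conv_lhs => rw [hall i, norm_smul, n1, mul_one, Real.norm_eq_abs]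
        rw [hn' i, ← hR] at h1
        exact eq_or_eq_neg_of_abs_eq h1.symm
      have heq : ∀ i j, ⟪e₁, p i - c⟫ = ⟪e₁, p j - c⟫ → i = j := fun i j h => by
        apply hp
        have h1 : p i - c = p j - c := by rw [hall i, hall j, h]
        exact sub_left_injective h1
      rcases ht 0 with h0 | h0 <;> rcases ht 1 with h1 | h1 <;> rcases ht 2 with h2 | h2
      · exact absurd (heq 0 1 (h0.trans h1.symm)) (by decide)
      · exact absurd (heq 0 1 (h0.trans h1.symm)) (by decide)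
      · exact absurd (heq 0 2 (h0.trans h2.symm)) (by decide)
      · exact absurd (heq 1 2 (h1.trans h2.symm)) (by decide)
      · exact absurd (heq 1 2 (h1.trans h2.symm)) (by decide)
      · exact absurd (heq 0 2 (h0.trans h2.symm)) (by decide)
      · exact absurd (heq 0 1 (h0.trans h1.symm)) (by decide)
      · exact absurd (heq 0 1 (h0.trans h1.symm)) (by decide)
  have i22 : ⟪e₂, e₂⟫ = 1 := by rw [real_inner_self_eq_norm_sq, n2]; norm_num
  have h21 : ⟪e₂, e₁⟫ = 0 := by rw [real_inner_comm]; exact h12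
  obtain ⟨z, hz⟩ : ∃ z : Fin 6 → ℂ, ∀ i, z i = ⟨⟪e₁, p i - c⟫, ⟪e₂, p i - c⟫⟩ :=
    ⟨_, fun _ => rfl⟩
  have hdec : ∀ i, p i - c = ⟪e₁, p i - c⟫ • e₁ + ⟪e₂, p i - c⟫ • e₂ := fun i =>
    ord1c_span hW he1W he2W (hc1 i) n1 n2 h12
  have hzn : ∀ i, ‖z i‖ = R := by
    intro i
    have h1 : ‖z i‖ ^ 2 = R ^ 2 := by
      rw [← Complex.normSq_eq_norm_sq, Complex.normSq_apply, hz i, hR, ← hn' i,
        ← real_inner_self_eq_norm_sq]
      conv_rhs => rw [hdec i]
      simp only [inner_add_left, inner_add_right, inner_smul_left, inner_smul_right, i11, i22, h12,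
        h21, conj_trivial]
      ring
    exact (sq_eq_sq₀ (norm_nonneg _) hR0.le).1 h1
  obtain ⟨φ, hφ⟩ : ∃ φ : Fin 6 → ℝ, ∀ i, φ i =
      if 0 ≤ Complex.arg (z i) then Complex.arg (z i) else Complex.arg (z i) + 2 * Real.pi :=
    ⟨_, fun _ => rfl⟩
  have hcos : ∀ i, R * Real.cos (φ i) = ⟪e₁, p i - c⟫ := fun i => by
    have h1 := Complex.norm_mul_cos_arg (z i)
    rw [hzn i] at h1
    rw [hφ i]
    split_ifs
    · rw [h1, hz i]
    · rw [Real.cos_add_two_pi, h1, hz i]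
  have hsin : ∀ i, R * Real.sin (φ i) = ⟪e₂, p i - c⟫ := fun i => by
    have h1 := Complex.norm_mul_sin_arg (z i)
    rw [hzn i] at h1
    rw [hφ i]
    split_ifs
    · rw [h1, hz i]
    · rw [Real.sin_add_two_pi, h1, hz i]
  have hcirc : ∀ i, p i = circ c R e₁ e₂ φ i := fun i => by
    unfold circ
    rw [hcos, hsin, add_assoc, ← hdec i]
    abel
  refine ⟨c, R, e₁, e₂, φ, hR0, ⟨n1, n2, h12⟩, ?_, fun i => ?_, fun i j hij => ?_, funext hcirc⟩
  · have h1 : z 0 = (R : ℂ) := by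
      rw [hz 0, hp0, inner_smul_right, inner_smul_right, i11, h21]
      apply Complex.ext <;> simp
    rw [hφ 0, h1, Complex.arg_ofReal_of_nonneg hR0.le]
    simp
  · have h1 := Complex.neg_pi_lt_arg (z i)
    have h2 := Complex.arg_le_pi (z i)
    have h3 := Real.pi_pos
    rw [hφ i]
    split_ifs with h
    · exact ⟨h, by linarith⟩
    · push Not at h
      exact ⟨by linarith, by linarith⟩
  · apply hp
    rw [hcirc i, hcirc j]
    unfold circ
    rw [hij]

end Pool.Agent.H223.MB
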