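import Pool.Agent.H223.MB.Stm2

open scoped RealInnerProductSpace Topology
open Set Filter

namespace Pool.Agent.H223.MB

theorem ord1h_angle (x y : ℝ) (h : x ^ 2 + y ^ 2 = 1) :
    ∃ φ : ℝ, 0 ≤ φ ∧ φ < 2 * Real.pi ∧ Real.cos φ = x ∧ Real.sin φ = y := by
  have hpi := Real.pi_pos
  have hz : ‖(⟨x, y⟩ : ℂ)‖ = 1 := by
    rw [Complex.norm_def, Complex.normSq_mk, ← sq, ← sq, h, Real.sqrt_one]
  have hz0 : (⟨x, y⟩ : ℂ) ≠ 0 := by
    intro h0
    rw [h0, norm_zero] at hz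
    exact zero_ne_one hz
  have hc := Complex.cos_arg hz0
  have hs := Complex.sin_arg (⟨x, y⟩ : ℂ)
  rw [hz, div_one] at hc hs
  have h1 := Complex.arg_le_pi (⟨x, y⟩ : ℂ)
  have h2 := Complex.neg_pi_lt_arg (⟨x, y⟩ : ℂ)
  by_cases h3 : 0 ≤ Complex.arg (⟨x, y⟩ : ℂ)
  · exact ⟨_, h3, by linarith, hc, hs⟩
  · push Not at h3
    refine ⟨Complex.arg (⟨x, y⟩ : ℂ) + 2 * Real.pi, by linarith, by linarith, ?_, ?_⟩
    · rw [Real.cos_add_two_pi]
      exact hc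
    · rw [Real.sin_add_two_pi]
      exact hs

theorem ord1h_norm (e₁ e₂ : V) (h1 : ‖e₁‖ = 1) (h2 : ‖e₂‖ = 1) (h12 : ⟪e₁, e₂⟫ = 0) (x y : ℝ) :
    ‖x • e₁ + y • e₂‖ ^ 2 = x ^ 2 + y ^ 2 := by
  rw [norm_add_sq_real, norm_smul, norm_smul, inner_smul_left, inner_smul_right, h12, h1, h2,
    mul_one, mul_one, Real.norm_eq_abs, Real.norm_eq_abs, sq_abs, sq_abs]
  simp

theorem pORD1 : ORD1 := by
  intro p hp hc
  obtain ⟨⟨o, r, ho⟩, hcop⟩ := hc
  obtain ⟨W, hWd⟩ : ∃ W : Submodule ℝ V, W = vectorSpan ℝ (range p) := ⟨_, rfl⟩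
  have hW : Module.finrank ℝ W ≤ 2 := by
    rw [hWd]
    exact coplanar_iff_finrank_le_two.1 hcop
  have hmem : ∀ i j, p i - p j ∈ W := fun i j => by
    rw [hWd]
    exact vsub_mem_vectorSpan ℝ (mem_range_self i) (mem_range_self j)
  obtain ⟨q, hq, z, hz, hqz⟩ := W.exists_add_mem_mem_orthogonal (o - p 0)
  obtain ⟨c, hcd⟩ : ∃ c : V, c = p 0 + q := ⟨_, rfl⟩
  have hpc : ∀ i, p i - c ∈ W := by
    intro i
    have e : p i - c = (p i - p 0) - q := by rw [hcd]; abel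
    rw [e]
    exact W.sub_mem (hmem i 0) hq
  have hn : ∀ i, ‖p i - c‖ ^ 2 = r ^ 2 - ‖z‖ ^ 2 := by
    intro i
    have h1 : p i - o = (p i - c) - z := by
      have h2 : o = p 0 + (q + z) := by rw [← hqz]; abel
      rw [h2, hcd]
      abel
    have h3 : ‖p i - o‖ = r := by
      rw [← dist_eq_norm]
      exact ho (p i) (mem_range_self i)
    have h4 : ⟪p i - c, z⟫ = 0 := (Submodule.mem_orthogonal W z).1 hz _ (hpc i)
    have h5 : ‖p i - o‖ ^ 2 = ‖p i - c‖ ^ 2 + ‖z‖ ^ 2 := by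
      rw [h1, norm_sub_sq_real, h4]
      ring
    rw [h3] at h5
    linarith
  obtain ⟨R, hRd⟩ : ∃ R : ℝ, R = ‖p 0 - c‖ := ⟨_, rfl⟩
  have hnR : ∀ i, ‖p i - c‖ = R := by
    intro i
    have h1 : ‖p i - c‖ ^ 2 = R ^ 2 := by rw [hRd, hn, hn]
    exact (sq_eq_sq₀ (norm_nonneg _) (by rw [hRd]; exact norm_nonneg _)).1 h1
  have hR : 0 < R := by
    rw [hRd]
    refine norm_pos_iff.2 fun h0 => ?_
    have h1 : ‖p 1 - c‖ = 0 := by rw [hnR, hRd, h0, norm_zero]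
    have h2 := norm_eq_zero.1 h1
    have h3 : p 0 = p 1 := by rw [sub_eq_zero.1 h0, sub_eq_zero.1 h2]
    exact absurd (hp h3) (by decide)
  obtain ⟨e₁, he1d⟩ : ∃ e₁ : V, e₁ = R⁻¹ • (p 0 - c) := ⟨_, rfl⟩
  have he1 : ‖e₁‖ = 1 := by
    rw [he1d, norm_smul, hnR, Real.norm_of_nonneg (inv_nonneg.2 hR.le), inv_mul_cancel₀ hR.ne']
  have he10 : e₁ ≠ 0 := by
    intro h0
    rw [h0, norm_zero] at he1
    exact zero_ne_one he1
  have hp0 : p 0 - c = R • e₁ := by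
    rw [he1d, smul_smul, mul_inv_cancel₀ hR.ne', one_smul]
  have he1W : e₁ ∈ W := by
    rw [he1d]
    exact W.smul_mem _ (hpc 0)
  have hKW : Submodule.span ℝ {e₁} ≤ W := by
    rw [Submodule.span_singleton_le_iff_mem]
    exact he1W
  have hdim : Module.finrank ℝ ((Submodule.span ℝ {e₁})ᗮ ⊓ W : Submodule ℝ V) ≤ 1 := by
    have h1 := Submodule.finrank_add_inf_finrank_orthogonal hKW
    have h2 : Module.finrank ℝ (Submodule.span ℝ {e₁}) = 1 := finrank_span_singleton he10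
    omega
  obtain ⟨⟨v₀, hv₀⟩, hgen⟩ := finrank_le_one_iff.1 hdim
  have hv1 : ⟪e₁, v₀⟫ = 0 := (Submodule.mem_orthogonal_singleton_iff_inner_right).1 hv₀.1
  have hdec : ∀ i, ∃ x t : ℝ, p i - c = x • e₁ + t • v₀ := by
    intro i
    have h1 : (p i - c) - ⟪e₁, p i - c⟫ • e₁ ∈ ((Submodule.span ℝ {e₁})ᗮ ⊓ W : Submodule ℝ V) := by
      refine ⟨?_, W.sub_mem (hpc i) (W.smul_mem _ he1W)⟩
      refine (Submodule.mem_orthogonal_singleton_iff_inner_right).2 ?_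
      rw [inner_sub_right, inner_smul_right, real_inner_self_eq_norm_sq, he1]
      ring
    obtain ⟨t, ht⟩ := hgen ⟨_, h1⟩
    have h2 : t • v₀ = (p i - c) - ⟪e₁, p i - c⟫ • e₁ := congrArg Subtype.val ht
    refine ⟨⟪e₁, p i - c⟫, t, ?_⟩
    rw [h2]
    abel
  have hv0 : v₀ ≠ 0 := by
    intro h0
    have key : ∀ i, i ≠ 0 → p i - c = (-R) • e₁ := by
      intro i hi
      obtain ⟨x, t, h⟩ := hdec i
      rw [h0, smul_zero, add_zero] at h
      have h1 : |x| = R := by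
        have h2 := hnR i
        rwa [h, norm_smul, he1, mul_one, Real.norm_eq_abs] at h2
      rcases abs_cases x with ⟨h2, -⟩ | ⟨h2, -⟩
      · exfalso
        apply hi
        apply hp
        have h3 : p i - c = p 0 - c := by rw [h, hp0, ← h1, h2]
        exact sub_left_injective h3
      · have h3 : x = -R := by linarith
        rw [h, h3]
    have h1 : p 1 - c = p 2 - c := by rw [key 1 (by decide), key 2 (by decide)]
    exact absurd (hp (sub_left_injective h1)) (by decide)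
  have hv0n : 0 < ‖v₀‖ := norm_pos_iff.2 hv0
  obtain ⟨e₂, he2d⟩ : ∃ e₂ : V, e₂ = ‖v₀‖⁻¹ • v₀ := ⟨_, rfl⟩
  have he2 : ‖e₂‖ = 1 := by
    rw [he2d, norm_smul, Real.norm_of_nonneg (inv_nonneg.2 hv0n.le), inv_mul_cancel₀ hv0n.ne']
  have he12 : ⟪e₁, e₂⟫ = 0 := by
    rw [he2d, inner_smul_right, hv1, mul_zero]
  have hex : ∀ i, ∃ φ : ℝ, 0 ≤ φ ∧ φ < 2 * Real.pi ∧ (i = 0 → φ = 0) ∧
      p i = c + (R * Real.cos φ) • e₁ + (R * Real.sin φ) • e₂ := by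
    intro i
    by_cases hi : i = 0
    · refine ⟨0, le_rfl, by positivity, fun _ => rfl, ?_⟩
      rw [Real.cos_zero, Real.sin_zero, mul_one, mul_zero, zero_smul, add_zero, ← hp0, hi]
      abel
    · obtain ⟨x, t, h⟩ := hdec i
      have h1 : p i - c = x • e₁ + (t * ‖v₀‖) • e₂ := by
        rw [h, he2d, smul_smul, mul_assoc, mul_inv_cancel₀ hv0n.ne', mul_one]
      have h2 := ord1h_norm e₁ e₂ he1 he2 he12 x (t * ‖v₀‖)
      rw [← h1, hnR] at h2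
      obtain ⟨φ, f1, f2, f3, f4⟩ := ord1h_angle (x / R) (t * ‖v₀‖ / R) (by
        rw [div_pow, div_pow, ← add_div, ← h2, div_self (pow_pos hR 2).ne'])
      refine ⟨φ, f1, f2, fun h0 => absurd h0 hi, ?_⟩
      rw [f3, f4, mul_div_cancel₀ _ hR.ne', mul_div_cancel₀ _ hR.ne', add_assoc, ← h1]
      abel
  choose φ k1 k2 k3 k4 using hex
  refine ⟨c, R, e₁, e₂, φ, hR, ⟨he1, he2, he12⟩, k3 0 rfl, fun i => ⟨k1 i, k2 i⟩, ?_, ?_⟩
  · intro i j hij
    apply hp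
    rw [k4 i, k4 j, hij]
  · funext i
    exact k4 i

end Pool.Agent.H223.MB
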