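import Pool.Agent.H223.MB.Stm2

/-!
# MB, ORD2: the vertices of an embedded concyclic hexagon are in cyclic order
-/

open scoped RealInnerProductSpace Topology
open Set Filter

namespace Pool.Agent.H223.MB

theorem ord2_disj {p : Fin 6 → V} (hE : Embedded p) {a b : Fin 6} (h : Far a b) {q : V}
    (h1 : q ∈ segment ℝ (p a) (p (a + 1))) (h2 : q ∈ segment ℝ (p b) (p (b + 1))) : False := by
  have hab : a ≠ b := fun e => h.1 e.symm
  have h3 := hE.2 a b hab ⟨h1, h2⟩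
  obtain ⟨h4, h5⟩ := h3
  have hne : a + 1 ≠ b + 1 := fun e => hab (add_right_cancel e)
  rcases h4 with h4 | h4 <;> rcases h5 with h5 | h5
  · exact hab (hE.1 (h4.symm.trans h5))
  · exact h.2.2 (hE.1 (h4.symm.trans h5))
  · exact h.2.1 (hE.1 (h5.symm.trans h4))
  · exact hne (hE.1 (h4.symm.trans h5))

theorem ord2_ni (cross : CROSS) (c : V) (R : ℝ) (e₁ e₂ : V) (φ : Fin 6 → ℝ)
    (hb : ∀ i, 0 ≤ φ i ∧ φ i < 2 * Real.pi) (hE : Embedded (circ c R e₁ e₂ φ)) (a b : Fin 6)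
    (h : Far a b) :
    (φ a < φ b → φ b < φ (a + 1) → φ (a + 1) < φ (b + 1) → False) ∧
    (φ a < φ (b + 1) → φ (b + 1) < φ (a + 1) → φ (a + 1) < φ b → False) ∧
    (φ (b + 1) < φ a → φ a < φ b → φ b < φ (a + 1) → False) ∧
    (φ (b + 1) < φ (a + 1) → φ (a + 1) < φ b → φ b < φ a → False) := by
  have hw : ∀ x w : Fin 6, φ w < φ x + 2 * Real.pi := fun x w => by
    have h1 := (hb x).1
    have h2 := (hb w).2
    linarith
  refine ⟨fun h1 h2 h3 => ?_, fun h1 h2 h3 => ?_, fun h1 h2 h3 => ?_, fun h1 h2 h3 => ?_⟩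
  · obtain ⟨q, hq1, hq2⟩ := cross c R e₁ e₂ φ a b (a + 1) (b + 1) h1 h2 h3 (hw _ _)
    exact ord2_disj hE h hq1 hq2
  · obtain ⟨q, hq1, hq2⟩ := cross c R e₁ e₂ φ a (b + 1) (a + 1) b h1 h2 h3 (hw _ _)
    rw [segment_symm] at hq2
    exact ord2_disj hE h hq1 hq2
  · obtain ⟨q, hq1, hq2⟩ := cross c R e₁ e₂ φ (b + 1) a b (a + 1) h1 h2 h3 (hw _ _)
    rw [segment_symm] at hq1
    exact ord2_disj hE h hq2 hq1
  · obtain ⟨q, hq1, hq2⟩ := cross c R e₁ e₂ φ (b + 1) (a + 1) b a h1 h2 h3 (hw _ _)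
    rw [segment_symm] at hq1 hq2
    exact ord2_disj hE h hq2 hq1

theorem pORD2 (cross : CROSS) : ORD2 := by
  intro c R e₁ e₂ φ _ _ h0 hb hi hE
  have ni := ord2_ni cross c R e₁ e₂ φ hb hE
  have n02 := ni 0 2 (by decide)
  have n03 := ni 0 3 (by decide)
  have n04 := ni 0 4 (by decide)
  have n13 := ni 1 3 (by decide)
  have n14 := ni 1 4 (by decide)
  have n15 := ni 1 5 (by decide)
  have n24 := ni 2 4 (by decide)
  have n25 := ni 2 5 (by decide)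
  have n35 := ni 3 5 (by decide)
  have e1 : (0 : Fin 6) + 1 = 1 := rfl
  have e2 : (1 : Fin 6) + 1 = 2 := rfl
  have e3 : (2 : Fin 6) + 1 = 3 := rfl
  have e4 : (3 : Fin 6) + 1 = 4 := rfl
  have e5 : (4 : Fin 6) + 1 = 5 := rfl
  have e6 : (5 : Fin 6) + 1 = 0 := rfl
  rw [e1, e3] at n02
  rw [e1, e4] at n03
  rw [e1, e5] at n04
  rw [e2, e4] at n13
  rw [e2, e5] at n14
  rw [e2, e6] at n15
  rw [e3, e5] at n24
  rw [e3, e6] at n25
  rw [e4, e6] at n35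
  have pos : ∀ i : Fin 6, i ≠ 0 → φ 0 < φ i := fun i hi0 =>
    lt_of_le_of_ne (by rw [h0]; exact (hb i).1) (fun e => hi0 (hi e.symm))
  have p1 := pos 1 (by decide)
  have p2 := pos 2 (by decide)
  have p3 := pos 3 (by decide)
  have p4 := pos 4 (by decide)
  have p5 := pos 5 (by decide)
  have lt : ∀ i j : Fin 6, i ≠ j → (φ j < φ i → False) → φ i < φ j := fun i j hij h =>
    lt_of_le_of_ne (not_lt.1 h) (fun e => hij (hi e))
  rcases lt_or_gt_of_ne (fun e => (by decide : (1 : Fin 6) ≠ 2) (hi e) : φ 1 ≠ φ 2) with h | h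
  · left
    have a3 : φ 1 < φ 3 := lt 1 3 (by decide) fun k => n02.2.1 p3 k h
    have a4 : φ 1 < φ 4 := lt 1 4 (by decide) fun k => n03.2.1 p4 k a3
    have a5 : φ 1 < φ 5 := lt 1 5 (by decide) fun k => n04.2.1 p5 k a4
    have b5 : φ 2 < φ 5 := lt 2 5 (by decide) fun k => n15.2.2.1 p1 a5 k
    have b4 : φ 2 < φ 4 := lt 2 4 (by decide) fun k => n14.1 a4 k b5
    have b3 : φ 2 < φ 3 := lt 2 3 (by decide) fun k => n13.1 a3 k b4
    have c5 : φ 3 < φ 5 := lt 3 5 (by decide) fun k => n25.2.2.1 p2 b5 k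
    have c4 : φ 3 < φ 4 := lt 3 4 (by decide) fun k => n24.1 b4 k c5
    have d5 : φ 4 < φ 5 := lt 4 5 (by decide) fun k => n35.2.2.1 p3 c5 k
    exact ⟨h, b3, c4, d5⟩
  · right
    have a3 : φ 3 < φ 1 := lt 3 1 (by decide) fun k => n02.1 p2 h k
    have a4 : φ 4 < φ 1 := lt 4 1 (by decide) fun k => n03.1 p3 a3 k
    have a5 : φ 5 < φ 1 := lt 5 1 (by decide) fun k => n04.1 p4 a4 k
    have b5 : φ 5 < φ 2 := lt 5 2 (by decide) fun k => n15.2.2.2 p2 k a5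
    have b4 : φ 4 < φ 2 := lt 4 2 (by decide) fun k => n14.2.2.2 b5 k a4
    have b3 : φ 3 < φ 2 := lt 3 2 (by decide) fun k => n13.2.2.2 b4 k a3
    have c5 : φ 5 < φ 3 := lt 5 3 (by decide) fun k => n25.2.2.2 p3 k b5
    have c4 : φ 4 < φ 3 := lt 4 3 (by decide) fun k => n24.2.2.2 c5 k b4
    have d5 : φ 5 < φ 4 := lt 5 4 (by decide) fun k => n35.2.2.2 p4 k c5
    exact ⟨d5, c4, b3, h⟩

end Pool.Agent.H223.MB
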