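import Pool.Agent.H223.MB.Stm2

/-! ORD2 (written by helper799): the vertices of an embedded concyclic hexagon are in cyclic order. -/

open scoped RealInnerProductSpace Topology
open Set Filter

namespace Pool.Agent.H223.MB

private theorem ord2_edge (p : Fin 6 → V) (i k : Fin 6) (h : k = i + 1 ∨ i = k + 1) :
    ∃ e : Fin 6, (e = i ∨ e = k) ∧ edge p e = segment ℝ (p i) (p k) ∧
      ({p e, p (e + 1)} : Set V) = {p i, p k} := by
  rcases h with rfl | rfl
  · exact ⟨i, Or.inl rfl, rfl, rfl⟩
  · refine ⟨k, Or.inr rfl, ?_, ?_⟩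
    · unfold edge
      exact segment_symm ℝ _ _
    · exact Set.pair_comm _ _

private theorem ord2_nc (cross : CROSS) (c : V) (R : ℝ) (e₁ e₂ : V) (φ : Fin 6 → ℝ)
    (hφ : ∀ i, 0 ≤ φ i ∧ φ i < 2 * Real.pi) (hemb : Embedded (circ c R e₁ e₂ φ))
    (i j k l : Fin 6) (hik : k = i + 1 ∨ i = k + 1) (hjl : l = j + 1 ∨ j = l + 1)
    (h1 : i ≠ j) (h2 : i ≠ l) (h3 : k ≠ j) (h4 : k ≠ l) (ha : φ i < φ j) (hb : φ j < φ k)
    (hc : φ k < φ l) : False := by
  have hlt : φ l < φ i + 2 * Real.pi := by
    have := (hφ l).2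
    have := (hφ i).1
    linarith
  obtain ⟨x, hx1, hx2⟩ := cross c R e₁ e₂ φ i j k l ha hb hc hlt
  obtain ⟨e, he, he1, he2⟩ := ord2_edge (circ c R e₁ e₂ φ) i k hik
  obtain ⟨e', he', he1', he2'⟩ := ord2_edge (circ c R e₁ e₂ φ) j l hjl
  have hne : e ≠ e' := by
    rcases he with rfl | rfl <;> rcases he' with rfl | rfl <;> assumption
  have hmem := hemb.2 e e' hne ⟨he1 ▸ hx1, he1' ▸ hx2⟩
  rw [he2, he2'] at hmem
  obtain ⟨hm1, hm2⟩ := hmem
  simp only [Set.mem_insert_iff, Set.mem_singleton_iff] at hm1 hm2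
  rcases hm1 with hm1 | hm1 <;> rcases hm2 with hm2 | hm2
  · exact h1 (hemb.1 (hm1.symm.trans hm2))
  · exact h2 (hemb.1 (hm1.symm.trans hm2))
  · exact h3 (hemb.1 (hm1.symm.trans hm2))
  · exact h4 (hemb.1 (hm1.symm.trans hm2))

private theorem ord2_in (cross : CROSS) (c : V) (R : ℝ) (e₁ e₂ : V) (φ : Fin 6 → ℝ)
    (hφ : ∀ i, 0 ≤ φ i ∧ φ i < 2 * Real.pi) (hinj : Function.Injective φ)
    (hemb : Embedded (circ c R e₁ e₂ φ))
    (i j k l : Fin 6) (hik : k = i + 1 ∨ i = k + 1) (hjl : l = j + 1 ∨ j = l + 1)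
    (h1 : i ≠ j) (h2 : i ≠ l) (h3 : k ≠ j) (h4 : k ≠ l) (ha : φ i < φ j) (hb : φ j < φ k) :
    φ i < φ l ∧ φ l < φ k := by
  have n1 : φ i ≠ φ l := fun h => h2 (hinj h)
  have n2 : φ k ≠ φ l := fun h => h4 (hinj h)
  constructor
  · by_contra hcon
    have h5 : φ l < φ i := lt_of_le_of_ne (not_lt.mp hcon) n1.symm
    exact ord2_nc cross c R e₁ e₂ φ hφ hemb l i j k hjl.symm hik h2.symm h4.symm h1.symm h3.symm h5 ha hb
  · by_contra hcon
    have h5 : φ k < φ l := lt_of_le_of_ne (not_lt.mp hcon) n2
    exact ord2_nc cross c R e₁ e₂ φ hφ hemb i j k l hik hjl h1 h2 h3 h4 ha hb h5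

theorem pORD2 (cross : CROSS) : ORD2 := by
  intro c R e₁ e₂ φ _ _ h0 hφ hinj hemb
  have K := ord2_in cross c R e₁ e₂ φ hφ hinj hemb
  have hpos : ∀ i : Fin 6, i ≠ 0 → φ 0 < φ i := by
    intro i hi
    have h1 : φ i ≠ φ 0 := fun h => hi (hinj h)
    rw [h0] at h1 ⊢
    exact lt_of_le_of_ne (hφ i).1 h1.symm
  have hne : ∀ i j : Fin 6, i ≠ j → φ i ≠ φ j := fun i j h h' => h (hinj h')
  have p1 := hpos 1 (by decide)
  have p2 := hpos 2 (by decide)
  have p3 := hpos 3 (by decide)
  have p4 := hpos 4 (by decide)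
  have p5 := hpos 5 (by decide)
  rcases lt_or_gt_of_ne (hne 1 2 (by decide)) with h12 | h12
  · left
    -- all others are larger than `φ 1`
    have a3 : φ 1 < φ 3 := by
      rcases lt_or_gt_of_ne (hne 1 3 (by decide)) with h | h
      · exact h
      · have := (K 0 3 1 2 (by decide) (by decide) (by decide) (by decide) (by decide) (by decide) p3 h).2
        linarith
    have a4 : φ 1 < φ 4 := by
      rcases lt_or_gt_of_ne (hne 1 4 (by decide)) with h | h
      · exact h
      · have := (K 0 4 1 3 (by decide) (by decide) (by decide) (by decide) (by decide) (by decide) p4 h).2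
        linarith
    have a5 : φ 1 < φ 5 := by
      rcases lt_or_gt_of_ne (hne 1 5 (by decide)) with h | h
      · exact h
      · have := (K 0 5 1 4 (by decide) (by decide) (by decide) (by decide) (by decide) (by decide) p5 h).2
        linarith
    have b2 : φ 2 < φ 5 :=
      (K 0 1 5 2 (by decide) (by decide) (by decide) (by decide) (by decide) (by decide) p1 a5).2
    have b3 : φ 3 < φ 5 :=
      (K 0 2 5 3 (by decide) (by decide) (by decide) (by decide) (by decide) (by decide) p2 b2).2
    have b4 : φ 4 < φ 5 :=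
      (K 0 3 5 4 (by decide) (by decide) (by decide) (by decide) (by decide) (by decide) p3 b3).2
    have c4 : φ 2 < φ 4 := by
      rcases lt_or_gt_of_ne (hne 2 4 (by decide)) with h | h
      · exact h
      · have := (K 1 4 2 5 (by decide) (by decide) (by decide) (by decide) (by decide) (by decide) a4 h).2
        linarith
    have c3 : φ 2 < φ 3 := by
      rcases lt_or_gt_of_ne (hne 2 3 (by decide)) with h | h
      · exact h
      · have := (K 1 3 2 4 (by decide) (by decide) (by decide) (by decide) (by decide) (by decide) a3 h).2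
        linarith
    have d4 : φ 3 < φ 4 := by
      rcases lt_or_gt_of_ne (hne 3 4 (by decide)) with h | h
      · exact h
      · have := (K 2 4 3 5 (by decide) (by decide) (by decide) (by decide) (by decide) (by decide) c4 h).2
        linarith
    exact ⟨h12, c3, d4, b4⟩
  · right
    have a3 : φ 3 < φ 1 :=
      (K 0 2 1 3 (by decide) (by decide) (by decide) (by decide) (by decide) (by decide) p2 h12).2
    have a4 : φ 4 < φ 1 :=
      (K 0 3 1 4 (by decide) (by decide) (by decide) (by decide) (by decide) (by decide) p3 a3).2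
    have a5 : φ 5 < φ 1 :=
      (K 0 4 1 5 (by decide) (by decide) (by decide) (by decide) (by decide) (by decide) p4 a4).2
    have b2 : φ 5 < φ 2 := by
      rcases lt_or_gt_of_ne (hne 5 2 (by decide)) with h | h
      · exact h
      · have := (K 0 2 5 1 (by decide) (by decide) (by decide) (by decide) (by decide) (by decide) p2 h).2
        linarith
    have b3 : φ 5 < φ 3 := by
      rcases lt_or_gt_of_ne (hne 5 3 (by decide)) with h | h
      · exact h
      · have := (K 0 3 5 2 (by decide) (by decide) (by decide) (by decide) (by decide) (by decide) p3 h).2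
        linarith
    have b4 : φ 5 < φ 4 := by
      rcases lt_or_gt_of_ne (hne 5 4 (by decide)) with h | h
      · exact h
      · have := (K 0 4 5 3 (by decide) (by decide) (by decide) (by decide) (by decide) (by decide) p4 h).2
        linarith
    have c4 : φ 4 < φ 2 := by
      rcases lt_or_gt_of_ne (hne 4 2 (by decide)) with h | h
      · exact h
      · have := (K 2 4 1 5 (by decide) (by decide) (by decide) (by decide) (by decide) (by decide) h a4).1
        linarith
    have c3 : φ 3 < φ 2 := by
      rcases lt_or_gt_of_ne (hne 3 2 (by decide)) with h | h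
      · exact h
      · have := (K 2 3 1 4 (by decide) (by decide) (by decide) (by decide) (by decide) (by decide) h a3).1
        linarith
    have d4 : φ 4 < φ 3 := by
      rcases lt_or_gt_of_ne (hne 4 3 (by decide)) with h | h
      · exact h
      · have := (K 3 4 2 5 (by decide) (by decide) (by decide) (by decide) (by decide) (by decide) h c4).1
        linarith
    exact ⟨b4, d4, c3, h12⟩

end Pool.Agent.H223.MB
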