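import Pool.Agent.H223.MB.Stm

set_option autoImplicit false

open scoped RealInnerProductSpace Topology
open Set Filter

namespace Pool.Agent.H223.MB

private lemma se0_tend_sqrt : Tendsto Real.sqrt (𝓝[Ici 0] (0 : ℝ)) (𝓝 0) := by
  have h : ContinuousAt Real.sqrt 0 := Real.continuous_sqrt.continuousAt
  have h1 : Tendsto Real.sqrt (𝓝 0) (𝓝 (Real.sqrt 0)) := h
  rw [Real.sqrt_zero] at h1
  exact h1.mono_left nhdsWithin_le_nhds

private lemma se0_deriv_in (D b : ℝ) (B : ℝ → ℝ) (hB : ContinuousAt B 0) (hB0 : B 0 = b) :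
    HasDerivWithinAt (fun u : ℝ => D + u * B (Real.sqrt u)) b (Ici 0) 0 := by
  rw [hasDerivWithinAt_iff_tendsto_slope]
  have h1 : Tendsto (fun u : ℝ => B (Real.sqrt u)) (𝓝[Ici 0 \ {0}] 0) (𝓝 b) := by
    have h2 : Tendsto B (𝓝 0) (𝓝 b) := by
      have h3 : Tendsto B (𝓝 0) (𝓝 (B 0)) := hB
      rw [hB0] at h3
      exact h3
    exact h2.comp (se0_tend_sqrt.mono_left (nhdsWithin_mono _ (fun x hx => hx.1)))
  refine h1.congr' ?_
  filter_upwards [self_mem_nhdsWithin] with u hu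
  have hu0 : u ≠ 0 := fun h => hu.2 h
  rw [slope_def_field]
  field_simp
  ring

private lemma se0_deriv_sqrt (D b : ℝ) (B : ℝ → ℝ) (hD : 0 < D) (hB : ContinuousAt B 0)
    (hB0 : B 0 = b) :
    HasDerivWithinAt (fun u : ℝ => Real.sqrt (D + u * B (Real.sqrt u)))
      (Real.sqrt D * (b / (2 * D))) (Ici 0) 0 := by
  have h1 := se0_deriv_in D b B hB hB0
  have h2 : (fun u : ℝ => D + u * B (Real.sqrt u)) 0 ≠ 0 := by
    simp only [zero_mul, add_zero]
    exact hD.ne'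
  have h3 := h1.sqrt h2
  have h4 : b / (2 * Real.sqrt ((fun u : ℝ => D + u * B (Real.sqrt u)) 0)) =
      Real.sqrt D * (b / (2 * D)) := by
    simp only [zero_mul, add_zero]
    have hs : 0 < Real.sqrt D := Real.sqrt_pos.2 hD
    have hsq : D = Real.sqrt D * Real.sqrt D := (Real.mul_self_sqrt hD.le).symm
    have h5 : Real.sqrt D * (b / (2 * D)) = Real.sqrt D * (b / (2 * (Real.sqrt D * Real.sqrt D))) := by
      rw [← hsq]
    rw [h5]
    field_simp
  rw [← h4]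
  exact h3

private lemma se0_nonneg_of_min (F : ℝ → ℝ) (F' : ℝ) (h : HasDerivWithinAt F F' (Ici 0) 0)
    (hmin : ∀ᶠ u in 𝓝[Ici 0] (0 : ℝ), F 0 ≤ F u) : 0 ≤ F' := by
  rw [hasDerivWithinAt_iff_tendsto_slope] at h
  have h0 : Tendsto (slope F 0) (𝓝[Ioi 0] 0) (𝓝 F') :=
    h.mono_left (nhdsWithin_mono _ (fun x (hx : (0 : ℝ) < x) => ⟨mem_Ici.2 hx.le, hx.ne'⟩))
  refine ge_of_tendsto h0 ?_
  have h1 : ∀ᶠ u in 𝓝[Ioi 0] (0 : ℝ), F 0 ≤ F u :=
    hmin.filter_mono (nhdsWithin_mono _ Ioi_subset_Ici_self)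
  filter_upwards [h1, self_mem_nhdsWithin] with u hu hu0
  rw [slope_def_field]
  have hu1 : (0 : ℝ) < u := hu0
  exact div_nonneg (by linarith) (by linarith)

theorem pSE0 (f2 : F2) (d2 : D2) (hom : HOM) : SE0 := by
  intro p hp hmin L hL b P B c hbs hP0 hPc hBc hB0 hc hPt
  have hDpos : ∀ i j, i ≠ j → 0 < ‖p j - p i‖ ^ 2 := by
    intro i j hij
    have h1 : p j - p i ≠ 0 := sub_ne_zero.2 (fun h => hij (hp h).symm)
    have h2 : 0 < ‖p j - p i‖ := norm_pos_iff.2 h1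
    positivity
  have hDsymm : ∀ i j, ‖p j - p i‖ ^ 2 = ‖p i - p j‖ ^ 2 := by
    intro i j
    rw [norm_sub_rev]
  obtain ⟨r, hr⟩ : ∃ r : ℝ → Fin 6 → Fin 6 → ℝ, r = fun u i j =>
    Real.sqrt (‖p j - p i‖ ^ 2 + u * B (Real.sqrt u) i j) := ⟨_, rfl⟩
  obtain ⟨l, hl⟩ : ∃ l : Fin 6 → Fin 6 → ℝ, l = fun i j => b i j / (2 * ‖p j - p i‖ ^ 2) := ⟨_, rfl⟩
  have hr0 : r 0 = dm p := by
    funext i j
    rw [hr]
    simp only [zero_mul, add_zero, dm]
    exact Real.sqrt_sq (norm_nonneg _)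
  have hderiv : ∀ i j, i ≠ j →
      HasDerivWithinAt (fun u => r u i j) (r 0 i j * l i j) (Ici 0) 0 := by
    intro i j hij
    have h1 := se0_deriv_sqrt (‖p j - p i‖ ^ 2) (b i j) (fun t => B t i j) (hDpos i j hij)
      (hBc i j) (hB0 i j)
    have h2 : r 0 i j * l i j = Real.sqrt (‖p j - p i‖ ^ 2) * (b i j / (2 * ‖p j - p i‖ ^ 2)) := by
      rw [hr, hl]
      simp only [zero_mul, add_zero]
    rw [h2, hr]
    exact h1
  have hne : ∀ i j, i ≠ j → r 0 i j ≠ 0 := by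
    intro i j hij
    rw [hr0]
    have h1 : p j - p i ≠ 0 := sub_ne_zero.2 (fun h => hij (hp h).symm)
    exact (norm_pos_iff.2 h1).ne'
  have hG := d2 r l 0 (Ici 0) hderiv hne
  rw [hr0] at hG
  have hlsymm : ∀ i j, l i j = l j i := by
    intro i j
    rw [hl]
    simp only
    rw [hbs i j, hDsymm i j]
  rw [hL.rep l hlsymm] at hG
  -- local minimality
  have hevent : ∀ᶠ t in 𝓝 (0 : ℝ), energy p ≤ energy (P t) := by
    have h1 : Tendsto P (𝓝 0) (𝓝 (P 0)) := hPc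
    rw [hP0] at h1
    exact h1.eventually hmin
  have hinj : ∀ᶠ t in 𝓝 (0 : ℝ), Function.Injective (P t) := by
    have h1 : ∀ i j : Fin 6, ∀ᶠ t in 𝓝 (0 : ℝ), i ≠ j → P t i ≠ P t j := by
      intro i j
      by_cases hij : i = j
      · exact Filter.Eventually.of_forall fun t h => absurd hij h
      · have hi : ContinuousAt (fun t => P t i) 0 := (continuous_apply i).continuousAt.comp hPc
        have hj : ContinuousAt (fun t => P t j) 0 := (continuous_apply j).continuousAt.comp hPc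
        have h2 : P 0 i ≠ P 0 j := by
          rw [hP0]
          exact fun h => hij (hp h)
        have h3 : ∀ᶠ t in 𝓝 (0 : ℝ), P t i - P t j ≠ 0 :=
          (hi.sub hj).eventually_ne (sub_ne_zero.2 h2)
        filter_upwards [h3] with t ht _
        exact sub_ne_zero.1 ht
    have h2 : ∀ᶠ t in 𝓝 (0 : ℝ), ∀ i j : Fin 6, i ≠ j → P t i ≠ P t j := by
      rw [eventually_all]
      intro i
      rw [eventually_all]
      intro j
      exact h1 i j
    filter_upwards [h2] with t ht i j hij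
    by_contra hne'
    exact ht i j hne' hij
  have hall : ∀ᶠ t in 𝓝 (0 : ℝ), energy p ≤ energy (P t) ∧ Function.Injective (P t) ∧
      (∀ i, 0 < c t i) ∧ (∀ i j, i ≠ j →
        ‖P t j - P t i‖ ^ 2 = c t i * c t j * (‖p j - p i‖ ^ 2 + t ^ 2 * B t i j)) := by
    filter_upwards [hevent, hinj, hc, hPt] with t h1 h2 h3 h4
    exact ⟨h1, h2, h3, h4⟩
  have hle : ∀ᶠ u in 𝓝[Ici 0] (0 : ℝ), G (r 0) ≤ G (r u) := by
    filter_upwards [se0_tend_sqrt.eventually hall, self_mem_nhdsWithin] with u hu hu0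
    obtain ⟨h1, h2, h3, h4⟩ := hu
    have hu1 : (0 : ℝ) ≤ u := hu0
    have hsq : Real.sqrt u ^ 2 = u := Real.sq_sqrt hu1
    have h5 : G (dm (P (Real.sqrt u))) = G (r u) := by
      refine hom (r u) (dm (P (Real.sqrt u))) (fun i => Real.sqrt (c (Real.sqrt u) i))
        (fun i => (Real.sqrt_pos.2 (h3 i)).ne') ?_
      intro i j hij
      have h6 := h4 i j hij
      rw [hsq] at h6
      have h7 : dm (P (Real.sqrt u)) i j = Real.sqrt (‖P (Real.sqrt u) j - P (Real.sqrt u) i‖ ^ 2) :=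
        (Real.sqrt_sq (norm_nonneg _)).symm
      rw [h7, h6, hr]
      simp only
      rw [Real.sqrt_mul (mul_nonneg (h3 i).le (h3 j).le), Real.sqrt_mul (h3 i).le]
    rw [← h5, ← f2 _ h2, hr0, ← f2 p hp]
    exact h1
  have hfin := se0_nonneg_of_min (fun u => G (r u)) _ hG hle
  have hsum : ∑ i, ∑ j, L i j / ‖p j - p i‖ ^ 2 * b i j =
      4 * ∑ i, ∑ j, L i j * l i j / 2 := by
    rw [Finset.mul_sum]
    refine Finset.sum_congr rfl fun i _ => ?_
    rw [Finset.mul_sum]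
    refine Finset.sum_congr rfl fun j _ => ?_
    by_cases hij : i = j
    · subst hij
      rw [hL.diag i]
      simp
    · rw [hl]
      have hD := (hDpos i j hij).ne'
      simp only
      field_simp
      ring
  rw [hsum]
  linarith

end Pool.Agent.H223.MB
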