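import Pool.Agent.H223.MB.Stm

open scoped RealInnerProductSpace Topology
open Set Filter

namespace Pool.Agent.H223.MB

/-- the distances of the scaled points -/
theorem se1_id (a b : V) (R s t : ℝ) (ha : ‖a‖ = R) (hb : ‖b‖ = R) :
    ‖t • b - s • a‖ ^ 2 = s * t * ‖b - a‖ ^ 2 + R ^ 2 * (s - t) ^ 2 := by
  rw [norm_sub_sq_real, norm_sub_sq_real, norm_smul, norm_smul, inner_smul_left, inner_smul_right,
    ha, hb, mul_pow, mul_pow, Real.norm_eq_abs, Real.norm_eq_abs, sq_abs, sq_abs]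
  simp only [conj_trivial]
  ring

theorem pSE1 (se0 : SE0) : SE1 := by
  intro p hp hmin L hL c R hR hc z
  have hpos : ∀ᶠ t in 𝓝 (0 : ℝ), ∀ i, 0 < 1 + t * z i := by
    rw [eventually_all]
    intro i
    have hcont : ContinuousAt (fun t : ℝ => 1 + t * z i) 0 := by fun_prop
    have h0 : (0 : ℝ) < 1 + 0 * z i := by norm_num
    exact hcont.eventually (lt_mem_nhds h0)
  have h := se0 p hp hmin L hL (fun i j => R ^ 2 * (z i - z j) ^ 2)
    (fun t i => c + (1 + t * z i) • (p i - c))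
    (fun t i j => R ^ 2 * (z i - z j) ^ 2 / ((1 + t * z i) * (1 + t * z j)))
    (fun t i => 1 + t * z i) ?_ ?_ ?_ ?_ ?_ hpos ?_
  · have e : ∑ i, ∑ j, L i j / ‖p j - p i‖ ^ 2 * (R ^ 2 * (z i - z j) ^ 2) =
        R ^ 2 * ∑ i, ∑ j, L i j / ‖p j - p i‖ ^ 2 * (z i - z j) ^ 2 := by
      rw [Finset.mul_sum]
      refine Finset.sum_congr rfl fun i _ => ?_
      rw [Finset.mul_sum]
      refine Finset.sum_congr rfl fun j _ => ?_
      ring
    have h' : 0 ≤ R ^ 2 * ∑ i, ∑ j, L i j / ‖p j - p i‖ ^ 2 * (z i - z j) ^ 2 := by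
      rw [← e]
      exact h
    exact nonneg_of_mul_nonneg_right h' (by positivity)
  · intro i j
    ring
  · funext i
    show c + (1 + 0 * z i) • (p i - c) = p i
    rw [zero_mul, add_zero, one_smul, add_sub_cancel]
  · rw [continuousAt_pi]
    intro i
    fun_prop
  · intro i j
    have h1 : (1 + (0 : ℝ) * z i) * (1 + 0 * z j) ≠ 0 := by norm_num
    have h2 : ContinuousAt (fun t : ℝ => (1 + t * z i) * (1 + t * z j)) 0 := by fun_prop
    exact continuousAt_const.div h2 h1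
  · intro i j
    show R ^ 2 * (z i - z j) ^ 2 / ((1 + 0 * z i) * (1 + 0 * z j)) = R ^ 2 * (z i - z j) ^ 2
    rw [zero_mul, zero_mul, add_zero, mul_one, div_one]
  · filter_upwards [hpos] with t ht i j _
    have e1 : c + (1 + t * z j) • (p j - c) - (c + (1 + t * z i) • (p i - c)) =
        (1 + t * z j) • (p j - c) - (1 + t * z i) • (p i - c) := by
      abel
    have e2 : p j - p i = (p j - c) - (p i - c) := by abel
    show ‖c + (1 + t * z j) • (p j - c) - (c + (1 + t * z i) • (p i - c))‖ ^ 2 =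
      (1 + t * z i) * (1 + t * z j) * (‖p j - p i‖ ^ 2 +
        t ^ 2 * (R ^ 2 * (z i - z j) ^ 2 / ((1 + t * z i) * (1 + t * z j))))
    rw [e1, se1_id (p i - c) (p j - c) R (1 + t * z i) (1 + t * z j) (hc i) (hc j), ← e2]
    have p1 := (ht i).ne'
    have p2 := (ht j).ne'
    field_simp
    ring

end Pool.Agent.H223.MB
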