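import Pool.Agent.H223.MB.Defs

/-!
# The statements of the project MP_6bf31b_an (every statement is a `Prop`; proofs in the other files)
-/

open scoped RealInnerProductSpace Topology
open Set Filter

namespace Pool.Agent.H223.MB

/-! ## Formula for the energy -/

/-- F1. With `x* = (x-a)/|x-a|²` (inversion at `a`): `tanv a b c = b*-c*`, `tanv a c d = c*-d*`,
`|b*-c*| = |bc|/(|ab||ac|)` etc., `2⟪b*-c*,c*-d*⟫ = |b*-d*|²-|b*-c*|²-|c*-d*|²`. So with `X = |ab||cd|`, `Y = |bc||ad|`,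
`Z = |ac||bd|` both cosines are `(Z²-X²-Y²)/(2XY)` (for the second one invert at `b`), and the summand is
`X/Z*(1-(Z²-X²-Y²)/(2XY)) = ((X+Y)²-Z²)/(2YZ) = f X Y Z`. -/
def F1 : Prop := ∀ a b c d : V, a ≠ b → a ≠ c → a ≠ d → b ≠ c → b ≠ d → c ≠ d →
  summand a b c d = f (‖b - a‖ * ‖d - c‖) (‖c - b‖ * ‖d - a‖) (‖c - a‖ * ‖d - b‖)

/-- F2, from F1. -/
def F2 : Prop := ∀ p : Fin 6 → V, Function.Injective p → energy p = G (dm p)

/-- F3: Ptolemy's inequality, `EuclideanGeometry.mul_dist_le_mul_dist_add_mul_dist`. -/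
def F3 : Prop := ∀ p : Fin 6 → V, Function.Injective p → Good (dm p)

/-! ## Derivatives -/

/-- D2: `f` is differentiable with `X f_X = AX`, `Y f_Y = AY`, `Z f_Z = AZ`; products of distances have logarithmic
derivative the sum. -/
def D2 : Prop := ∀ (r : ℝ → Fin 6 → Fin 6 → ℝ) (l : Fin 6 → Fin 6 → ℝ) (t : ℝ) (s : Set ℝ),
  (∀ i j, i ≠ j → HasDerivWithinAt (fun u => r u i j) (r t i j * l i j) s t) →
  (∀ i j, i ≠ j → r t i j ≠ 0) → HasDerivWithinAt (fun u => G (r u)) (dG (r t) l) s t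

/-- S1: the stress matrix. `L i j` is the coefficient of `l i j`: with `A(i,j)` for `A (PX r i j) (PY r i j) (PZ r i j)`,
`L u (u+2) = 2(AZ(u,u+2)+AZ(u-1,u+1)+AY(u-1,u+2))`, `L u (u+3) = 2(AZ(u,u+3)+AZ(u-1,u+2)+AY(u,u+2)+AY(u+3,u+5))`,
`L u (u+1) = 2 ∑_{j Far u} AX(u,j) + 2 AY(u-1,u+1)`. Signs: `AY ≤ 1`, `AZ < -1`; row sums: `AX+AY+AZ = 0`.
(All `A(i,j)=A(j,i)` since `r` is symmetric.) -/
def S1 : Prop := ∀ r, Good r → ∃ L, Stress r L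

/-- HOM: `f (kX) (kY) (kZ) = f X Y Z` for `k ≠ 0`. -/
def HOM : Prop := ∀ (r s : Fin 6 → Fin 6 → ℝ) (c : Fin 6 → ℝ), (∀ i, c i ≠ 0) →
  (∀ i j, i ≠ j → s i j = c i * c j * r i j) → G s = G r

/-- C1: derivative of the energy along a straight path. -/
def C1 : Prop := ∀ (p w : Fin 6 → V), Function.Injective p → ∀ L, Stress (dm p) L →
  HasDerivAt (fun t : ℝ => energy (fun i => p i + t • w i))
    (∑ i, ∑ j, L i j * (⟪p j - p i, w j - w i⟫ / ‖p j - p i‖ ^ 2) / 2) 0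

/-- C2: the critical point equation (take `w = Pi.single i v` in C1, all `v`). -/
def C2 : Prop := ∀ (p : Fin 6 → V), Function.Injective p → IsLocalMin energy p → ∀ L, Stress (dm p) L →
  ∀ i, ∑ j, (L i j / ‖p j - p i‖ ^ 2) • (p j - p i) = 0

/-- SE0: one sided second order condition. -/
def SE0 : Prop := ∀ (p : Fin 6 → V), Function.Injective p → IsLocalMin energy p → ∀ L, Stress (dm p) L →
  ∀ (b : Fin 6 → Fin 6 → ℝ) (P : ℝ → Fin 6 → V) (B : ℝ → Fin 6 → Fin 6 → ℝ) (c : ℝ → Fin 6 → ℝ),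
  (∀ i j, b i j = b j i) →
  P 0 = p → ContinuousAt P 0 → (∀ i j, ContinuousAt (fun t => B t i j) 0) → (∀ i j, B 0 i j = b i j) →
  (∀ᶠ t in 𝓝 (0 : ℝ), ∀ i, 0 < c t i) →
  (∀ᶠ t in 𝓝 (0 : ℝ), ∀ i j, i ≠ j → ‖P t j - P t i‖ ^ 2 = c t i * c t j * (‖p j - p i‖ ^ 2 + t ^ 2 * B t i j)) →
  0 ≤ ∑ i, ∑ j, L i j / ‖p j - p i‖ ^ 2 * b i j

/-- SE1: points on a sphere. -/
def SE1 : Prop := ∀ (p : Fin 6 → V), Function.Injective p → IsLocalMin energy p → ∀ L, Stress (dm p) L →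
  ∀ (c : V) (R : ℝ), 0 < R → (∀ i, ‖p i - c‖ = R) → ∀ z : Fin 6 → ℝ,
  0 ≤ ∑ i, ∑ j, L i j / ‖p j - p i‖ ^ 2 * (z i - z j) ^ 2

/-- SE2: points on a plane. -/
def SE2 : Prop := ∀ (p : Fin 6 → V), Function.Injective p → IsLocalMin energy p → ∀ L, Stress (dm p) L →
  ∀ (ν : V) (k : ℝ), ‖ν‖ = 1 → (∀ i, ⟪ν, p i⟫ = k) → ∀ z : Fin 6 → ℝ,
  0 ≤ ∑ i, ∑ j, L i j / ‖p j - p i‖ ^ 2 * (z i - z j) ^ 2

/-! ## Linear algebra -/

/-- KER -/
def KER : Prop := ∀ (p : Fin 6 → V), Function.Injective p → ∀ L, Stress (dm p) L →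
  (∀ i, ∑ j, (L i j / ‖p j - p i‖ ^ 2) • (p j - p i) = 0) →
  ∃ M : Matrix (Fin 6) (Fin 6) ℝ, M.IsSymm ∧ (∀ i j, NonAdj i j → 0 < M i j) ∧
    (∀ q : ℝ × V × ℝ, M.mulVec (Rel p q) = 0) ∧
    (∀ z : Fin 6 → ℝ, dotProduct z (M.mulVec z) =
      (∑ i, ∑ j, L i j / ‖p j - p i‖ ^ 2 * (z i - z j) ^ 2) / 2)

/-- RANK -/
def RANK : Prop := ∀ (p : Fin 6 → V) (M : Matrix (Fin 6) (Fin 6) ℝ), (∀ q : ℝ × V × ℝ, M.mulVec (Rel p q) = 0) →
  M.rank ≤ 1 + Module.finrank ℝ (LinearMap.ker (Rel p))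

/-- LA1 -/
def LA1 : Prop := ∀ (M : Matrix (Fin 6) (Fin 6) ℝ), M.IsSymm → (∀ i j, NonAdj i j → 0 < M i j) →
  (∀ i, ∑ j, M i j = 0) → M.rank ≤ 1 → False

/-- FAC -/
def FAC : Prop := ∀ (M : Matrix (Fin 6) (Fin 6) ℝ), M.IsSymm → (∀ z, 0 ≤ dotProduct z (M.mulVec z)) → M.rank ≤ 2 →
  ∃ x y : Fin 6 → ℝ, ∀ i j, M i j = x i * x j + y i * y j

/-- LV -/
def LV : Prop := ∀ x y : Fin 6 → ℝ, ∑ i, x i = 0 → ∑ i, y i = 0 → (∀ i j, NonAdj i j → 0 < x i * x j + y i * y j) → False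

/-- GEO1 -/
def GEO1 : Prop := ∀ (p : Fin 6 → V), Function.Injective p → 1 ≤ Module.finrank ℝ (LinearMap.ker (Rel p)) →
  (∃ (c : V) (R : ℝ), 0 < R ∧ ∀ i, ‖p i - c‖ = R) ∨ (∃ (ν : V) (k : ℝ), ‖ν‖ = 1 ∧ ∀ i, ⟪ν, p i⟫ = k)

/-- GEO2 -/
def GEO2 : Prop := ∀ (p : Fin 6 → V), 2 ≤ Module.finrank ℝ (LinearMap.ker (Rel p)) →
  EuclideanGeometry.Concyclic (range p) ∨ Collinear ℝ (range p)

/-! ## Topology -/

/-- T1 -/
def T1 : Prop := ∀ a b : V, (∀ s t : ℝ, 0 ≤ s → 0 ≤ t → s • a = t • b → s = 0 ∧ t = 0) →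
  ∃ c : ℝ, 0 < c ∧ ∀ s t : ℝ, 0 ≤ s → 0 ≤ t → c * (s + t) ≤ ‖s • a - t • b‖

/-- The hat functions on the polygon. -/
noncomputable def hat (k i : Fin 6) (s : ℝ) : ℝ := (if k = i then 1 - s else 0) + (if k = i + 1 then s else 0)

/-- The points of the polygon. -/
noncomputable def pt (p : Fin 6 → V) (i : Fin 6) (s : ℝ) : V := (1 - s) • p i + s • p (i + 1)

/-- T2: the hat functions are Lipschitz on the polygon. -/
def T2 : Prop := ∀ p : Fin 6 → V, Embedded p → ∃ C : ℝ, 0 ≤ C ∧ ∀ i j k : Fin 6, ∀ s ∈ Icc (0 : ℝ) 1, ∀ t ∈ Icc (0 : ℝ) 1,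
  |hat k i s - hat k j t| ≤ C * ‖pt p i s - pt p j t‖

/-- T3: extension of the hat functions. -/
def T3 : Prop := ∀ p : Fin 6 → V, Embedded p → ∃ (φ : Fin 6 → V → ℝ) (K : NNReal), (∀ k, LipschitzWith K (φ k)) ∧
  ∀ k i : Fin 6, ∀ s ∈ Icc (0 : ℝ) 1, φ k (pt p i s) = hat k i s

/-- T4: small Lipschitz perturbations of the identity. -/
def T4 : Prop := ∀ (g : V → V) (K : NNReal), K < 1 → LipschitzWith K g → IsHomeomorph (fun x => x + g x)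

/-- T5 -/
def T5 : Prop := ∀ p : Fin 6 → V, Embedded p → ∀ᶠ q in 𝓝 p, Embedded q ∧ AmbientIsotopic (trace p) (trace q)

/-- T6 -/
def T6 : Prop := ∀ p : Fin 6 → V, Embedded p → ¬ Collinear ℝ (range p)

/-! ## Assembly -/

theorem main1 (f2 : F2) (f3 : F3) (s1 : S1) (c2 : C2) (se1 : SE1) (se2 : SE2) (ker : KER) (rank : RANK)
    (la1 : LA1) (fac : FAC) (lv : LV) (geo1 : GEO1) (geo2 : GEO2)
    (p : Fin 6 → V) (hp : Function.Injective p) (hmin : IsLocalMin energy p) :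
    EuclideanGeometry.Concyclic (range p) ∨ Collinear ℝ (range p) := by
  obtain ⟨L, hL⟩ := s1 _ (f3 p hp)
  have hcrit := c2 p hp hmin L hL
  obtain ⟨M, hsym, hpos, hker, hquad⟩ := ker p hp L hL hcrit
  have hrank := rank p M hker
  have hrow : ∀ i, ∑ j, M i j = 0 := by
    intro i
    have h := congrFun (hker (1, 0, 0)) i
    simpa [Matrix.mulVec, dotProduct, Rel] using h
  by_cases h2 : 2 ≤ Module.finrank ℝ (LinearMap.ker (Rel p))
  · exact geo2 p h2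
  exfalso
  by_cases h1 : 1 ≤ Module.finrank ℝ (LinearMap.ker (Rel p))
  · have hz : ∀ z : Fin 6 → ℝ, 0 ≤ ∑ i, ∑ j, L i j / ‖p j - p i‖ ^ 2 * (z i - z j) ^ 2 := by
      rcases geo1 p hp h1 with ⟨c, R, hR, hs⟩ | ⟨ν, k, hν, hs⟩
      · exact se1 p hp hmin L hL c R hR hs
      · exact se2 p hp hmin L hL ν k hν hs
    obtain ⟨x, y, hxy⟩ := fac M hsym (fun z => by rw [hquad]; have := hz z; linarith) (by omega)
    have hsum : (∑ i, x i) ^ 2 + (∑ i, y i) ^ 2 = 0 := by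
      have h3 : ∑ i, ∑ j, M i j = 0 := Finset.sum_eq_zero fun i _ => hrow i
      have h4 : ∑ i, ∑ j, M i j = (∑ i, x i) ^ 2 + (∑ i, y i) ^ 2 := by
        simp only [hxy, Finset.sum_add_distrib, sq, Finset.sum_mul_sum]
      linarith
    have hx : ∑ i, x i = 0 := by nlinarith [sq_nonneg (∑ i, x i), sq_nonneg (∑ i, y i)]
    have hy : ∑ i, y i = 0 := by nlinarith [sq_nonneg (∑ i, x i), sq_nonneg (∑ i, y i)]
    exact lv x y hx hy (fun i j hij => by rw [← hxy]; exact hpos i j hij)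
  · exact la1 M hsym hpos hrow (by omega)

theorem main2 (t5 : T5) (t6 : T6)
    (h : ∀ p : Fin 6 → V, Function.Injective p → IsLocalMin energy p →
      EuclideanGeometry.Concyclic (range p) ∨ Collinear ℝ (range p))
    (p : Fin 6 → V) (hp : Embedded p)
    (hmin : ∀ q : Fin 6 → V, Embedded q → AmbientIsotopic (trace p) (trace q) → energy p ≤ energy q) :
    EuclideanGeometry.Concyclic (range p) := by
  have hloc : IsLocalMin energy p := by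
    filter_upwards [t5 p hp] with q hq
    exact hmin q hq.1 hq.2
  rcases h p hp.1 hloc with h | h
  · exact h
  · exact absurd h (t6 p hp)

end Pool.Agent.H223.MB
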