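import Pool.Agent.H223.MB.Stm

/-!
# The statements of the project MP_6bf31b_an, second part: concyclic embedded hexagons are unknotted
-/

open scoped RealInnerProductSpace Topology
open Set Filter

namespace Pool.Agent.H223.MB

/-- Six points on a circle. -/
noncomputable def circ (c : V) (R : ℝ) (e₁ e₂ : V) (θ : Fin 6 → ℝ) (i : Fin 6) : V :=
  c + (R * Real.cos (θ i)) • e₁ + (R * Real.sin (θ i)) • e₂

/-- Orthonormal pairs. -/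
def ON (e₁ e₂ : V) : Prop := ‖e₁‖ = 1 ∧ ‖e₂‖ = 1 ∧ ⟪e₁, e₂⟫ = 0

/-- Increasing angles less than `2π` apart. -/
def Sorted (θ : Fin 6 → ℝ) : Prop :=
  θ 0 < θ 1 ∧ θ 1 < θ 2 ∧ θ 2 < θ 3 ∧ θ 3 < θ 4 ∧ θ 4 < θ 5 ∧ θ 5 < θ 0 + 2 * Real.pi

/-- AI: ambient isotopy is symmetric (`H' t = H (1-t) ∘ (H 1)⁻¹`) and transitive (concatenation). -/
def AI : Prop := (∀ K L : Set V, AmbientIsotopic K L → AmbientIsotopic L K) ∧
  (∀ K L M : Set V, AmbientIsotopic K L → AmbientIsotopic L M → AmbientIsotopic K M) ∧ (∀ K : Set V, AmbientIsotopic K K)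

/-- PATHL: along a path of embedded hexagons the knot type is constant. -/
def PATHL : Prop := ∀ P : ℝ → Fin 6 → V, ContinuousOn P (Icc 0 1) → (∀ t ∈ Icc (0 : ℝ) 1, Embedded (P t)) →
  AmbientIsotopic (trace (P 0)) (trace (P 1))

/-- CROSS: chords with interlaced end points meet. -/
def CROSS : Prop := ∀ (c : V) (R : ℝ) (e₁ e₂ : V) (φ : Fin 6 → ℝ) (i j k l : Fin 6),
  φ i < φ j → φ j < φ k → φ k < φ l → φ l < φ i + 2 * Real.pi →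
  (segment ℝ (circ c R e₁ e₂ φ i) (circ c R e₁ e₂ φ k) ∩ segment ℝ (circ c R e₁ e₂ φ j) (circ c R e₁ e₂ φ l)).Nonempty

/-- ORD1 -/
def ORD1 : Prop := ∀ p : Fin 6 → V, Function.Injective p → EuclideanGeometry.Concyclic (range p) →
  ∃ (c : V) (R : ℝ) (e₁ e₂ : V) (φ : Fin 6 → ℝ), 0 < R ∧ ON e₁ e₂ ∧ φ 0 = 0 ∧ (∀ i, 0 ≤ φ i ∧ φ i < 2 * Real.pi) ∧
    Function.Injective φ ∧ p = circ c R e₁ e₂ φ

/-- ORD2 -/
def ORD2 : Prop := ∀ (c : V) (R : ℝ) (e₁ e₂ : V) (φ : Fin 6 → ℝ), 0 < R → ON e₁ e₂ → φ 0 = 0 →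
  (∀ i, 0 ≤ φ i ∧ φ i < 2 * Real.pi) → Function.Injective φ → Embedded (circ c R e₁ e₂ φ) →
  (φ 1 < φ 2 ∧ φ 2 < φ 3 ∧ φ 3 < φ 4 ∧ φ 4 < φ 5) ∨ (φ 5 < φ 4 ∧ φ 4 < φ 3 ∧ φ 3 < φ 2 ∧ φ 2 < φ 1)

/-- CONV: convex polygons are embedded. -/
def CONV : Prop := ∀ (c : V) (R : ℝ) (e₁ e₂ : V) (θ : Fin 6 → ℝ), 0 < R → ON e₁ e₂ → Sorted θ →
  Embedded (circ c R e₁ e₂ θ)

/-- UNK: concyclic embedded hexagons are isotopic to regular plane hexagons. -/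
def UNK : Prop := ∀ p : Fin 6 → V, Embedded p → EuclideanGeometry.Concyclic (range p) →
  ∃ (c : V) (R : ℝ) (e₁ e₂ : V), 0 < R ∧ ON e₁ e₂ ∧
    AmbientIsotopic (trace p) (trace (circ c R e₁ e₂ (fun i => (i : ℝ) * (Real.pi / 3))))

/-- REG: all regular plane hexagons are ambient isotopic. -/
def REG : Prop := ∀ (c : V) (R : ℝ) (e₁ e₂ : V), 0 < R → ON e₁ e₂ →
  AmbientIsotopic (trace (circ c R e₁ e₂ (fun i => (i : ℝ) * (Real.pi / 3))))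
    (trace (circ 0 1 (EuclideanSpace.single 0 1) (EuclideanSpace.single 1 1) (fun i => (i : ℝ) * (Real.pi / 3))))

end Pool.Agent.H223.MB
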