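import Pool.Agent.H223.MB.Stm

/-!
# T2: the hat functions are Lipschitz on the polygon (helper333)
-/

open scoped RealInnerProductSpace Topology
open Set Filter

namespace Pool.Agent.H223.MB

private lemma t2_n1 : ∀ i : Fin 6, i ≠ i + 1 := by decide

private lemma t2_n2 : ∀ i : Fin 6, i ≠ i + 1 + 1 := by decide

private lemma t2_bd (k i j : Fin 6) {s t : ℝ} (hs : s ∈ Icc (0 : ℝ) 1) (ht : t ∈ Icc (0 : ℝ) 1) :
    |hat k i s - hat k j t| ≤ 1 := by
  obtain ⟨hs0, hs1⟩ := hs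
  obtain ⟨ht0, ht1⟩ := ht
  unfold hat
  rw [abs_le]
  split_ifs <;> constructor <;> linarith

private lemma t2_mem (p : Fin 6 → V) (i : Fin 6) {s : ℝ} (hs : s ∈ Icc (0 : ℝ) 1) :
    pt p i s ∈ edge p i :=
  ⟨1 - s, s, by linarith [hs.2], hs.1, by ring, rfl⟩

private lemma t2_same (p : Fin 6 → V) (hp : Embedded p) (i : Fin 6) : ∃ C : ℝ, 0 ≤ C ∧
    ∀ k : Fin 6, ∀ s ∈ Icc (0 : ℝ) 1, ∀ t ∈ Icc (0 : ℝ) 1,
      |hat k i s - hat k i t| ≤ C * ‖pt p i s - pt p i t‖ := by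
  have hne : p i - p (i + 1) ≠ 0 := sub_ne_zero.2 fun h => t2_n1 i (hp.1 h)
  have hpos : 0 < ‖p i - p (i + 1)‖ := norm_pos_iff.2 hne
  refine ⟨‖p i - p (i + 1)‖⁻¹, by positivity, fun k s hs t ht => ?_⟩
  have e : pt p i s - pt p i t = (t - s) • (p i - p (i + 1)) := by
    unfold pt
    module
  rw [e, norm_smul, Real.norm_eq_abs, mul_comm |t - s|, inv_mul_cancel_left₀ hpos.ne']
  unfold hat
  have h1 : t - s ≤ |t - s| := le_abs_self _
  have h2 : -(t - s) ≤ |t - s| := neg_le_abs _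
  rw [abs_le]
  split_ifs <;> constructor <;> linarith

private lemma t2_indep (p : Fin 6 → V) (hp : Embedded p) (i : Fin 6) (s t : ℝ) (hs : 0 ≤ s)
    (ht : 0 ≤ t) (h : s • (p i - p (i + 1)) = t • (p (i + 1 + 1) - p (i + 1))) :
    s = 0 ∧ t = 0 := by
  have ha : p i - p (i + 1) ≠ 0 := sub_ne_zero.2 fun h => t2_n1 i (hp.1 h)
  have hb : p (i + 1 + 1) - p (i + 1) ≠ 0 := sub_ne_zero.2 fun h => t2_n1 (i + 1) (hp.1 h).symm
  by_cases hs0 : s = 0
  · refine ⟨hs0, ?_⟩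
    rw [hs0, zero_smul] at h
    exact (smul_eq_zero.1 h.symm).resolve_right hb
  exfalso
  have hsp : 0 < s := lt_of_le_of_ne hs (Ne.symm hs0)
  obtain ⟨r, hr, hr1, hr2⟩ : ∃ r : ℝ, 0 < r ∧ s ≤ r ∧ t ≤ r :=
    ⟨max s t, lt_max_of_lt_left hsp, le_max_left _ _, le_max_right _ _⟩
  have h' : (s / r) • (p i - p (i + 1)) = (t / r) • (p (i + 1 + 1) - p (i + 1)) := by
    rw [div_eq_inv_mul, div_eq_inv_mul, mul_smul, mul_smul, h]
  have hs1 : 0 ≤ s / r := by positivity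
  have hs2 : s / r ≤ 1 := (div_le_one hr).2 hr1
  have ht1 : 0 ≤ t / r := by positivity
  have ht2 : t / r ≤ 1 := (div_le_one hr).2 hr2
  have m1 : p (i + 1) + (s / r) • (p i - p (i + 1)) ∈ edge p i := by
    refine ⟨s / r, 1 - s / r, hs1, by linarith, by ring, ?_⟩
    module
  have m2 : p (i + 1) + (s / r) • (p i - p (i + 1)) ∈ edge p (i + 1) := by
    rw [h']
    refine ⟨1 - t / r, t / r, by linarith, ht1, by ring, ?_⟩
    module
  have h3 := hp.2 i (i + 1) (t2_n1 i) ⟨m1, m2⟩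
  have h4 : p (i + 1) + (s / r) • (p i - p (i + 1)) = p (i + 1) := by
    obtain ⟨h5, h6⟩ := h3
    rcases h5 with h5 | h5
    · rcases h6 with h6 | h6
      · exact absurd (hp.1 (h5.symm.trans h6)) (t2_n1 i)
      · exact absurd (hp.1 (h5.symm.trans h6)) (t2_n2 i)
    · exact h5
  have h5 : (s / r) • (p i - p (i + 1)) = 0 := by
    have := h4
    rwa [add_eq_left] at this
  have h6 := (smul_eq_zero.1 h5).resolve_right ha
  have h7 : 0 < s / r := by positivity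
  linarith

private lemma t2_next (t1 : T1) (p : Fin 6 → V) (hp : Embedded p) (i : Fin 6) : ∃ C : ℝ, 0 ≤ C ∧
    ∀ k : Fin 6, ∀ s ∈ Icc (0 : ℝ) 1, ∀ t ∈ Icc (0 : ℝ) 1,
      |hat k i s - hat k (i + 1) t| ≤ C * ‖pt p i s - pt p (i + 1) t‖ := by
  obtain ⟨c, hc, hct⟩ := t1 (p i - p (i + 1)) (p (i + 1 + 1) - p (i + 1)) (t2_indep p hp i)
  refine ⟨c⁻¹, by positivity, fun k s hs t ht => ?_⟩
  have e : pt p i s - pt p (i + 1) t =
      (1 - s) • (p i - p (i + 1)) - t • (p (i + 1 + 1) - p (i + 1)) := by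
    unfold pt
    module
  have h1 := hct (1 - s) t (by linarith [hs.2]) ht.1
  rw [← e] at h1
  have h2 : |hat k i s - hat k (i + 1) t| ≤ (1 - s) + t := by
    obtain ⟨hs0, hs1⟩ := hs
    obtain ⟨ht0, ht1⟩ := ht
    unfold hat
    rw [abs_le]
    split_ifs <;> constructor <;> linarith
  refine h2.trans ?_
  rw [← div_eq_inv_mul, le_div_iff₀ hc, mul_comm]
  exact h1

private lemma t2_cont (p : Fin 6 → V) (i : Fin 6) : Continuous (pt p i) := by
  unfold pt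
  fun_prop

private lemma t2_far (p : Fin 6 → V) (hp : Embedded p) (i j : Fin 6) (h1 : i ≠ j)
    (h2 : i ≠ j + 1) (h3 : j ≠ i + 1) : ∃ C : ℝ, 0 ≤ C ∧
    ∀ k : Fin 6, ∀ s ∈ Icc (0 : ℝ) 1, ∀ t ∈ Icc (0 : ℝ) 1,
      |hat k i s - hat k j t| ≤ C * ‖pt p i s - pt p j t‖ := by
  have hK : IsCompact (Icc (0 : ℝ) 1 ×ˢ Icc (0 : ℝ) 1) := isCompact_Icc.prod isCompact_Icc
  have hne : (Icc (0 : ℝ) 1 ×ˢ Icc (0 : ℝ) 1).Nonempty := ⟨(0, 0), by simp⟩
  have hf : Continuous fun q : ℝ × ℝ => ‖pt p i q.1 - pt p j q.2‖ :=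
    (((t2_cont p i).comp continuous_fst).sub ((t2_cont p j).comp continuous_snd)).norm
  obtain ⟨q, hq, hmin⟩ := hK.exists_isMinOn hne hf.continuousOn
  have hc : 0 < ‖pt p i q.1 - pt p j q.2‖ := by
    rw [norm_pos_iff, sub_ne_zero]
    intro h
    have m1 := t2_mem p i hq.1
    have m2 := t2_mem p j hq.2
    rw [← h] at m2
    obtain ⟨h5, h6⟩ := hp.2 i j h1 ⟨m1, m2⟩
    rcases h5 with h5 | h5
    · rcases h6 with h6 | h6
      · exact h1 (hp.1 (h5.symm.trans h6))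
      · exact h2 (hp.1 (h5.symm.trans h6))
    · rcases h6 with h6 | h6
      · exact h3 (hp.1 (h5.symm.trans h6)).symm
      · exact h1 (add_right_cancel (hp.1 (h5.symm.trans h6)))
  refine ⟨‖pt p i q.1 - pt p j q.2‖⁻¹, by positivity, fun k s hs t ht => ?_⟩
  refine (t2_bd k i j hs ht).trans ?_
  have h4 := isMinOn_iff.1 hmin (s, t) ⟨hs, ht⟩
  rw [← div_eq_inv_mul, le_div_iff₀ hc, one_mul]
  exact h4

private lemma t2_pair (t1 : T1) (p : Fin 6 → V) (hp : Embedded p) (i j : Fin 6) : ∃ C : ℝ, 0 ≤ C ∧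
    ∀ k : Fin 6, ∀ s ∈ Icc (0 : ℝ) 1, ∀ t ∈ Icc (0 : ℝ) 1,
      |hat k i s - hat k j t| ≤ C * ‖pt p i s - pt p j t‖ := by
  by_cases h1 : i = j
  · subst h1
    exact t2_same p hp i
  by_cases h2 : j = i + 1
  · subst h2
    exact t2_next t1 p hp i
  by_cases h3 : i = j + 1
  · subst h3
    obtain ⟨C, hC, h⟩ := t2_next t1 p hp j
    refine ⟨C, hC, fun k s hs t ht => ?_⟩
    rw [abs_sub_comm, norm_sub_rev]
    exact h k t ht s hs
  · exact t2_far p hp i j h1 h3 h2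

theorem pT2 (t1 : T1) : T2 := by
  intro p hp
  choose C hC h using fun i j => t2_pair t1 p hp i j
  refine ⟨∑ i, ∑ j, C i j, Finset.sum_nonneg fun i _ => Finset.sum_nonneg fun j _ => hC i j,
    fun i j k s hs t ht => (h i j k s hs t ht).trans ?_⟩
  refine mul_le_mul_of_nonneg_right ?_ (norm_nonneg _)
  exact (Finset.single_le_sum (fun j _ => hC i j) (Finset.mem_univ j)).trans
    (Finset.single_le_sum (f := fun i => ∑ j, C i j)
      (fun i _ => Finset.sum_nonneg fun j _ => hC i j) (Finset.mem_univ i))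

end Pool.Agent.H223.MB
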