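import Pool.Agent.H223.MB.Stm

/-!
# T2: the hat functions are Lipschitz on the polygon
-/

open scoped RealInnerProductSpace Topology
open Set Filter

namespace Pool.Agent.H223.MB

private theorem t2_ne (i : Fin 6) : i ≠ i + 1 := by
  revert i; decide

private theorem t2_ne2 (i : Fin 6) : i ≠ i + 1 + 1 := by
  revert i; decide

private theorem t2_hat_mem (k i : Fin 6) {s : ℝ} (hs : s ∈ Icc (0 : ℝ) 1) :
    0 ≤ hat k i s ∧ hat k i s ≤ 1 := by
  obtain ⟨h0, h1⟩ := hs
  unfold hat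
  by_cases hk : k = i
  · have hk' : k ≠ i + 1 := by
      rw [hk]; exact t2_ne i
    rw [if_pos hk, if_neg hk']
    constructor <;> linarith
  · rw [if_neg hk]
    by_cases hk' : k = i + 1
    · rw [if_pos hk']
      constructor <;> linarith
    · rw [if_neg hk']
      constructor <;> linarith

private theorem t2_hat_one (k i j : Fin 6) {s t : ℝ} (hs : s ∈ Icc (0 : ℝ) 1)
    (ht : t ∈ Icc (0 : ℝ) 1) : |hat k i s - hat k j t| ≤ 1 := by
  obtain ⟨h1, h2⟩ := t2_hat_mem k i hs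
  obtain ⟨h3, h4⟩ := t2_hat_mem k j ht
  rw [abs_le]
  constructor <;> linarith

private theorem t2_pt_mem (p : Fin 6 → V) (i : Fin 6) {s : ℝ} (hs : s ∈ Icc (0 : ℝ) 1) :
    pt p i s ∈ edge p i :=
  ⟨1 - s, s, by linarith [hs.2], hs.1, by ring, rfl⟩

/-- The claim for one pair of edges. -/
private def T2Pair (p : Fin 6 → V) (i j : Fin 6) : Prop :=
  ∃ C : ℝ, 0 ≤ C ∧ ∀ k : Fin 6, ∀ s ∈ Icc (0 : ℝ) 1, ∀ t ∈ Icc (0 : ℝ) 1,
    |hat k i s - hat k j t| ≤ C * ‖pt p i s - pt p j t‖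

private theorem t2_symm {p : Fin 6 → V} {i j : Fin 6} (h : T2Pair p i j) : T2Pair p j i := by
  obtain ⟨C, hC, h⟩ := h
  refine ⟨C, hC, fun k s hs t ht => ?_⟩
  rw [abs_sub_comm, norm_sub_rev]
  exact h k t ht s hs

private theorem t2_self {p : Fin 6 → V} (hp : Embedded p) (i : Fin 6) : T2Pair p i i := by
  have hne : p (i + 1) - p i ≠ 0 := sub_ne_zero.2 fun h => t2_ne i (hp.1 h).symm
  have hpos : 0 < ‖p (i + 1) - p i‖ := norm_pos_iff.2 hne
  refine ⟨‖p (i + 1) - p i‖⁻¹, by positivity, fun k s hs t ht => ?_⟩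
  have h1 : pt p i s - pt p i t = (s - t) • (p (i + 1) - p i) := by
    unfold pt
    module
  have h2 : |hat k i s - hat k i t| ≤ |s - t| := by
    unfold hat
    by_cases hk : k = i
    · have hk' : k ≠ i + 1 := by
        rw [hk]; exact t2_ne i
      rw [if_pos hk, if_neg hk', if_pos hk, if_neg hk']
      have : 1 - s + 0 - (1 - t + 0) = -(s - t) := by ring
      rw [this, abs_neg]
    · rw [if_neg hk, if_neg hk]
      by_cases hk' : k = i + 1
      · rw [if_pos hk', if_pos hk', zero_add, zero_add]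
      · rw [if_neg hk', if_neg hk', sub_self, abs_zero]
        exact abs_nonneg _
  rw [h1, norm_smul, Real.norm_eq_abs]
  have h3 : ‖p (i + 1) - p i‖⁻¹ * (|s - t| * ‖p (i + 1) - p i‖) = |s - t| := by
    field_simp
  rw [h3]
  exact h2

private theorem t2_next (t1 : T1) {p : Fin 6 → V} (hp : Embedded p) (i : Fin 6) :
    T2Pair p i (i + 1) := by
  have hne1 : p i ≠ p (i + 1) := fun h => t2_ne i (hp.1 h)
  have hne2 : p (i + 1) ≠ p (i + 1 + 1) := fun h => t2_ne (i + 1) (hp.1 h)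
  have hne3 : p i ≠ p (i + 1 + 1) := fun h => t2_ne2 i (hp.1 h)
  have key : ∀ s t : ℝ, 0 ≤ s → 0 ≤ t →
      s • (p i - p (i + 1)) = t • (p (i + 1 + 1) - p (i + 1)) → s = 0 ∧ t = 0 := by
    intro s t hs ht h
    by_contra hcon
    have hst : 0 < s + t := by
      rcases hs.lt_or_eq with h1 | h1
      · linarith
      · rcases ht.lt_or_eq with h2 | h2
        · linarith
        · exact absurd ⟨h1.symm, h2.symm⟩ hcon
    have hs' : 0 ≤ s / (s + t) := by positivity
    have ht' : 0 ≤ t / (s + t) := by positivity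
    have hsum : s / (s + t) + t / (s + t) = 1 := by
      field_simp
    have e : (s / (s + t)) • (p i - p (i + 1)) =
        (t / (s + t)) • (p (i + 1 + 1) - p (i + 1)) := by
      rw [div_eq_inv_mul, div_eq_inv_mul, mul_smul, mul_smul, h]
    have m1 : p (i + 1) + (s / (s + t)) • (p i - p (i + 1)) ∈ edge p i :=
      ⟨s / (s + t), 1 - s / (s + t), hs', by linarith, by ring, by module⟩
    have m2 : p (i + 1) + (s / (s + t)) • (p i - p (i + 1)) ∈ edge p (i + 1) := by
      rw [e]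
      exact ⟨1 - t / (s + t), t / (s + t), by linarith, ht', by ring, by module⟩
    obtain ⟨h1, h2⟩ := hp.2 i (i + 1) (t2_ne i) ⟨m1, m2⟩
    have h3 : p (i + 1) + (s / (s + t)) • (p i - p (i + 1)) = p (i + 1) := by
      rcases h1 with h1 | h1
      · rcases h2 with h2 | h2
        · exact absurd (h1.symm.trans h2) hne1
        · exact absurd (h1.symm.trans h2) hne3
      · exact h1
    have h4 : (s / (s + t)) • (p i - p (i + 1)) = 0 := by
      rwa [add_eq_left] at h3
    rcases smul_eq_zero.1 h4 with h5 | h5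
    · have hs0 : s = 0 := by
        rcases div_eq_zero_iff.1 h5 with h6 | h6
        · exact h6
        · exact absurd h6 hst.ne'
      rw [hs0, zero_smul] at h
      rcases smul_eq_zero.1 h.symm with h6 | h6
      · exact hcon ⟨hs0, h6⟩
      · exact hne2 (sub_eq_zero.1 h6).symm
    · exact hne1 (sub_eq_zero.1 h5)
  obtain ⟨c, hc, hb⟩ := t1 _ _ key
  refine ⟨c⁻¹, by positivity, fun k s hs t ht => ?_⟩
  have h1 : pt p i s - pt p (i + 1) t =
      (1 - s) • (p i - p (i + 1)) - t • (p (i + 1 + 1) - p (i + 1)) := by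
    unfold pt
    module
  have h2 := hb (1 - s) t (by linarith [hs.2]) ht.1
  rw [← h1] at h2
  have h3 : |hat k i s - hat k (i + 1) t| ≤ (1 - s) + t := by
    have hs1 := hs.2
    have ht1 := ht.1
    unfold hat
    by_cases hk : k = i
    · have hk1 : k ≠ i + 1 := by
        rw [hk]; exact t2_ne i
      have hk2 : k ≠ i + 1 + 1 := by
        rw [hk]; exact t2_ne2 i
      rw [if_pos hk, if_neg hk1, if_neg hk1, if_neg hk2]
      rw [abs_le]
      constructor <;> linarith
    · rw [if_neg hk]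
      by_cases hk1 : k = i + 1
      · have hk2 : k ≠ i + 1 + 1 := by
          rw [hk1]; exact t2_ne (i + 1)
        rw [if_pos hk1, if_pos hk1, if_neg hk2]
        rw [abs_le]
        constructor <;> linarith
      · rw [if_neg hk1, if_neg hk1]
        by_cases hk2 : k = i + 1 + 1
        · rw [if_pos hk2]
          rw [abs_le]
          constructor <;> linarith
        · rw [if_neg hk2]
          rw [abs_le]
          constructor <;> linarith
  refine h3.trans ?_
  rw [inv_mul_eq_div, le_div_iff₀ hc]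
  linarith

private theorem t2_cont (p : Fin 6 → V) (i j : Fin 6) :
    Continuous fun q : ℝ × ℝ => ‖pt p i q.1 - pt p j q.2‖ := by
  have h : ∀ a b c d : V, Continuous fun q : ℝ × ℝ =>
      ‖((1 - q.1) • a + q.1 • b) - ((1 - q.2) • c + q.2 • d)‖ := by
    intro a b c d
    fun_prop
  exact h (p i) (p (i + 1)) (p j) (p (j + 1))

private theorem t2_dis {p : Fin 6 → V} (hp : Embedded p) {i j : Fin 6} (h1 : i ≠ j)
    (h2 : j ≠ i + 1) (h3 : i ≠ j + 1) (x : V) (hx : x ∈ edge p i) (hy : x ∈ edge p j) : False := by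
  have h0 : i + 1 ≠ j + 1 := fun h => h1 (add_right_cancel h)
  obtain ⟨h4, h5⟩ := hp.2 i j h1 ⟨hx, hy⟩
  rcases h4 with h4 | h4
  · rcases h5 with h5 | h5
    · exact h1 (hp.1 (h4.symm.trans h5))
    · exact h3 (hp.1 (h4.symm.trans h5))
  · rcases h5 with h5 | h5
    · exact h2 (hp.1 (h4.symm.trans h5)).symm
    · exact h0 (hp.1 (h4.symm.trans h5))

private theorem t2_min (g : ℝ × ℝ → ℝ) (hg : Continuous g) :
    ∃ a ∈ Icc (0 : ℝ) 1, ∃ b ∈ Icc (0 : ℝ) 1, ∀ s ∈ Icc (0 : ℝ) 1, ∀ t ∈ Icc (0 : ℝ) 1,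
      g (a, b) ≤ g (s, t) := by
  obtain ⟨q, hq, hmin⟩ := ((isCompact_Icc (a := (0 : ℝ)) (b := 1)).prod
    (isCompact_Icc (a := (0 : ℝ)) (b := 1))).exists_isMinOn
    ⟨((0 : ℝ), (0 : ℝ)), ⟨⟨le_rfl, zero_le_one⟩, ⟨le_rfl, zero_le_one⟩⟩⟩ hg.continuousOn
  exact ⟨q.1, hq.1, q.2, hq.2, fun s hs t ht => hmin ⟨hs, ht⟩⟩

private theorem t2_far {p : Fin 6 → V} (hp : Embedded p) {i j : Fin 6} (h1 : i ≠ j)
    (h2 : j ≠ i + 1) (h3 : i ≠ j + 1) : T2Pair p i j := by
  obtain ⟨a, ha, b, hb, hmin⟩ := t2_min _ (t2_cont p i j)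
  have hpos : 0 < ‖pt p i a - pt p j b‖ := by
    rw [norm_pos_iff, sub_ne_zero]
    intro h
    have h5 := t2_pt_mem p i ha
    rw [h] at h5
    exact t2_dis hp h1 h2 h3 _ h5 (t2_pt_mem p j hb)
  refine ⟨‖pt p i a - pt p j b‖⁻¹, inv_nonneg.2 hpos.le, fun k s hs t ht => ?_⟩
  have h4 : ‖pt p i a - pt p j b‖ ≤ ‖pt p i s - pt p j t‖ := hmin s hs t ht
  have h5 := t2_hat_one k i j hs ht
  rw [inv_mul_eq_div, le_div_iff₀ hpos]
  calc |hat k i s - hat k j t| * ‖pt p i a - pt p j b‖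
      ≤ 1 * ‖pt p i a - pt p j b‖ := mul_le_mul_of_nonneg_right h5 hpos.le
    _ ≤ ‖pt p i s - pt p j t‖ := by rw [one_mul]; exact h4

theorem pT2 (t1 : T1) : T2 := by
  intro p hp
  have hall : ∀ i j : Fin 6, T2Pair p i j := by
    intro i j
    by_cases h1 : i = j
    · rw [← h1]
      exact t2_self hp i
    · by_cases h2 : j = i + 1
      · rw [h2]
        exact t2_next t1 hp i
      · by_cases h3 : i = j + 1
        · rw [h3]
          exact t2_symm (t2_next t1 hp j)
        · exact t2_far hp h1 h2 h3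
  choose C hC0 hC using hall
  refine ⟨∑ i, ∑ j, C i j, Finset.sum_nonneg fun i _ => Finset.sum_nonneg fun j _ => hC0 i j,
    fun i j k s hs t ht => (hC i j k s hs t ht).trans ?_⟩
  apply mul_le_mul_of_nonneg_right _ (norm_nonneg _)
  have h1 : C i j ≤ ∑ j, C i j :=
    Finset.single_le_sum (f := fun j => C i j) (fun j _ => hC0 i j) (Finset.mem_univ j)
  have h2 : ∑ j, C i j ≤ ∑ i, ∑ j, C i j :=
    Finset.single_le_sum (f := fun i => ∑ j, C i j)
      (fun i _ => Finset.sum_nonneg fun j _ => hC0 i j) (Finset.mem_univ i)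
  exact h1.trans h2

end Pool.Agent.H223.MB
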