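import Pool.Agent.H223.MB.Stm

open scoped RealInnerProductSpace Topology
open Set Filter

namespace Pool.Agent.H223.MB

/-- small Lipschitz perturbations of the identity are homeomorphisms -/
theorem pT4 : T4 := by
  intro g K hK hg
  have happ : ApproximatesLinearOn (fun x : V => x + g x)
      ((ContinuousLinearEquiv.refl ℝ V : V ≃L[ℝ] V) : V →L[ℝ] V) univ K := by
    intro x _ y _
    have e : (x + g x) - (y + g y) - ((ContinuousLinearEquiv.refl ℝ V : V ≃L[ℝ] V) : V →L[ℝ] V)
        (x - y) = g x - g y := by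
      show (x + g x) - (y + g y) - (x - y) = g x - g y
      abel
    rw [e]
    exact hg.norm_sub_le x y
  have hc : Subsingleton V ∨
      K < ‖((ContinuousLinearEquiv.refl ℝ V).symm : V →L[ℝ] V)‖₊⁻¹ := by
    right
    have h1 : ‖((ContinuousLinearEquiv.refl ℝ V).symm : V →L[ℝ] V)‖₊ = 1 := by
      have h2 : ((ContinuousLinearEquiv.refl ℝ V).symm : V →L[ℝ] V) = ContinuousLinearMap.id ℝ V :=
        rfl
      rw [h2]
      exact NNReal.eq ContinuousLinearMap.norm_id
    rw [h1, inv_one]
    exact hK
  exact (ApproximatesLinearOn.toHomeomorph _ happ hc).isHomeomorph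

end Pool.Agent.H223.MB
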