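import Pool.Agent.H223.MB.Stm

/-!
# T5: small perturbations of an embedded hexagon are isotopic to it (helper296, for helper223)
-/

open scoped RealInnerProductSpace Topology
open Set Filter

namespace Pool.Agent.H223.MB

private noncomputable def t5b_g (φ : Fin 6 → V → ℝ) (d : Fin 6 → V) (x : V) : V :=
  ∑ k, φ k x • d k

private theorem t5b_lip (φ : Fin 6 → V → ℝ) (K : NNReal) (hφ : ∀ k, LipschitzWith K (φ k))
    (d : Fin 6 → V) (x y : V) :
    ‖t5b_g φ d x - t5b_g φ d y‖ ≤ (K * ∑ k, ‖d k‖) * ‖x - y‖ := by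
  unfold t5b_g
  rw [← Finset.sum_sub_distrib]
  refine (norm_sum_le _ _).trans ?_
  rw [Finset.mul_sum, Finset.sum_mul]
  refine Finset.sum_le_sum (fun k _ => ?_)
  rw [← sub_smul, norm_smul]
  have h1 := (hφ k).dist_le_mul x y
  rw [dist_eq_norm, dist_eq_norm] at h1
  calc ‖φ k x - φ k y‖ * ‖d k‖ ≤ (K * ‖x - y‖) * ‖d k‖ :=
        mul_le_mul_of_nonneg_right h1 (norm_nonneg _)
    _ = K * ‖d k‖ * ‖x - y‖ := by ring

private theorem t5b_hat (d : Fin 6 → V) (i : Fin 6) (s : ℝ) :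
    ∑ k, hat k i s • d k = (1 - s) • d i + s • d (i + 1) := by
  unfold hat
  simp only [add_smul, ite_smul, zero_smul, Finset.sum_add_distrib, Finset.sum_ite_eq',
    Finset.mem_univ, if_true]

private theorem t5b_edge (p : Fin 6 → V) (i : Fin 6) : edge p i = pt p i '' Icc 0 1 := by
  unfold edge
  rw [segment_eq_image]
  rfl

private theorem t5b_pt0 (p : Fin 6 → V) (i : Fin 6) : pt p i 0 = p i := by
  unfold pt
  simp

/-- T5 -/
theorem pT5 (t3 : T3) (t4 : T4) : T5 := by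
  intro p hp
  obtain ⟨φ, K, hφ, hhat⟩ := t3 p hp
  have hev : ∀ᶠ q in 𝓝 p, (K : ℝ) * ∑ k, ‖q k - p k‖ < 1 := by
    have hc : Continuous (fun q : Fin 6 → V => (K : ℝ) * ∑ k, ‖q k - p k‖) := by fun_prop
    have h0 : (K : ℝ) * ∑ k, ‖p k - p k‖ < 1 := by simp
    exact (hc.tendsto p).eventually_lt_const h0
  filter_upwards [hev] with q hq
  obtain ⟨d, hd⟩ : ∃ d : Fin 6 → V, ∀ k, d k = q k - p k := ⟨_, fun _ => rfl⟩
  simp only [← hd] at hq
  have hq0 : 0 ≤ (K : ℝ) * ∑ k, ‖d k‖ :=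
    mul_nonneg K.2 (Finset.sum_nonneg fun k _ => norm_nonneg _)
  obtain ⟨H, hH⟩ : ∃ H : ℝ → V → V, ∀ t x, H t x = x + t • t5b_g φ d x := ⟨_, fun _ _ => rfl⟩
  have hhom : ∀ t ∈ Icc (0 : ℝ) 1, IsHomeomorph (H t) := by
    intro t ht
    have h1 := t4 (fun x => t • t5b_g φ d x) ⟨(K : ℝ) * ∑ k, ‖d k‖, hq0⟩ hq ?_
    · have h2 : H t = fun x => x + t • t5b_g φ d x := funext (hH t)
      rw [h2]
      exact h1
    · refine LipschitzWith.of_dist_le_mul (fun x y => ?_)
      rw [dist_eq_norm, dist_eq_norm, ← smul_sub, norm_smul, Real.norm_of_nonneg ht.1]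
      have h2 := t5b_lip φ K hφ d x y
      calc t * ‖t5b_g φ d x - t5b_g φ d y‖ ≤ 1 * ‖t5b_g φ d x - t5b_g φ d y‖ :=
            mul_le_mul_of_nonneg_right ht.2 (norm_nonneg _)
        _ ≤ _ := by rw [one_mul]; exact h2
  have hH1 : ∀ i, ∀ s ∈ Icc (0 : ℝ) 1, H 1 (pt p i s) = pt q i s := by
    intro i s hs
    rw [hH]
    unfold t5b_g
    simp only [hhat _ i s hs]
    rw [t5b_hat, hd, hd]
    unfold pt
    module
  have hHp : ∀ k, H 1 (p k) = q k := by
    intro k
    have h1 := hH1 k 0 ⟨le_rfl, zero_le_one⟩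
    rw [t5b_pt0, t5b_pt0] at h1
    exact h1
  have hinj : Function.Injective (H 1) := (hhom 1 ⟨zero_le_one, le_rfl⟩).injective
  have hedge : ∀ i, H 1 '' edge p i = edge q i := by
    intro i
    rw [t5b_edge, t5b_edge, image_image]
    exact image_congr (hH1 i)
  refine ⟨⟨?_, ?_⟩, H, ?_, hhom, ?_, ?_⟩
  · intro a b hab
    rw [← hHp a, ← hHp b] at hab
    exact hp.1 (hinj hab)
  · rintro i j hij x ⟨hx1, hx2⟩
    rw [← hedge i] at hx1
    rw [← hedge j] at hx2
    obtain ⟨a, ha, rfl⟩ := hx1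
    obtain ⟨b, hb, hab⟩ := hx2
    have hba : b = a := hinj hab
    subst hba
    obtain ⟨h1, h2⟩ := hp.2 i j hij ⟨ha, hb⟩
    constructor
    · rcases h1 with h | h
      · left; rw [h, hHp]
      · right
        rw [mem_singleton_iff] at h
        rw [h, hHp]
        rfl
    · rcases h2 with h | h
      · left; rw [h, hHp]
      · right
        rw [mem_singleton_iff] at h
        rw [h, hHp]
        rfl
  · refine Continuous.continuousOn ?_
    simp only [hH]
    unfold t5b_g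
    have hc : ∀ k, Continuous (φ k) := fun k => (hφ k).continuous
    fun_prop
  · intro x
    rw [hH, zero_smul, add_zero]
  · unfold trace
    rw [image_iUnion]
    exact iUnion_congr hedge

end Pool.Agent.H223.MB
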