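import Pool.Agent.H223.MB.Stm

/-! T5: small perturbations of an embedded hexagon are isotopic to it. -/

open scoped RealInnerProductSpace Topology
open Set Filter

namespace Pool.Agent.H223.MB

private lemma t5c_sum (v : Fin 6 → V) (i : Fin 6) (s : ℝ) :
    ∑ k, hat k i s • v k = (1 - s) • v i + s • v (i + 1) := by
  unfold hat
  simp only [add_smul, Finset.sum_add_distrib, ite_smul, zero_smul, Finset.sum_ite_eq',
    Finset.mem_univ, if_true]

private lemma t5c_edge (p : Fin 6 → V) (i : Fin 6) : edge p i = pt p i '' Icc (0 : ℝ) 1 := by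
  unfold edge
  rw [segment_eq_image]
  rfl

private lemma t5c_lip (φ : Fin 6 → V → ℝ) (K : NNReal) (hK : ∀ k, LipschitzWith K (φ k))
    (v : Fin 6 → V) (t : ℝ) (ht0 : 0 ≤ t) (ht1 : t ≤ 1) :
    LipschitzWith (K * ∑ k, ‖v k‖₊) (fun x : V => t • ∑ k, φ k x • v k) := by
  apply LipschitzWith.of_dist_le_mul
  intro x y
  rw [dist_eq_norm, ← smul_sub, ← Finset.sum_sub_distrib, norm_smul, Real.norm_eq_abs,
    abs_of_nonneg ht0]
  have h1 : ‖∑ k, (φ k x • v k - φ k y • v k)‖ ≤ ∑ k, (K : ℝ) * dist x y * ‖v k‖ := by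
    refine (norm_sum_le _ _).trans (Finset.sum_le_sum fun k _ => ?_)
    rw [← sub_smul, norm_smul]
    have h2 := (hK k).dist_le_mul x y
    rw [Real.dist_eq] at h2
    rw [Real.norm_eq_abs]
    exact mul_le_mul_of_nonneg_right h2 (norm_nonneg _)
  have h3 : ∑ k, (K : ℝ) * dist x y * ‖v k‖ =
      ((K * ∑ k, ‖v k‖₊ : NNReal) : ℝ) * dist x y := by
    rw [← Finset.mul_sum]
    push_cast
    ring
  rw [← h3]
  have h4 : 0 ≤ ‖∑ k, (φ k x • v k - φ k y • v k)‖ := norm_nonneg _
  calc t * ‖∑ k, (φ k x • v k - φ k y • v k)‖ ≤ 1 * ‖∑ k, (φ k x • v k - φ k y • v k)‖ :=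
        mul_le_mul_of_nonneg_right ht1 h4
    _ ≤ _ := by rw [one_mul]; exact h1

theorem pT5 (t3 : T3) (t4 : T4) : T5 := by
  intro p hp
  obtain ⟨φ, K, hK, hφ⟩ := t3 p hp
  have hev : ∀ᶠ q in 𝓝 p, K * ∑ k, ‖q k - p k‖₊ < 1 := by
    have hc : Continuous (fun q : Fin 6 → V => K * ∑ k, ‖q k - p k‖₊) := by
      fun_prop
    have h0 : K * ∑ k, ‖p k - p k‖₊ < 1 := by
      simp
    exact (hc.tendsto p).eventually_lt_const h0
  filter_upwards [hev] with q hq
  set v : Fin 6 → V := fun k => q k - p k with hv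
  set H : ℝ → V → V := fun t x => x + t • ∑ k, φ k x • v k with hH
  have hφc : ∀ k, Continuous (φ k) := fun k => (hK k).continuous
  have hhom : ∀ t ∈ Icc (0 : ℝ) 1, IsHomeomorph (H t) := by
    intro t ht
    exact t4 (fun x => t • ∑ k, φ k x • v k) (K * ∑ k, ‖v k‖₊) hq
      (t5c_lip φ K hK v t ht.1 ht.2)
  have hcont : Continuous (fun z : ℝ × V => H z.1 z.2) := by
    simp only [hH]
    refine continuous_snd.add (continuous_fst.smul (continuous_finsetSum _ fun k _ => ?_))
    exact ((hφc k).comp continuous_snd).smul continuous_const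
  have hpt : ∀ i : Fin 6, ∀ s ∈ Icc (0 : ℝ) 1, H 1 (pt p i s) = pt q i s := by
    intro i s hs
    simp only [hH, one_smul]
    have h1 : ∑ k, φ k (pt p i s) • v k = ∑ k, hat k i s • v k :=
      Finset.sum_congr rfl fun k _ => by rw [hφ k i s hs]
    rw [h1, t5c_sum]
    simp only [hv, pt, smul_sub]
    abel
  have hvert : ∀ i : Fin 6, H 1 (p i) = q i := by
    intro i
    have h1 := hpt i 0 (left_mem_Icc.mpr zero_le_one)
    simpa [pt] using h1
  have hinj : Function.Injective (H 1) := (hhom 1 (right_mem_Icc.mpr zero_le_one)).injective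
  have hedge : ∀ i : Fin 6, H 1 '' edge p i = edge q i := by
    intro i
    rw [t5c_edge, t5c_edge, image_image]
    exact image_congr (hpt i)
  refine ⟨⟨?_, ?_⟩, H, hcont.continuousOn, hhom, ?_, ?_⟩
  · intro k l hkl
    apply hp.1
    apply hinj
    rw [hvert, hvert, hkl]
  · intro i j hij x hx
    obtain ⟨hx1, hx2⟩ := hx
    rw [← hedge i] at hx1
    rw [← hedge j] at hx2
    obtain ⟨y, hy, rfl⟩ := hx1
    obtain ⟨z, hz, hzy⟩ := hx2
    have hyz : z = y := hinj hzy
    subst hyz
    obtain ⟨h1, h2⟩ := hp.2 i j hij ⟨hy, hz⟩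
    constructor
    · rcases h1 with h | h
      · left; rw [h, hvert]
      · right
        rw [mem_singleton_iff] at h ⊢
        rw [h, hvert]
    · rcases h2 with h | h
      · left; rw [h, hvert]
      · right
        rw [mem_singleton_iff] at h ⊢
        rw [h, hvert]
  · intro x
    simp only [hH, zero_smul, add_zero]
  · unfold trace
    rw [image_iUnion]
    exact iUnion_congr hedge

end Pool.Agent.H223.MB
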