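import Pool.Agent.H223.MB.Stm

/-!
# T5: small perturbations of an embedded hexagon are isotopic to it (helper457 for helper223)
-/

open scoped RealInnerProductSpace Topology
open Set Filter

namespace Pool.Agent.H223.MB

private theorem t5_edge (p : Fin 6 → V) (i : Fin 6) : edge p i = pt p i '' Icc (0 : ℝ) 1 := by
  unfold edge
  rw [segment_eq_image]
  rfl

private theorem t5_hat (p q : Fin 6 → V) (i : Fin 6) (s : ℝ) :
    ∑ k, hat k i s • (q k - p k) = (1 - s) • (q i - p i) + s • (q (i + 1) - p (i + 1)) := by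
  unfold hat
  simp only [add_smul, Finset.sum_add_distrib, ite_smul, zero_smul, Finset.sum_ite_eq',
    Finset.mem_univ, if_true]

theorem pT5 (t3 : T3) (t4 : T4) : T5 := by
  intro p hp
  obtain ⟨φ, K, hφL, hφ⟩ := t3 p hp
  have hc : Continuous fun q : Fin 6 → V => (K : ℝ) * ∑ k, ‖q k - p k‖ := by fun_prop
  have h0 : (K : ℝ) * ∑ k, ‖p k - p k‖ < 1 := by simp
  filter_upwards [(hc.tendsto p).eventually_lt_const h0] with q hq
  obtain ⟨D, hD⟩ : ∃ D : V → V, D = fun x => ∑ k, φ k x • (q k - p k) := ⟨_, rfl⟩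
  obtain ⟨κ, hκ⟩ : ∃ κ : NNReal, κ = K * ∑ k, ‖q k - p k‖₊ := ⟨_, rfl⟩
  have hκr : (κ : ℝ) = (K : ℝ) * ∑ k, ‖q k - p k‖ := by
    rw [hκ]
    push_cast
    rfl
  have hκ1 : κ < 1 := by
    rw [← NNReal.coe_lt_coe, hκr, NNReal.coe_one]
    exact hq
  have hDl : ∀ x y : V, ‖D x - D y‖ ≤ κ * ‖x - y‖ := by
    intro x y
    have e : D x - D y = ∑ k, (φ k x - φ k y) • (q k - p k) := by
      rw [hD]
      simp only
      rw [← Finset.sum_sub_distrib]
      refine Finset.sum_congr rfl fun k _ => ?_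
      rw [sub_smul]
    rw [e, hκr, Finset.mul_sum, Finset.sum_mul]
    refine (norm_sum_le _ _).trans (Finset.sum_le_sum fun k _ => ?_)
    rw [norm_smul]
    have h1 := (hφL k).dist_le_mul x y
    rw [dist_eq_norm, dist_eq_norm] at h1
    calc ‖φ k x - φ k y‖ * ‖q k - p k‖ ≤ (K * ‖x - y‖) * ‖q k - p k‖ :=
          mul_le_mul_of_nonneg_right h1 (norm_nonneg _)
      _ = _ := by ring
  have hLip : ∀ t ∈ Icc (0 : ℝ) 1, LipschitzWith κ (fun x => t • D x) := by
    intro t ht
    refine LipschitzWith.of_dist_le_mul fun x y => ?_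
    rw [dist_eq_norm, dist_eq_norm, ← smul_sub, norm_smul, Real.norm_eq_abs, abs_of_nonneg ht.1]
    calc t * ‖D x - D y‖ ≤ 1 * ‖D x - D y‖ := mul_le_mul_of_nonneg_right ht.2 (norm_nonneg _)
      _ = ‖D x - D y‖ := one_mul _
      _ ≤ _ := hDl x y
  have hDc : Continuous D := by
    have h1 := (hLip 1 ⟨zero_le_one, le_rfl⟩).continuous
    simpa using h1
  obtain ⟨H, hH⟩ : ∃ H : ℝ → V → V, H = fun t x => x + t • D x := ⟨_, rfl⟩
  have hHh : ∀ t ∈ Icc (0 : ℝ) 1, IsHomeomorph (H t) := by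
    intro t ht
    rw [hH]
    exact t4 (fun x => t • D x) κ hκ1 (hLip t ht)
  have hH1 : ∀ i, ∀ s ∈ Icc (0 : ℝ) 1, H 1 (pt p i s) = pt q i s := by
    intro i s hs
    have h1 : D (pt p i s) = (1 - s) • (q i - p i) + s • (q (i + 1) - p (i + 1)) := by
      rw [← t5_hat, hD]
      refine Finset.sum_congr rfl fun k _ => ?_
      rw [hφ k i s hs]
    rw [hH]
    simp only
    rw [h1, one_smul]
    unfold pt
    rw [smul_sub, smul_sub]
    abel
  have hinj : Function.Injective (H 1) := (hHh 1 ⟨zero_le_one, le_rfl⟩).injective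
  have hv : ∀ k, H 1 (p k) = q k := by
    intro k
    have h1 := hH1 k 0 ⟨le_rfl, zero_le_one⟩
    have e : ∀ r : Fin 6 → V, pt r k 0 = r k := by
      intro r
      unfold pt
      simp
    rwa [e, e] at h1
  have hedge : ∀ i, H 1 '' edge p i = edge q i := by
    intro i
    rw [t5_edge, t5_edge, Set.image_image]
    exact Set.image_congr fun s hs => hH1 i s hs
  have htr : H 1 '' trace p = trace q := by
    unfold trace
    rw [Set.image_iUnion]
    exact Set.iUnion_congr hedge
  refine ⟨⟨?_, ?_⟩, H, ?_, hHh, ?_, htr⟩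
  · intro i j hij
    rw [← hv i, ← hv j] at hij
    exact hp.1 (hinj hij)
  · intro i j hij
    rw [← hedge i, ← hedge j, ← Set.image_inter hinj]
    rintro _ ⟨x, hx, rfl⟩
    obtain ⟨hx1, hx2⟩ := hp.2 i j hij hx
    refine ⟨?_, ?_⟩
    · rcases hx1 with h | h
      · left
        rw [h, hv]
      · right
        rw [Set.mem_singleton_iff] at h ⊢
        rw [h, hv]
    · rcases hx2 with h | h
      · left
        rw [h, hv]
      · right
        rw [Set.mem_singleton_iff] at h ⊢
        rw [h, hv]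
  · rw [hH]
    exact (by fun_prop : Continuous fun q : ℝ × V => q.2 + q.1 • D q.2).continuousOn
  · intro x
    rw [hH]
    simp

end Pool.Agent.H223.MB
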