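import Pool.Agent.H223.MB.Stm2

/-!
# Concyclic embedded hexagons are isotopic to regular plane hexagons (MB-UNK)
-/

open scoped RealInnerProductSpace Topology
open Set Filter

namespace Pool.Agent.H223.MB

theorem unk_comb {a b a' b' t : ℝ} (h : a < b) (h' : a' < b') (h0 : 0 ≤ t) (h1 : t ≤ 1) :
    (1 - t) * a + t * a' < (1 - t) * b + t * b' := by
  rcases eq_or_lt_of_le h0 with h2 | h2
  · subst h2
    linarith
  · have h3 : t * a' < t * b' := mul_lt_mul_of_pos_left h' h2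
    have h4 : (1 - t) * a ≤ (1 - t) * b := mul_le_mul_of_nonneg_left h.le (by linarith)
    linarith

theorem unk_sorted_comb {θ ρ : Fin 6 → ℝ} (hθ : Sorted θ) (hρ : Sorted ρ) {t : ℝ} (h0 : 0 ≤ t)
    (h1 : t ≤ 1) : Sorted (fun i => (1 - t) * θ i + t * ρ i) := by
  obtain ⟨a1, a2, a3, a4, a5, a6⟩ := hθ
  obtain ⟨b1, b2, b3, b4, b5, b6⟩ := hρ
  refine ⟨unk_comb a1 b1 h0 h1, unk_comb a2 b2 h0 h1, unk_comb a3 b3 h0 h1, unk_comb a4 b4 h0 h1,
    unk_comb a5 b5 h0 h1, ?_⟩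
  have h2 := unk_comb a6 b6 h0 h1
  show (1 - t) * θ 5 + t * ρ 5 < (1 - t) * θ 0 + t * ρ 0 + 2 * Real.pi
  linarith

theorem unk_sorted_reg : Sorted (fun i : Fin 6 => (i : ℝ) * (Real.pi / 3)) := by
  have hpi := Real.pi_pos
  have e0 : (((0 : Fin 6) : ℕ) : ℝ) = 0 := by
    have : ((0 : Fin 6) : ℕ) = 0 := rfl
    rw [this]
    norm_num
  have e1 : (((1 : Fin 6) : ℕ) : ℝ) = 1 := by
    have : ((1 : Fin 6) : ℕ) = 1 := rfl
    rw [this]
    norm_num
  have e2 : (((2 : Fin 6) : ℕ) : ℝ) = 2 := by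
    have : ((2 : Fin 6) : ℕ) = 2 := rfl
    rw [this]
    norm_num
  have e3 : (((3 : Fin 6) : ℕ) : ℝ) = 3 := by
    have : ((3 : Fin 6) : ℕ) = 3 := rfl
    rw [this]
    norm_num
  have e4 : (((4 : Fin 6) : ℕ) : ℝ) = 4 := by
    have : ((4 : Fin 6) : ℕ) = 4 := rfl
    rw [this]
    norm_num
  have e5 : (((5 : Fin 6) : ℕ) : ℝ) = 5 := by
    have : ((5 : Fin 6) : ℕ) = 5 := rfl
    rw [this]
    norm_num
  refine ⟨?_, ?_, ?_, ?_, ?_, ?_⟩
  · show (((0 : Fin 6) : ℕ) : ℝ) * (Real.pi / 3) < (((1 : Fin 6) : ℕ) : ℝ) * (Real.pi / 3)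
    rw [e0, e1]
    linarith
  · show (((1 : Fin 6) : ℕ) : ℝ) * (Real.pi / 3) < (((2 : Fin 6) : ℕ) : ℝ) * (Real.pi / 3)
    rw [e1, e2]
    linarith
  · show (((2 : Fin 6) : ℕ) : ℝ) * (Real.pi / 3) < (((3 : Fin 6) : ℕ) : ℝ) * (Real.pi / 3)
    rw [e2, e3]
    linarith
  · show (((3 : Fin 6) : ℕ) : ℝ) * (Real.pi / 3) < (((4 : Fin 6) : ℕ) : ℝ) * (Real.pi / 3)
    rw [e3, e4]
    linarith
  · show (((4 : Fin 6) : ℕ) : ℝ) * (Real.pi / 3) < (((5 : Fin 6) : ℕ) : ℝ) * (Real.pi / 3)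
    rw [e4, e5]
    linarith
  · show (((5 : Fin 6) : ℕ) : ℝ) * (Real.pi / 3) <
      (((0 : Fin 6) : ℕ) : ℝ) * (Real.pi / 3) + 2 * Real.pi
    rw [e0, e5]
    linarith

theorem unk_main (pathl : PATHL) (conv : CONV) (c : V) (R : ℝ) (e₁ e₂ : V) (θ : Fin 6 → ℝ)
    (hR : 0 < R) (hon : ON e₁ e₂) (hθ : Sorted θ) :
    AmbientIsotopic (trace (circ c R e₁ e₂ θ))
      (trace (circ c R e₁ e₂ (fun i => (i : ℝ) * (Real.pi / 3)))) := by
  have h1 := pathl (fun t => circ c R e₁ e₂ (fun i => (1 - t) * θ i + t * ((i : ℝ) * (Real.pi / 3))))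
    (by
      refine Continuous.continuousOn ?_
      refine continuous_pi fun i => ?_
      unfold circ
      fun_prop)
    (fun t ht => conv c R e₁ e₂ _ hR hon (unk_sorted_comb hθ unk_sorted_reg ht.1 ht.2))
  have h2 : circ c R e₁ e₂ (fun i => (1 - (0 : ℝ)) * θ i + 0 * ((i : ℝ) * (Real.pi / 3))) =
      circ c R e₁ e₂ θ := by
    congr 1
    funext i
    ring
  have h3 : circ c R e₁ e₂ (fun i => (1 - (1 : ℝ)) * θ i + 1 * ((i : ℝ) * (Real.pi / 3))) =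
      circ c R e₁ e₂ (fun i => (i : ℝ) * (Real.pi / 3)) := by
    congr 1
    funext i
    ring
  have h4 : AmbientIsotopic
      (trace (circ c R e₁ e₂ (fun i => (1 - (0 : ℝ)) * θ i + 0 * ((i : ℝ) * (Real.pi / 3)))))
      (trace (circ c R e₁ e₂ (fun i => (1 - (1 : ℝ)) * θ i + 1 * ((i : ℝ) * (Real.pi / 3))))) := h1
  rw [h2, h3] at h4
  exact h4

theorem unk_flip (c : V) (R : ℝ) (e₁ e₂ : V) (φ : Fin 6 → ℝ) (h0 : φ 0 = 0) :
    circ c R e₁ (-e₂) (fun i => if i = 0 then 0 else 2 * Real.pi - φ i) = circ c R e₁ e₂ φ := by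
  funext i
  unfold circ
  by_cases hi : i = 0
  · subst hi
    simp only [if_true, h0, Real.sin_zero, mul_zero, zero_smul]
  · simp only [if_neg hi, Real.cos_two_pi_sub, Real.sin_two_pi_sub, mul_neg, neg_smul, smul_neg,
      neg_neg]

theorem pUNK (ai : AI) (pathl : PATHL) (ord1 : ORD1) (ord2 : ORD2) (conv : CONV) : UNK := by
  intro p hp hcon
  obtain ⟨c, R, e₁, e₂, φ, hR, hon, h0, hφ, hinj, rfl⟩ := ord1 p hp.1 hcon
  have hpos : ∀ i, i ≠ 0 → 0 < φ i := by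
    intro i hi
    refine lt_of_le_of_ne (hφ i).1 fun h => hi ?_
    apply hinj
    rw [h0, ← h]
  rcases ord2 c R e₁ e₂ φ hR hon h0 hφ hinj hp with h | h
  · refine ⟨c, R, e₁, e₂, hR, hon, unk_main pathl conv c R e₁ e₂ φ hR hon ?_⟩
    refine ⟨?_, h.1, h.2.1, h.2.2.1, h.2.2.2, ?_⟩
    · rw [h0]
      exact hpos 1 (by decide)
    · rw [h0, zero_add]
      exact (hφ 5).2
  · have hon' : ON e₁ (-e₂) := by
      refine ⟨hon.1, ?_, ?_⟩
      · rw [norm_neg]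
        exact hon.2.1
      · rw [inner_neg_right, hon.2.2, neg_zero]
    refine ⟨c, R, e₁, -e₂, hR, hon', ?_⟩
    rw [← unk_flip c R e₁ e₂ φ h0]
    refine unk_main pathl conv c R e₁ (-e₂) _ hR hon' ?_
    have p1 := hpos 1 (by decide)
    have p5 := hpos 5 (by decide)
    have q1 := (hφ 1).2
    refine ⟨?_, ?_, ?_, ?_, ?_, ?_⟩
    · show (if (0 : Fin 6) = 0 then (0 : ℝ) else 2 * Real.pi - φ 0) <
        (if (1 : Fin 6) = 0 then (0 : ℝ) else 2 * Real.pi - φ 1)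
      rw [if_pos rfl, if_neg (by decide)]
      linarith
    · show (if (1 : Fin 6) = 0 then (0 : ℝ) else 2 * Real.pi - φ 1) <
        (if (2 : Fin 6) = 0 then (0 : ℝ) else 2 * Real.pi - φ 2)
      rw [if_neg (by decide), if_neg (by decide)]
      linarith [h.2.2.2]
    · show (if (2 : Fin 6) = 0 then (0 : ℝ) else 2 * Real.pi - φ 2) <
        (if (3 : Fin 6) = 0 then (0 : ℝ) else 2 * Real.pi - φ 3)
      rw [if_neg (by decide), if_neg (by decide)]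
      linarith [h.2.2.1]
    · show (if (3 : Fin 6) = 0 then (0 : ℝ) else 2 * Real.pi - φ 3) <
        (if (4 : Fin 6) = 0 then (0 : ℝ) else 2 * Real.pi - φ 4)
      rw [if_neg (by decide), if_neg (by decide)]
      linarith [h.2.1]
    · show (if (4 : Fin 6) = 0 then (0 : ℝ) else 2 * Real.pi - φ 4) <
        (if (5 : Fin 6) = 0 then (0 : ℝ) else 2 * Real.pi - φ 5)
      rw [if_neg (by decide), if_neg (by decide)]
      linarith [h.1]
    · show (if (5 : Fin 6) = 0 then (0 : ℝ) else 2 * Real.pi - φ 5) <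
        (if (0 : Fin 6) = 0 then (0 : ℝ) else 2 * Real.pi - φ 0) + 2 * Real.pi
      rw [if_pos rfl, if_neg (by decide)]
      linarith

end Pool.Agent.H223.MB
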