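import Pool.Agent.H223.MB.Stm3

open scoped RealInnerProductSpace Topology
open Set Filter

namespace Pool.Agent.H223.MB

theorem w2_a {X : Type} [TopologicalSpace X] {x y : X} (γ δ : Path x y) (k : X → X)
    (hkc : Continuous k) (hk : k = id) (H : Path.Homotopic (γ.map hkc) (δ.map hkc)) :
    Path.Homotopic γ δ := by
  subst hk
  exact H

theorem w2_inj {X Y : Type} [TopologicalSpace X] [TopologicalSpace Y] (e : X ≃ₜ Y) (x : X) :
    Function.Injective (FundamentalGroup.map (⟨e, e.continuous⟩ : C(X, Y)) x) := by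
  intro p q hpq
  induction p, q using Quotient.inductionOn₂ with
  | _ γ δ =>
    have h1 : Path.Homotopic (γ.map e.continuous) (δ.map e.continuous) := Quotient.exact hpq
    have h2 := h1.map (⟨e.symm, e.symm.continuous⟩ : C(Y, X))
    refine Quotient.sound (w2_a γ δ (e.symm ∘ e) (e.symm.continuous.comp e.continuous) ?_ h2)
    funext z
    exact e.symm_apply_apply z

theorem w2_nc {X Y : Type} [TopologicalSpace X] [TopologicalSpace Y] (e : X ≃ₜ Y)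
    (h : ∃ (x : X) (α β : FundamentalGroup X x), α * β ≠ β * α) :
    ∃ (y : Y) (α β : FundamentalGroup Y y), α * β ≠ β * α := by
  obtain ⟨x, α, β, hne⟩ := h
  refine ⟨e x, FundamentalGroup.map (⟨e, e.continuous⟩ : C(X, Y)) x α,
    FundamentalGroup.map (⟨e, e.continuous⟩ : C(X, Y)) x β, fun heq => hne ?_⟩
  rw [← map_mul, ← map_mul] at heq
  exact w2_inj e x heq

/-- the coordinates -/
noncomputable def w2_e : V ≃ₜ ℝ × ℝ × ℝ where
  toFun v := (v 0, v 1, v 2)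
  invFun p := !₂[p.1, p.2.1, p.2.2]
  left_inv v := by
    ext i
    fin_cases i <;> rfl
  right_inv p := rfl
  continuous_toFun := by fun_prop
  continuous_invFun := by
    refine (PiLp.continuous_toLp 2 _).comp (continuous_pi fun i => ?_)
    fin_cases i
    · exact continuous_fst
    · exact continuous_fst.comp continuous_snd
    · exact continuous_snd.comp continuous_snd

theorem w2_seg (a0 a1 a2 b0 b1 b2 : ℝ) (p : V) :
    p ∈ segment ℝ (!₂[a0, a1, a2] : V) !₂[b0, b1, b2] ↔ ∃ θ : ℝ, 0 ≤ θ ∧ θ ≤ 1 ∧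
      p 0 = (1 - θ) * a0 + θ * b0 ∧ p 1 = (1 - θ) * a1 + θ * b1 ∧ p 2 = (1 - θ) * a2 + θ * b2 := by
  rw [segment_eq_image]
  constructor
  · rintro ⟨θ, ⟨h0, h1⟩, rfl⟩
    exact ⟨θ, h0, h1, rfl, rfl, rfl⟩
  · rintro ⟨θ, h0, h1, e0, e1, e2⟩
    refine ⟨θ, ⟨h0, h1⟩, ?_⟩
    ext i
    fin_cases i
    · exact e0.symm
    · exact e1.symm
    · exact e2.symm

theorem w2_mem (p : V) : p ∈ trace tref ↔ w2_e p ∈ TT := by
  have hT : w2_e p ∈ TT ↔ (p 0 = 0 ∧ 0 ≤ p 1 ∧ p 1 ≤ 2 ∧ p 2 = p 1 / 2) ∨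
       (0 ≤ p 0 ∧ p 0 ≤ 3 ∧ p 1 = 2 ∧ p 2 = 1 - p 0 / 3) ∨
       (1 ≤ p 0 ∧ p 0 ≤ 3 ∧ p 1 = p 0 - 1 ∧ p 2 = (3 - p 0) / 2) ∨
       (p 0 = 1 ∧ 0 ≤ p 1 ∧ p 1 ≤ 3 ∧ p 2 = 1 - p 1 / 3) ∨
       (1 ≤ p 0 ∧ p 0 ≤ 3 ∧ p 1 = 3 ∧ p 2 = (p 0 - 1) / 2) ∨
       (0 ≤ p 0 ∧ p 0 ≤ 3 ∧ p 1 = p 0 ∧ p 2 = p 0 / 3) := Iff.rfl
  rw [hT]
  unfold trace
  rw [mem_iUnion]
  constructor
  · rintro ⟨i, hi⟩
    fin_cases i
    · have h := (w2_seg 0 0 0 0 2 1 p).1 hi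
      obtain ⟨θ, h0, h1, e0, e1, e2⟩ := h
      left
      refine ⟨?_, ?_, ?_, ?_⟩ <;> linarith
    · have h := (w2_seg 0 2 1 3 2 0 p).1 hi
      obtain ⟨θ, h0, h1, e0, e1, e2⟩ := h
      right; left
      refine ⟨?_, ?_, ?_, ?_⟩ <;> linarith
    · have h := (w2_seg 3 2 0 1 0 1 p).1 hi
      obtain ⟨θ, h0, h1, e0, e1, e2⟩ := h
      right; right; left
      refine ⟨?_, ?_, ?_, ?_⟩ <;> linarith
    · have h := (w2_seg 1 0 1 1 3 0 p).1 hi
      obtain ⟨θ, h0, h1, e0, e1, e2⟩ := h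
      right; right; right; left
      refine ⟨?_, ?_, ?_, ?_⟩ <;> linarith
    · have h := (w2_seg 1 3 0 3 3 1 p).1 hi
      obtain ⟨θ, h0, h1, e0, e1, e2⟩ := h
      right; right; right; right; left
      refine ⟨?_, ?_, ?_, ?_⟩ <;> linarith
    · have h := (w2_seg 3 3 1 0 0 0 p).1 hi
      obtain ⟨θ, h0, h1, e0, e1, e2⟩ := h
      right; right; right; right; right
      refine ⟨?_, ?_, ?_, ?_⟩ <;> linarith
  · rintro (⟨h0, h1, h2, h3⟩ | ⟨h0, h1, h2, h3⟩ | ⟨h0, h1, h2, h3⟩ | ⟨h0, h1, h2, h3⟩ |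
      ⟨h0, h1, h2, h3⟩ | ⟨h0, h1, h2, h3⟩)
    · exact ⟨0, (w2_seg 0 0 0 0 2 1 p).2 ⟨p 1 / 2, by linarith, by linarith, by linarith,
        by linarith, by linarith⟩⟩
    · exact ⟨1, (w2_seg 0 2 1 3 2 0 p).2 ⟨p 0 / 3, by linarith, by linarith, by linarith,
        by linarith, by linarith⟩⟩
    · exact ⟨2, (w2_seg 3 2 0 1 0 1 p).2 ⟨(3 - p 0) / 2, by linarith, by linarith, by linarith,
        by linarith, by linarith⟩⟩
    · exact ⟨3, (w2_seg 1 0 1 1 3 0 p).2 ⟨p 1 / 3, by linarith, by linarith, by linarith,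
        by linarith, by linarith⟩⟩
    · exact ⟨4, (w2_seg 1 3 0 3 3 1 p).2 ⟨(p 0 - 1) / 2, by linarith, by linarith, by linarith,
        by linarith, by linarith⟩⟩
    · exact ⟨5, (w2_seg 3 3 1 0 0 0 p).2 ⟨1 - p 0 / 3, by linarith, by linarith, by linarith,
        by linarith, by linarith⟩⟩

theorem pW2 : W2 := by
  intro h
  exact w2_nc (w2_e.subtype fun p => not_congr (w2_mem p)).symm h

end Pool.Agent.H223.MB
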