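import Pool.Agent.H223.MB.Stm3

open scoped RealInnerProductSpace Topology
open Set Filter

namespace Pool.Agent.H223.MB

theorem w3_coord {a b : ℝ} {u v : V} (i : Fin 3) : (a • u + b • v) i = a * u i + b * v i := by
  simp

theorem w3_t00 : tref 0 0 = 0 := by simp [tref]
theorem w3_t01 : tref 0 1 = 0 := by simp [tref]
theorem w3_t02 : tref 0 2 = 0 := by simp [tref]
theorem w3_t10 : tref 1 0 = 0 := by simp [tref]
theorem w3_t11 : tref 1 1 = 2 := by simp [tref]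
theorem w3_t12 : tref 1 2 = 1 := by simp [tref]
theorem w3_t20 : tref 2 0 = 3 := by simp [tref]
theorem w3_t21 : tref 2 1 = 2 := by simp [tref]
theorem w3_t22 : tref 2 2 = 0 := by simp [tref]
theorem w3_t30 : tref 3 0 = 1 := by simp [tref]
theorem w3_t31 : tref 3 1 = 0 := by simp [tref]
theorem w3_t32 : tref 3 2 = 1 := by simp [tref]
theorem w3_t40 : tref 4 0 = 1 := by simp [tref]
theorem w3_t41 : tref 4 1 = 3 := by simp [tref]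
theorem w3_t42 : tref 4 2 = 0 := by simp [tref]
theorem w3_t50 : tref 5 0 = 3 := by simp [tref]
theorem w3_t51 : tref 5 1 = 3 := by simp [tref]
theorem w3_t52 : tref 5 2 = 1 := by simp [tref]

theorem w3_v0 {x : V} (h0 : x 0 = 0) (h1 : x 1 = 0) (h2 : x 2 = 0) : x = tref 0 := by
  ext k
  fin_cases k
  · exact h0.trans w3_t00.symm
  · exact h1.trans w3_t01.symm
  · exact h2.trans w3_t02.symm

theorem w3_v1 {x : V} (h0 : x 0 = 0) (h1 : x 1 = 2) (h2 : x 2 = 1) : x = tref 1 := by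
  ext k
  fin_cases k
  · exact h0.trans w3_t10.symm
  · exact h1.trans w3_t11.symm
  · exact h2.trans w3_t12.symm

theorem w3_v2 {x : V} (h0 : x 0 = 3) (h1 : x 1 = 2) (h2 : x 2 = 0) : x = tref 2 := by
  ext k
  fin_cases k
  · exact h0.trans w3_t20.symm
  · exact h1.trans w3_t21.symm
  · exact h2.trans w3_t22.symm

theorem w3_v3 {x : V} (h0 : x 0 = 1) (h1 : x 1 = 0) (h2 : x 2 = 1) : x = tref 3 := by
  ext k
  fin_cases k
  · exact h0.trans w3_t30.symm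
  · exact h1.trans w3_t31.symm
  · exact h2.trans w3_t32.symm

theorem w3_v4 {x : V} (h0 : x 0 = 1) (h1 : x 1 = 3) (h2 : x 2 = 0) : x = tref 4 := by
  ext k
  fin_cases k
  · exact h0.trans w3_t40.symm
  · exact h1.trans w3_t41.symm
  · exact h2.trans w3_t42.symm

theorem w3_v5 {x : V} (h0 : x 0 = 3) (h1 : x 1 = 3) (h2 : x 2 = 1) : x = tref 5 := by
  ext k
  fin_cases k
  · exact h0.trans w3_t50.symm
  · exact h1.trans w3_t51.symm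
  · exact h2.trans w3_t52.symm

theorem w3_e0 {x : V} (h : x ∈ edge tref 0) : x 0 = 0 ∧ 0 ≤ x 1 ∧ x 1 ≤ 2 ∧ x 2 = x 1 / 2 := by
  obtain ⟨a, b, ha, hb, hab, rfl⟩ := h
  have e : (0 : Fin 6) + 1 = 1 := rfl
  rw [e]
  simp only [w3_coord, w3_t00, w3_t01, w3_t02, w3_t10, w3_t11, w3_t12]
  refine ⟨?_, ?_, ?_, ?_⟩ <;> linarith

theorem w3_e1 {x : V} (h : x ∈ edge tref 1) : x 1 = 2 ∧ 0 ≤ x 0 ∧ x 0 ≤ 3 ∧ x 2 = 1 - x 0 / 3 := by
  obtain ⟨a, b, ha, hb, hab, rfl⟩ := h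
  have e : (1 : Fin 6) + 1 = 2 := rfl
  rw [e]
  simp only [w3_coord, w3_t10, w3_t11, w3_t12, w3_t20, w3_t21, w3_t22]
  refine ⟨?_, ?_, ?_, ?_⟩ <;> linarith

theorem w3_e2 {x : V} (h : x ∈ edge tref 2) : x 1 = x 0 - 1 ∧ 1 ≤ x 0 ∧ x 0 ≤ 3 ∧ x 2 = (3 - x 0) / 2 := by
  obtain ⟨a, b, ha, hb, hab, rfl⟩ := h
  have e : (2 : Fin 6) + 1 = 3 := rfl
  rw [e]
  simp only [w3_coord, w3_t20, w3_t21, w3_t22, w3_t30, w3_t31, w3_t32]
  refine ⟨?_, ?_, ?_, ?_⟩ <;> linarith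

theorem w3_e3 {x : V} (h : x ∈ edge tref 3) : x 0 = 1 ∧ 0 ≤ x 1 ∧ x 1 ≤ 3 ∧ x 2 = 1 - x 1 / 3 := by
  obtain ⟨a, b, ha, hb, hab, rfl⟩ := h
  have e : (3 : Fin 6) + 1 = 4 := rfl
  rw [e]
  simp only [w3_coord, w3_t30, w3_t31, w3_t32, w3_t40, w3_t41, w3_t42]
  refine ⟨?_, ?_, ?_, ?_⟩ <;> linarith

theorem w3_e4 {x : V} (h : x ∈ edge tref 4) : x 1 = 3 ∧ 1 ≤ x 0 ∧ x 0 ≤ 3 ∧ x 2 = (x 0 - 1) / 2 := by
  obtain ⟨a, b, ha, hb, hab, rfl⟩ := h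
  have e : (4 : Fin 6) + 1 = 5 := rfl
  rw [e]
  simp only [w3_coord, w3_t40, w3_t41, w3_t42, w3_t50, w3_t51, w3_t52]
  refine ⟨?_, ?_, ?_, ?_⟩ <;> linarith

theorem w3_e5 {x : V} (h : x ∈ edge tref 5) : x 1 = x 0 ∧ 0 ≤ x 0 ∧ x 0 ≤ 3 ∧ x 2 = x 0 / 3 := by
  obtain ⟨a, b, ha, hb, hab, rfl⟩ := h
  have e : (5 : Fin 6) + 1 = 0 := rfl
  rw [e]
  simp only [w3_coord, w3_t50, w3_t51, w3_t52, w3_t00, w3_t01, w3_t02]
  refine ⟨?_, ?_, ?_, ?_⟩ <;> first | linarith | trivial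

theorem w3_adj {i j : Fin 6} {x : V} (hj : i + 1 = j) (h : x = tref j) :
    x ∈ ({tref i, tref (i + 1)} ∩ {tref j, tref (j + 1)} : Set V) := by
  subst hj
  exact ⟨Or.inr h, Or.inl h⟩

def w3_P (i j : Fin 6) : Prop :=
  edge tref i ∩ edge tref j ⊆ {tref i, tref (i + 1)} ∩ {tref j, tref (j + 1)}

theorem w3_symm {i j : Fin 6} (h : w3_P i j) : w3_P j i := by
  unfold w3_P at *
  rw [inter_comm, inter_comm {tref j, tref (j + 1)}]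
  exact h

theorem w3_q01 : w3_P 0 1 := by
  rintro x ⟨h1, h2⟩
  obtain ⟨a1, a2, a3, a4⟩ := w3_e0 h1
  obtain ⟨b1, b2, b3, b4⟩ := w3_e1 h2
  exact w3_adj rfl (w3_v1 (by linarith) (by linarith) (by linarith))

theorem w3_q02 : w3_P 0 2 := by
  rintro x ⟨h1, h2⟩
  obtain ⟨a1, a2, a3, a4⟩ := w3_e0 h1
  obtain ⟨b1, b2, b3, b4⟩ := w3_e2 h2
  exfalso
  linarith

theorem w3_q03 : w3_P 0 3 := by
  rintro x ⟨h1, h2⟩
  obtain ⟨a1, a2, a3, a4⟩ := w3_e0 h1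
  obtain ⟨b1, b2, b3, b4⟩ := w3_e3 h2
  exfalso
  linarith

theorem w3_q04 : w3_P 0 4 := by
  rintro x ⟨h1, h2⟩
  obtain ⟨a1, a2, a3, a4⟩ := w3_e0 h1
  obtain ⟨b1, b2, b3, b4⟩ := w3_e4 h2
  exfalso
  linarith

theorem w3_q12 : w3_P 1 2 := by
  rintro x ⟨h1, h2⟩
  obtain ⟨a1, a2, a3, a4⟩ := w3_e1 h1
  obtain ⟨b1, b2, b3, b4⟩ := w3_e2 h2
  exact w3_adj rfl (w3_v2 (by linarith) (by linarith) (by linarith))

theorem w3_q13 : w3_P 1 3 := by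
  rintro x ⟨h1, h2⟩
  obtain ⟨a1, a2, a3, a4⟩ := w3_e1 h1
  obtain ⟨b1, b2, b3, b4⟩ := w3_e3 h2
  exfalso
  linarith

theorem w3_q14 : w3_P 1 4 := by
  rintro x ⟨h1, h2⟩
  obtain ⟨a1, a2, a3, a4⟩ := w3_e1 h1
  obtain ⟨b1, b2, b3, b4⟩ := w3_e4 h2
  exfalso
  linarith

theorem w3_q15 : w3_P 1 5 := by
  rintro x ⟨h1, h2⟩
  obtain ⟨a1, a2, a3, a4⟩ := w3_e1 h1
  obtain ⟨b1, b2, b3, b4⟩ := w3_e5 h2
  exfalso
  linarith

theorem w3_q23 : w3_P 2 3 := by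
  rintro x ⟨h1, h2⟩
  obtain ⟨a1, a2, a3, a4⟩ := w3_e2 h1
  obtain ⟨b1, b2, b3, b4⟩ := w3_e3 h2
  exact w3_adj rfl (w3_v3 (by linarith) (by linarith) (by linarith))

theorem w3_q24 : w3_P 2 4 := by
  rintro x ⟨h1, h2⟩
  obtain ⟨a1, a2, a3, a4⟩ := w3_e2 h1
  obtain ⟨b1, b2, b3, b4⟩ := w3_e4 h2
  exfalso
  linarith

theorem w3_q25 : w3_P 2 5 := by
  rintro x ⟨h1, h2⟩
  obtain ⟨a1, a2, a3, a4⟩ := w3_e2 h1
  obtain ⟨b1, b2, b3, b4⟩ := w3_e5 h2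
  exfalso
  linarith

theorem w3_q34 : w3_P 3 4 := by
  rintro x ⟨h1, h2⟩
  obtain ⟨a1, a2, a3, a4⟩ := w3_e3 h1
  obtain ⟨b1, b2, b3, b4⟩ := w3_e4 h2
  exact w3_adj rfl (w3_v4 (by linarith) (by linarith) (by linarith))

theorem w3_q35 : w3_P 3 5 := by
  rintro x ⟨h1, h2⟩
  obtain ⟨a1, a2, a3, a4⟩ := w3_e3 h1
  obtain ⟨b1, b2, b3, b4⟩ := w3_e5 h2
  exfalso
  linarith

theorem w3_q45 : w3_P 4 5 := by
  rintro x ⟨h1, h2⟩
  obtain ⟨a1, a2, a3, a4⟩ := w3_e4 h1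
  obtain ⟨b1, b2, b3, b4⟩ := w3_e5 h2
  exact w3_adj rfl (w3_v5 (by linarith) (by linarith) (by linarith))

theorem w3_q50 : w3_P 5 0 := by
  rintro x ⟨h1, h2⟩
  obtain ⟨a1, a2, a3, a4⟩ := w3_e5 h1
  obtain ⟨b1, b2, b3, b4⟩ := w3_e0 h2
  exact w3_adj rfl (w3_v0 (by linarith) (by linarith) (by linarith))

theorem w3_inj : Function.Injective tref := by
  intro i j h
  have h0 : tref i 0 = tref j 0 := by rw [h]
  have h1 : tref i 1 = tref j 1 := by rw [h]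
  have h2 : tref i 2 = tref j 2 := by rw [h]
  fin_cases i <;> fin_cases j <;> first
    | rfl
    | (exfalso; revert h0 h1 h2; simp [tref])

theorem w3_all (i j : Fin 6) (hij : i ≠ j) : w3_P i j := by
  fin_cases i <;> fin_cases j
  · exact absurd rfl hij
  · exact w3_q01
  · exact w3_q02
  · exact w3_q03
  · exact w3_q04
  · exact w3_symm w3_q50
  · exact w3_symm w3_q01
  · exact absurd rfl hij
  · exact w3_q12
  · exact w3_q13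
  · exact w3_q14
  · exact w3_q15
  · exact w3_symm w3_q02
  · exact w3_symm w3_q12
  · exact absurd rfl hij
  · exact w3_q23
  · exact w3_q24
  · exact w3_q25
  · exact w3_symm w3_q03
  · exact w3_symm w3_q13
  · exact w3_symm w3_q23
  · exact absurd rfl hij
  · exact w3_q34
  · exact w3_q35
  · exact w3_symm w3_q04
  · exact w3_symm w3_q14
  · exact w3_symm w3_q24
  · exact w3_symm w3_q34
  · exact absurd rfl hij
  · exact w3_q45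
  · exact w3_q50
  · exact w3_symm w3_q15
  · exact w3_symm w3_q25
  · exact w3_symm w3_q35
  · exact w3_symm w3_q45
  · exact absurd rfl hij

/-- W3 -/
theorem pW3 : W3 := ⟨w3_inj, fun i j hij => w3_all i j hij⟩

end Pool.Agent.H223.MB
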