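import Pool.Agent.H223.MB.Stm3

open scoped RealInnerProductSpace Topology
open Set Filter

namespace Pool.Agent.H223.MB

open CategoryTheory in
theorem w4_faith {X Y : Type} [TopologicalSpace X] [TopologicalSpace Y] (f : C(X, Y)) (g : C(Y, X))
    (h : g.comp f = ContinuousMap.id X) : (FundamentalGroupoid.map f).Faithful := by
  have h1 : FundamentalGroupoid.map f ⋙ FundamentalGroupoid.map g =
      𝟭 (FundamentalGroupoid X) := by
    rw [← FundamentalGroupoid.map_comp, h, FundamentalGroupoid.map_id]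
  exact Functor.Faithful.of_comp_eq h1

theorem w4_transfer {X Y : Type} [TopologicalSpace X] [TopologicalSpace Y] (f : C(X, Y))
    (g : C(Y, X)) (h : g.comp f = ContinuousMap.id X) (x : X) (α β : FundamentalGroup X x)
    (hne : α * β ≠ β * α) : ∃ (α' β' : FundamentalGroup Y (f x)), α' * β' ≠ β' * α' := by
  refine ⟨FundamentalGroup.map f x α, FundamentalGroup.map f x β, ?_⟩
  rw [← map_mul, ← map_mul]
  intro he
  apply hne
  have hf := w4_faith f g h
  exact (FundamentalGroupoid.map f).map_injective he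

theorem w4_homeo {K L : Set V} (e : V ≃ₜ V) (he : e '' K = L) : NC K → NC L := by
  rintro ⟨x, α, β, hne⟩
  have hmem : ∀ x : V, x ∉ K ↔ e x ∉ L := by
    intro x
    rw [← he, e.injective.mem_set_image]
  set φ : {p : V // p ∉ K} ≃ₜ {p : V // p ∉ L} := e.subtype hmem with hφ
  obtain ⟨α', β', hne'⟩ := w4_transfer ⟨φ, φ.continuous⟩ ⟨φ.symm, φ.symm.continuous⟩
    (by
      ext1 y
      exact φ.symm_apply_apply y) x α β hne
  exact ⟨φ x, α', β', hne'⟩

theorem pW4 : W4 := by
  rintro K L ⟨H, _, hH, _, hKL⟩ hNC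
  have h1 : IsHomeomorph (H 1) := hH 1 ⟨zero_le_one, le_rfl⟩
  exact w4_homeo (h1.homeomorph (H 1)) hKL hNC

end Pool.Agent.H223.MB
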