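import Pool.Agent.H223.MB.Stm3

open scoped RealInnerProductSpace Topology
open Set Filter

namespace Pool.Agent.H223.MB

abbrev w5_X := {p : ℝ × ℝ × ℝ // p ∉ HH}

theorem w5_NNc : Continuous fun q : ℝ × ℝ => NN q.1 q.2 := by
  unfold NN
  fun_prop

theorem w5_NNmul (t x y : ℝ) (ht : 0 ≤ t) : NN (t * x) (t * y) = t * NN x y := by
  unfold NN
  rw [abs_mul, abs_mul, abs_of_nonneg ht, mul_max_of_nonneg _ _ ht]
  congr 1 <;> ring

theorem w5_NNpos (x y : ℝ) (h : (x, y) ≠ ((0, 0) : ℝ × ℝ)) : 0 < NN x y := by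
  unfold NN
  have h3 : 0 < √(3:ℝ) := by positivity
  by_cases hy : y = 0
  · have hx : x ≠ 0 := by
      rintro rfl
      exact h (by rw [hy])
    refine lt_max_of_lt_right ?_
    have h1 := abs_pos.2 hx
    have h2 : 0 ≤ |y| / √3 := by positivity
    linarith
  · refine lt_max_of_lt_left ?_
    have h1 := abs_pos.2 hy
    positivity

def w5_S (ε : ℝ) : Set (ℝ × ℝ × ℝ) := {p | 0 < ε * p.2.2 ∨ 1 < NN p.1 p.2.1}
def w5_S2 : Set (ℝ × ℝ × ℝ) := {p | p.2.2 ≠ 0 ∨ NN p.1 p.2.1 < 1}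

theorem w5_S_HH {ε : ℝ} {p : ℝ × ℝ × ℝ} (h : p ∈ w5_S ε) : p ∉ HH := by
  rintro ⟨h1, h2⟩
  rcases h with h | h
  · rw [h1, mul_zero] at h; exact lt_irrefl _ h
  · rw [h2] at h; exact lt_irrefl _ h

theorem w5_S2_HH {p : ℝ × ℝ × ℝ} (h : p ∈ w5_S2) : p ∉ HH := by
  rintro ⟨h1, h2⟩
  rcases h with h | h
  · exact h h1
  · rw [h2] at h; exact lt_irrefl _ h

def w5_homeo (S : Set (ℝ × ℝ × ℝ)) (hS : ∀ p ∈ S, p ∉ HH) : {q : w5_X // q.1 ∈ S} ≃ₜ S where
  toFun q := ⟨q.1.1, q.2⟩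
  invFun p := ⟨⟨p.1, hS _ p.2⟩, p.2⟩
  left_inv _ := rfl
  right_inv _ := rfl
  continuous_toFun := Continuous.subtype_mk (continuous_subtype_val.comp continuous_subtype_val) _
  continuous_invFun := Continuous.subtype_mk (Continuous.subtype_mk continuous_subtype_val _) _

theorem w5_contr (ε : ℝ) (hε : ε * ε = 1) : ContractibleSpace (w5_S ε) := by
  rw [contractible_iff_id_nullhomotopic]
  have hf : ∀ (s : unitInterval) (p : w5_S ε),
      ((p.1.1, p.1.2.1, p.1.2.2 + (s:ℝ) * (ε * (p.1.2.2^2+1))) : ℝ×ℝ×ℝ) ∈ w5_S ε := by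
    rintro s ⟨⟨a, b, z⟩, h⟩
    rcases h with h | h
    · left
      simp only at h ⊢
      have hs := s.2.1
      have : ε * (z + s * (ε * (z^2+1))) = ε * z + (ε * ε) * (s * (z^2+1)) := by ring
      rw [this, hε]
      positivity
    · right
      exact h
  have hg : ∀ z : ℝ, 0 < ε * (z + ε * (z^2+1)) := by
    intro z
    have : ε * (z + ε * (z^2+1)) = ε * z + (ε * ε) * (z^2+1) := by ring
    rw [this, hε]
    have h2 : z ^ 2 = (ε * z) ^ 2 := by
      rw [mul_pow, pow_two ε, hε, one_mul]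
    rw [h2]
    nlinarith [sq_nonneg (ε * z + 1)]
  let f1 : C(w5_S ε, w5_S ε) := ⟨fun p => ⟨(p.1.1, p.1.2.1, p.1.2.2 + ε * (p.1.2.2^2+1)),
    Or.inl (hg _)⟩, by fun_prop⟩
  have h1 : ContinuousMap.Homotopic (ContinuousMap.id _) f1 :=
    ⟨{ toFun := fun q => ⟨(q.2.1.1, q.2.1.2.1, q.2.1.2.2 + (q.1:ℝ) * (ε * (q.2.1.2.2^2+1))),
         hf q.1 q.2⟩
       continuous_toFun := by fun_prop
       map_zero_left := by
         intro p
         apply Subtype.ext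
         simp
       map_one_left := by
         intro p
         apply Subtype.ext
         simp [f1] }⟩
  let c0 : w5_S ε := ⟨(2, 0, ε), Or.inl (by show 0 < ε * ε; rw [hε]; norm_num)⟩
  have h2 : ContinuousMap.Homotopic f1 (ContinuousMap.const _ c0) :=
    ⟨{ toFun := fun q => ⟨((1 - (q.1:ℝ)) * q.2.1.1 + q.1 * 2, (1 - (q.1:ℝ)) * q.2.1.2.1,
          (1 - (q.1:ℝ)) * (q.2.1.2.2 + ε * (q.2.1.2.2^2+1)) + q.1 * ε), by
            left
            have a1 := hg q.2.1.2.2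
            have a2 := q.1.2.1
            have a3 := q.1.2.2
            have e : ε * ((1 - (q.1:ℝ)) * (q.2.1.2.2 + ε * (q.2.1.2.2^2+1)) + q.1 * ε) =
              (1 - (q.1:ℝ)) * (ε * (q.2.1.2.2 + ε * (q.2.1.2.2^2+1))) + q.1 * (ε * ε) := by ring
            show 0 < ε * ((1 - (q.1:ℝ)) * (q.2.1.2.2 + ε * (q.2.1.2.2^2+1)) + q.1 * ε)
            rw [e, hε, mul_one]
            rcases a2.eq_or_lt with h | h
            · rw [← h]; simpa using a1
            · have : 0 ≤ (1 - (q.1:ℝ)) * (ε * (q.2.1.2.2 + ε * (q.2.1.2.2^2+1))) :=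
                mul_nonneg (by linarith) a1.le
              linarith⟩
       continuous_toFun := by fun_prop
       map_zero_left := by
         intro p
         apply Subtype.ext
         simp [f1]
       map_one_left := by
         intro p
         apply Subtype.ext
         simp [c0] }⟩
  exact ⟨c0, h1.trans h2⟩

theorem w5_star : StarConvex ℝ (0 : ℝ × ℝ × ℝ) w5_S2 := by
  rintro ⟨x, y, z⟩ h a b ha hb hab
  have e : a • (0 : ℝ × ℝ × ℝ) + b • (x, y, z) = (b * x, b * y, b * z) := by simp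
  rw [e]
  rcases h with h | h
  · by_cases hb0 : b = 0
    · right
      simp [hb0, NN]
    · left
      exact mul_ne_zero hb0 h
  · right
    simp only at h ⊢
    rw [w5_NNmul b x y hb]
    have hb1 : b ≤ 1 := by linarith
    by_cases hN : 0 ≤ NN x y
    · nlinarith
    · nlinarith

theorem w5_zero : (0 : ℝ × ℝ × ℝ) ∈ w5_S2 := by
  right
  simp [NN]

theorem w5_sc {X : Type} [TopologicalSpace X] {W : Set X} (hW : SimplyConnectedSpace W) {a b : X}
    (γ δ : Path a b) (hγ : ∀ t, γ t ∈ W) (hδ : ∀ t, δ t ∈ W) : Path.Homotopic γ δ := by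
  have ha : a ∈ W := by simpa using hγ 0
  have hb : b ∈ W := by simpa using hγ 1
  let γ' : Path (⟨a, ha⟩ : W) ⟨b, hb⟩ :=
    { toFun := fun t => ⟨γ t, hγ t⟩
      continuous_toFun := γ.continuous.subtype_mk _
      source' := by simp
      target' := by simp }
  let δ' : Path (⟨a, ha⟩ : W) ⟨b, hb⟩ :=
    { toFun := fun t => ⟨δ t, hδ t⟩
      continuous_toFun := δ.continuous.subtype_mk _
      source' := by simp
      target' := by simp }
  have h := SimplyConnectedSpace.paths_homotopic γ' δ'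
  exact h.map (⟨Subtype.val, continuous_subtype_val⟩ : C(W, X))

theorem w5_tr {X : Type} [TopologicalSpace X] {W : Set X} {a b c : X}
    (γ : Path a b) (δ : Path b c) (hγ : ∀ t, γ t ∈ W) (hδ : ∀ t, δ t ∈ W) (t : unitInterval) :
    γ.trans δ t ∈ W := by
  rw [Path.trans_apply]
  split_ifs
  · exact hγ _
  · exact hδ _

theorem w5_R {X : Type} [TopologicalSpace X] {W₁ W₂ : Set X} (h1 : SimplyConnectedSpace W₁)
    (h2 : SimplyConnectedSpace W₂) {x₀ y x : X} (σ τ : Path x₀ y) (hσ : ∀ t, σ t ∈ W₁)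
    (hτ : ∀ t, τ t ∈ W₂) (hρ : JoinedIn (W₁ ∩ W₂) y x) (γ δ : Path x₀ x) (hγ : ∀ t, γ t ∈ W₁)
    (hδ : ∀ t, δ t ∈ W₂) : Path.Homotopic.Quotient.mk (γ.trans δ.symm) =
      Path.Homotopic.Quotient.mk (σ.trans τ.symm) := by
  obtain ⟨ρ, hρ⟩ := hρ
  have e1 : Path.Homotopic γ (σ.trans ρ) :=
    w5_sc h1 _ _ hγ (w5_tr _ _ hσ fun t => (hρ t).1)
  have e2 : Path.Homotopic δ (τ.trans ρ) :=
    w5_sc h2 _ _ hδ (w5_tr _ _ hτ fun t => (hρ t).2)
  have e3 : Path.Homotopic (γ.trans δ.symm) ((σ.trans ρ).trans (τ.trans ρ).symm) :=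
    e1.hcomp e2.symm₂
  rw [Path.trans_symm] at e3
  have e4 : Path.Homotopic ((σ.trans ρ).trans (ρ.symm.trans τ.symm))
      (σ.trans (ρ.trans (ρ.symm.trans τ.symm))) := ⟨Path.Homotopy.transAssoc _ _ _⟩
  have e5 : Path.Homotopic ((ρ.trans ρ.symm).trans τ.symm) (ρ.trans (ρ.symm.trans τ.symm)) :=
    ⟨Path.Homotopy.transAssoc _ _ _⟩
  have e6 : Path.Homotopic (Path.refl y) (ρ.trans ρ.symm) := ⟨Path.Homotopy.reflTransSymm ρ⟩
  have e7 : Path.Homotopic ((Path.refl y).trans τ.symm) τ.symm := ⟨Path.Homotopy.reflTrans _⟩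
  have e8 : Path.Homotopic (ρ.trans (ρ.symm.trans τ.symm)) τ.symm :=
    e5.symm.trans ((e6.symm.hcomp (Path.Homotopic.refl τ.symm)).trans e7)
  exact Quotient.sound (e3.trans (e4.trans ((Path.Homotopic.refl σ).hcomp e8)))

theorem w5_lift {S : Set (ℝ × ℝ × ℝ)} (hS : IsPathConnected S) (hH : ∀ p ∈ S, p ∉ HH) {a b : w5_X}
    (ha : a.1 ∈ S) (hb : b.1 ∈ S) : JoinedIn {q : w5_X | q.1 ∈ S} a b := by
  obtain ⟨γ, hγ⟩ := hS.joinedIn a.1 ha b.1 hb
  refine ⟨{ toFun := fun t => ⟨γ t, hH _ (hγ t)⟩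
            continuous_toFun := γ.continuous.subtype_mk _
            source' := by simp
            target' := by simp }, fun t => hγ t⟩

theorem w5_cast {E : Type} [TopologicalSpace E] {S T : Set E} (h : IsPathConnected T) (e : S = T) :
    IsPathConnected S := e ▸ h

theorem w5_A : IsPathConnected {q : ℝ × ℝ | 1 < NN q.1 q.2} := by
  have h1 : IsPathConnected ({((0, 0) : ℝ × ℝ)}ᶜ : Set (ℝ × ℝ)) := by
    apply isPathConnected_compl_singleton_of_one_lt_rank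
    rw [← Module.finrank_eq_rank]
    simp
  have h2 := h1.image' (f := fun v : ℝ × ℝ => ((1 + (NN v.1 v.2)⁻¹) * v.1, (1 + (NN v.1 v.2)⁻¹) * v.2)) (by
    have hc : ContinuousOn (fun v : ℝ × ℝ => (NN v.1 v.2)⁻¹) ({((0, 0) : ℝ × ℝ)}ᶜ : Set (ℝ × ℝ)) :=
      w5_NNc.continuousOn.inv₀ fun v hv => (w5_NNpos v.1 v.2 hv).ne'
    exact ((continuousOn_const.add hc).mul continuousOn_fst).prodMk
      ((continuousOn_const.add hc).mul continuousOn_snd))
  refine w5_cast h2 ?_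
  ext ⟨x, y⟩
  simp only [mem_setOf_eq, mem_image]
  constructor
  · intro h
    have hN : 0 < NN x y := by linarith
    refine ⟨((1 - (NN x y)⁻¹) * x, (1 - (NN x y)⁻¹) * y), ?_, ?_⟩
    · intro h0
      have h3 : NN ((1 - (NN x y)⁻¹) * x) ((1 - (NN x y)⁻¹) * y) = NN x y - 1 := by
        rw [w5_NNmul _ _ _ (by have := inv_lt_one_of_one_lt₀ h; linarith)]
        field_simp
      have h4 : (1 - (NN x y)⁻¹) * x = 0 := congrArg Prod.fst h0
      have h5 : (1 - (NN x y)⁻¹) * y = 0 := congrArg Prod.snd h0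
      rw [h4, h5] at h3
      have h6 : NN 0 0 = 0 := by simp [NN]
      rw [h6] at h3
      linarith
    · have h3 : NN ((1 - (NN x y)⁻¹) * x) ((1 - (NN x y)⁻¹) * y) = NN x y - 1 := by
        rw [w5_NNmul _ _ _ (by have := inv_lt_one_of_one_lt₀ h; linarith)]
        field_simp
      simp only
      rw [h3]
      have h7 : NN x y - 1 ≠ 0 := by linarith
      have h8 : (1 + (NN x y - 1)⁻¹) * (1 - (NN x y)⁻¹) = 1 := by
        field_simp
        ring
      rw [← mul_assoc, ← mul_assoc, h8, one_mul, one_mul]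
  · rintro ⟨v, hv, he⟩
    have hN := w5_NNpos v.1 v.2 hv
    have h3 : x = (1 + (NN v.1 v.2)⁻¹) * v.1 := (congrArg Prod.fst he).symm
    have h4 : y = (1 + (NN v.1 v.2)⁻¹) * v.2 := (congrArg Prod.snd he).symm
    rw [h3, h4, w5_NNmul _ _ _ (by positivity)]
    have h5 : (1 + (NN v.1 v.2)⁻¹) * NN v.1 v.2 = NN v.1 v.2 + 1 := by
      field_simp
    rw [h5]
    linarith

theorem w5_B {I : Set ℝ} (hI : IsPathConnected I) :
    IsPathConnected {p : ℝ × ℝ × ℝ | 1 < NN p.1 p.2.1 ∧ p.2.2 ∈ I} := by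
  have h := (w5_A.prod hI).image (f := fun q : (ℝ × ℝ) × ℝ => (q.1.1, q.1.2, q.2)) (by fun_prop)
  refine w5_cast h ?_
  ext ⟨x, y, z⟩
  constructor
  · rintro ⟨h1, h2⟩
    exact ⟨((x, y), z), ⟨h1, h2⟩, rfl⟩
  · rintro ⟨⟨⟨a, b⟩, c⟩, ⟨h1, h2⟩, he⟩
    cases he
    exact ⟨h1, h2⟩

def w5_T : Fin 3 → Set (ℝ × ℝ × ℝ) := ![w5_S 1, w5_S (-1), w5_S2]

theorem w5_T_HH (i : Fin 3) : ∀ p ∈ w5_T i, p ∉ HH := by
  intro p hp
  fin_cases i
  · exact w5_S_HH (ε := 1) hp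
  · exact w5_S_HH (ε := -1) hp
  · exact w5_S2_HH hp

theorem w5_T_contr (i : Fin 3) : ContractibleSpace (w5_T i) := by
  fin_cases i
  · exact w5_contr 1 (by norm_num)
  · exact w5_contr (-1) (by norm_num)
  · exact w5_star.contractibleSpace ⟨0, w5_zero⟩

theorem w5_T_sc (i : Fin 3) : SimplyConnectedSpace {q : w5_X | q.1 ∈ w5_T i} := by
  have := w5_T_contr i
  have h : ContractibleSpace {q : w5_X // q.1 ∈ w5_T i} :=
    (w5_homeo (w5_T i) (w5_T_HH i)).contractibleSpace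
  have h2 : ContractibleSpace ({q : w5_X | q.1 ∈ w5_T i} : Set w5_X) := h
  infer_instance

theorem w5_T_open (i : Fin 3) : IsOpen (w5_T i) := by
  have hN : Continuous fun p : ℝ × ℝ × ℝ => NN p.1 p.2.1 :=
    w5_NNc.comp (continuous_fst.prodMk (continuous_fst.comp continuous_snd))
  have hS : ∀ ε : ℝ, IsOpen (w5_S ε) := by
    intro ε
    have h1 : IsOpen {p : ℝ × ℝ × ℝ | 0 < ε * p.2.2} := isOpen_lt continuous_const (by fun_prop)
    exact h1.union (isOpen_lt continuous_const hN)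
  fin_cases i
  · exact hS 1
  · exact hS (-1)
  · have h1 : IsOpen {p : ℝ × ℝ × ℝ | p.2.2 ≠ 0} := isOpen_ne_fun (by fun_prop) continuous_const
    exact h1.union (isOpen_lt hN continuous_const)

theorem w5_NN2 : NN 2 0 = 2 := by
  simp [NN]

theorem w5_B01 {p : ℝ × ℝ × ℝ} (h : 1 < NN p.1 p.2.1) : p ∈ w5_T 0 ∧ p ∈ w5_T 1 :=
  ⟨Or.inr h, Or.inr h⟩

theorem pW5 (gen : GEN) : W5 := by
  rintro ⟨x, α, β, hne⟩
  apply hne
  have hx₀ : ((2, 0, 1) : ℝ × ℝ × ℝ) ∉ HH := by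
    rintro ⟨h, -⟩
    norm_num at h
  have hy₀ : ((2, 0, -1) : ℝ × ℝ × ℝ) ∉ HH := by
    rintro ⟨h, -⟩
    norm_num at h
  obtain ⟨x₀, hx₀'⟩ : ∃ x₀ : w5_X, x₀.1 = (2, 0, 1) := ⟨⟨_, hx₀⟩, rfl⟩
  obtain ⟨y₀, hy₀'⟩ : ∃ y₀ : w5_X, y₀.1 = (2, 0, -1) := ⟨⟨_, hy₀⟩, rfl⟩
  have nx : 1 < NN x₀.1.1 x₀.1.2.1 := by rw [hx₀']; show 1 < NN 2 0; rw [w5_NN2]; norm_num
  have ny : 1 < NN y₀.1.1 y₀.1.2.1 := by rw [hy₀']; show 1 < NN 2 0; rw [w5_NN2]; norm_num
  have zx : 0 < x₀.1.2.2 := by rw [hx₀']; norm_num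
  have zy : y₀.1.2.2 < 0 := by rw [hy₀']; norm_num
  have mx : ∀ i, x₀.1 ∈ w5_T i := by
    intro i
    fin_cases i
    · exact (w5_B01 nx).1
    · exact (w5_B01 nx).2
    · exact Or.inl zx.ne'
  have my2 : y₀.1 ∈ w5_T 2 := Or.inl zy.ne
  have hBH : ∀ I : Set ℝ, ∀ p ∈ {p : ℝ × ℝ × ℝ | 1 < NN p.1 p.2.1 ∧ p.2.2 ∈ I}, p ∉ HH :=
    fun I p hp => w5_T_HH 0 p (w5_B01 hp.1).1
  obtain ⟨σ, hσ⟩ := w5_lift (w5_B (I := univ) isPathConnected_univ) (hBH _) (a := x₀) (b := y₀)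
    ⟨nx, trivial⟩ ⟨ny, trivial⟩
  have hc2 : IsPathConnected (w5_T 2) := by
    have := w5_T_contr 2
    exact isPathConnected_iff_pathConnectedSpace.2 inferInstance
  obtain ⟨τ, hτ⟩ := w5_lift hc2 (w5_T_HH 2) (mx 2) my2
  refine gen w5_X (fun i => {q | q.1 ∈ w5_T i}) x₀
    (fun i => (w5_T_open i).preimage continuous_subtype_val) ?_ mx w5_T_sc
    (Path.Homotopic.Quotient.mk (σ.trans τ.symm)) ?_ x α β
  · intro q
    rcases lt_trichotomy q.1.2.2 0 with h | h | h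
    · exact ⟨1, Or.inl (by show (0:ℝ) < -1 * q.1.2.2; linarith)⟩
    · rcases lt_trichotomy (NN q.1.1 q.1.2.1) 1 with h' | h' | h'
      · exact ⟨2, Or.inr h'⟩
      · exact absurd ⟨h, h'⟩ q.2
      · exact ⟨0, Or.inr h'⟩
    · exact ⟨0, Or.inl (by show (0:ℝ) < 1 * q.1.2.2; linarith)⟩
  intro i j hij x hi hj γ δ hγ hδ
  have L : JoinedIn ({q : w5_X | q.1 ∈ w5_T i} ∩ {q : w5_X | q.1 ∈ w5_T j}) x₀ x →
      Path.Homotopic.Quotient.mk (γ.trans δ.symm) = Path.Homotopic.Quotient.mk (Path.refl x₀) := by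
    intro hJ
    have h := w5_R (w5_T_sc i) (w5_T_sc j) (Path.refl x₀) (Path.refl x₀) (fun t => mx i)
      (fun t => mx j) hJ γ δ hγ hδ
    rw [h]
    simp
  have Rr : (i = 0 ∨ i = 1) → j = 2 →
      JoinedIn ({q : w5_X | q.1 ∈ w5_T i} ∩ {q : w5_X | q.1 ∈ w5_T j}) y₀ x →
      Path.Homotopic.Quotient.mk (γ.trans δ.symm) = Path.Homotopic.Quotient.mk (σ.trans τ.symm) := by
    intro h1 h2 hJ
    refine w5_R (w5_T_sc i) (w5_T_sc j) σ τ (fun t => ?_) (fun t => ?_) hJ γ δ hγ hδ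
    · rcases h1 with rfl | rfl
      · exact (w5_B01 (hσ t).1).1
      · exact (w5_B01 (hσ t).1).2
    · rw [h2]
      exact hτ t
  by_cases hij' : i = j
  · subst hij'
    exact Or.inl (L ⟨γ, fun t => ⟨hγ t, hγ t⟩⟩)
  have hcases : (i = 0 ∧ j = 1) ∨ (i = 0 ∧ j = 2) ∨ (i = 1 ∧ j = 2) := by
    revert hij hij'
    clear * -
    revert i j
    decide
  rcases hcases with ⟨rfl, rfl⟩ | ⟨rfl, rfl⟩ | ⟨rfl, rfl⟩
  · left
    have hx : 1 < NN x.1.1 x.1.2.1 := by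
      rcases hi with h | h
      · rcases hj with h' | h'
        · exfalso
          have a1 : (0:ℝ) < 1 * x.1.2.2 := h
          have a2 : (0:ℝ) < -1 * x.1.2.2 := h'
          linarith
        · exact h'
      · exact h
    apply L
    refine (w5_lift (w5_B (I := univ) isPathConnected_univ) (hBH _) (a := x₀) (b := x)
      ⟨nx, trivial⟩ ⟨hx, trivial⟩).mono fun q hq => ⟨(w5_B01 hq.1).1, (w5_B01 hq.1).2⟩
  · by_cases hz : 0 < x.1.2.2
    · left
      apply L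
      have hc : IsPathConnected {p : ℝ × ℝ × ℝ | 0 < p.2.2} := by
        refine Convex.isPathConnected ?_ ⟨(0, 0, 1), by simp⟩
        exact convex_halfSpace_gt (f := fun p : ℝ × ℝ × ℝ => p.2.2) ⟨fun _ _ => rfl, fun _ _ => rfl⟩ 0
      refine (w5_lift hc (fun p hp => w5_T_HH 2 p (Or.inl (ne_of_gt hp))) (a := x₀) (b := x) zx hz).mono
        fun q hq => ⟨Or.inl ?_, Or.inl (ne_of_gt hq)⟩
      have : 0 < q.1.2.2 := hq
      linarith
    · right
      have hN : 1 < NN x.1.1 x.1.2.1 := by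
        rcases hi with h | h
        · exfalso
          have a1 : (0:ℝ) < 1 * x.1.2.2 := h
          linarith
        · exact h
      have hz' : x.1.2.2 < 0 := by
        rcases hj with h | h
        · exact lt_of_le_of_ne (not_lt.1 hz) h
        · exfalso
          have a1 : NN x.1.1 x.1.2.1 < 1 := h
          linarith
      apply Rr (Or.inl rfl) rfl
      refine (w5_lift (w5_B (I := Iio 0) (convex_Iio 0 |>.isPathConnected ⟨-1, by simp⟩)) (hBH _)
        (a := y₀) (b := x) ⟨ny, zy⟩ ⟨hN, hz'⟩).mono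
        fun q hq => ⟨(w5_B01 hq.1).1, Or.inl (ne_of_lt hq.2)⟩
  · by_cases hz : x.1.2.2 < 0
    · right
      apply Rr (Or.inr rfl) rfl
      have hc : IsPathConnected {p : ℝ × ℝ × ℝ | p.2.2 < 0} := by
        refine Convex.isPathConnected ?_ ⟨(0, 0, -1), by simp⟩
        exact convex_halfSpace_lt (f := fun p : ℝ × ℝ × ℝ => p.2.2) ⟨fun _ _ => rfl, fun _ _ => rfl⟩ 0
      refine (w5_lift hc (fun p hp => w5_T_HH 2 p (Or.inl (ne_of_lt hp))) (a := y₀) (b := x) zy hz).mono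
        fun q hq => ⟨Or.inl ?_, Or.inl (ne_of_lt hq)⟩
      have : q.1.2.2 < 0 := hq
      linarith
    · left
      have hN : 1 < NN x.1.1 x.1.2.1 := by
        rcases hi with h | h
        · exfalso
          have a1 : (0:ℝ) < -1 * x.1.2.2 := h
          linarith
        · exact h
      have hz' : 0 < x.1.2.2 := by
        rcases hj with h | h
        · exact lt_of_le_of_ne (not_lt.1 hz) (Ne.symm h)
        · exfalso
          have a1 : NN x.1.1 x.1.2.1 < 1 := h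
          linarith
      apply L
      refine (w5_lift (w5_B (I := Ioi 0) (convex_Ioi 0 |>.isPathConnected ⟨1, by simp⟩)) (hBH _)
        (a := x₀) (b := x) ⟨nx, zx⟩ ⟨hN, hz'⟩).mono
        fun q hq => ⟨(w5_B01 hq.1).2, Or.inl (ne_of_gt hq.2)⟩

end Pool.Agent.H223.MB
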