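import Pool.Agent.H223.MB.Stm3
import Pool.Agent.H238.HK.RASb
import Pool.Agent.H238.HK.RBS
import Pool.Agent.H238.HK.RIOc
import Pool.Agent.H238.HK.ROO

open scoped RealInnerProductSpace Topology
open Set Filter

namespace Pool.Agent.H223.MB

open Pool.Agent.H238.HK (ff RK RC RA RB RI RO)

theorem w5_hom {X : Type} [TopologicalSpace X] (A : Set X) (hA : SimplyConnectedSpace A) {x y : X}
    (γ δ : Path x y) (hγ : ∀ t, γ t ∈ A) (hδ : ∀ t, δ t ∈ A) : Path.Homotopic γ δ := by
  have hx : x ∈ A := by simpa using hγ 0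
  have hy : y ∈ A := by simpa using hγ 1
  let γ' : Path (⟨x, hx⟩ : A) ⟨y, hy⟩ :=
    { toFun := fun t => ⟨γ t, hγ t⟩
      continuous_toFun := γ.continuous.subtype_mk _
      source' := by simp
      target' := by simp }
  let δ' : Path (⟨x, hx⟩ : A) ⟨y, hy⟩ :=
    { toFun := fun t => ⟨δ t, hδ t⟩
      continuous_toFun := δ.continuous.subtype_mk _
      source' := by simp
      target' := by simp }
  have h := (SimplyConnectedSpace.paths_homotopic γ' δ').map
    (⟨Subtype.val, continuous_subtype_val⟩ : C(A, X))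
  exact h

theorem w5_joined {X : Type} [TopologicalSpace X] {S : Set X} (h : IsPathConnected S) {x y : X}
    (hx : x ∈ S) (hy : y ∈ S) : ∃ ε : Path x y, ∀ t, ε t ∈ S := by
  obtain ⟨ε, hε⟩ := h.joinedIn x hx y hy
  exact ⟨ε, hε⟩

theorem w5_pc {X : Type} [TopologicalSpace X] {S : Set X} (h : SimplyConnectedSpace S) :
    IsPathConnected S := isPathConnected_iff_pathConnectedSpace.2 inferInstance

theorem w5_alg {X : Type} [TopologicalSpace X] {x₀ y₀ x : X} (a b : Path x₀ y₀) (ε : Path y₀ x)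
    (γ δ : Path x₀ x) (h1 : Path.Homotopic γ (a.trans ε)) (h2 : Path.Homotopic δ (b.trans ε)) :
    Path.Homotopic.Quotient.mk (γ.trans δ.symm) = Path.Homotopic.Quotient.mk (a.trans b.symm) := by
  have e1 := Path.Homotopic.Quotient.eq.2 h1
  have e2 := Path.Homotopic.Quotient.eq.2 h2
  rw [Path.Homotopic.Quotient.mk_trans, Path.Homotopic.Quotient.mk_symm, e1, e2,
    ← Path.Homotopic.Quotient.mk_symm, Path.trans_symm, Path.Homotopic.Quotient.mk_trans,
    Path.Homotopic.Quotient.mk_trans, Path.Homotopic.Quotient.mk_trans,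
    Path.Homotopic.Quotient.trans_assoc, ← Path.Homotopic.Quotient.trans_assoc
      (Path.Homotopic.Quotient.mk ε), Path.Homotopic.Quotient.mk_symm,
    Path.Homotopic.Quotient.trans_symm, Path.Homotopic.Quotient.refl_trans]

theorem w5_triv {X : Type} [TopologicalSpace X] {x₀ x : X} (ε γ δ : Path x₀ x)
    (h1 : Path.Homotopic γ ε) (h2 : Path.Homotopic δ ε) :
    Path.Homotopic.Quotient.mk (γ.trans δ.symm) =
      Path.Homotopic.Quotient.mk (Path.refl x₀) := by
  have e1 := Path.Homotopic.Quotient.eq.2 h1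
  have e2 := Path.Homotopic.Quotient.eq.2 h2
  rw [Path.Homotopic.Quotient.mk_trans, Path.Homotopic.Quotient.mk_symm, e1, e2,
    Path.Homotopic.Quotient.trans_symm, Path.Homotopic.Quotient.mk_refl]

theorem w5_comm (gen : GEN) (X : Type) [TopologicalSpace X] (A B I O : Set X) (hA : IsOpen A)
    (hB : IsOpen B) (hU : A ∪ B = univ) (hI : A ∩ B = I ∪ O) (hIc : IsPathConnected I)
    (hOc : IsPathConnected O) (sA : SimplyConnectedSpace A) (sB : SimplyConnectedSpace B) :
    ∀ (x : X) (α β : FundamentalGroup X x), α * β = β * α := by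
  obtain ⟨x₀, hx₀⟩ := hOc.nonempty
  obtain ⟨y₀, hy₀⟩ := hIc.nonempty
  have hIA : ∀ y ∈ I, y ∈ A ∧ y ∈ B := fun y hy => by
    have : y ∈ A ∩ B := by rw [hI]; exact Or.inl hy
    exact this
  have hOA : ∀ y ∈ O, y ∈ A ∧ y ∈ B := fun y hy => by
    have : y ∈ A ∩ B := by rw [hI]; exact Or.inr hy
    exact this
  obtain ⟨a, ha⟩ := w5_joined (w5_pc sA) (hOA x₀ hx₀).1 (hIA y₀ hy₀).1
  obtain ⟨b, hb⟩ := w5_joined (w5_pc sB) (hOA x₀ hx₀).2 (hIA y₀ hy₀).2
  have key : ∀ x, x ∈ A → x ∈ B → ∀ γ δ : Path x₀ x, (∀ t, γ t ∈ A) → (∀ t, δ t ∈ B) →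
      (Path.Homotopic.Quotient.mk (γ.trans δ.symm) =
        Path.Homotopic.Quotient.mk (Path.refl x₀) ∨
      Path.Homotopic.Quotient.mk (γ.trans δ.symm) =
        Path.Homotopic.Quotient.mk (a.trans b.symm)) := by
    intro x hxA hxB γ δ hγ hδ
    have hx : x ∈ I ∪ O := by rw [← hI]; exact ⟨hxA, hxB⟩
    rcases hx with hx | hx
    · right
      obtain ⟨ε, hε⟩ := w5_joined hIc hy₀ hx
      refine w5_alg a b ε γ δ (w5_hom A sA _ _ hγ ?_) (w5_hom B sB _ _ hδ ?_)
      · intro t
        have h1 : a.trans ε t ∈ range (a.trans ε) := ⟨t, rfl⟩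
        rw [Path.trans_range] at h1
        rcases h1 with ⟨s, hs⟩ | ⟨s, hs⟩
        · rw [← hs]; exact ha s
        · rw [← hs]; exact (hIA _ (hε s)).1
      · intro t
        have h1 : b.trans ε t ∈ range (b.trans ε) := ⟨t, rfl⟩
        rw [Path.trans_range] at h1
        rcases h1 with ⟨s, hs⟩ | ⟨s, hs⟩
        · rw [← hs]; exact hb s
        · rw [← hs]; exact (hIA _ (hε s)).2
    · left
      obtain ⟨ε, hε⟩ := w5_joined hOc hx₀ hx
      exact w5_triv ε γ δ (w5_hom A sA _ _ hγ (fun t => (hOA _ (hε t)).1))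
        (w5_hom B sB _ _ hδ (fun t => (hOA _ (hε t)).2))
  refine gen X ![A, A, B] x₀ ?_ ?_ ?_ ?_ (Path.Homotopic.Quotient.mk (a.trans b.symm)) ?_
  · intro i
    fin_cases i
    · exact hA
    · exact hA
    · exact hB
  · intro x
    have hx : x ∈ A ∪ B := by rw [hU]; exact mem_univ x
    rcases hx with hx | hx
    · exact ⟨0, hx⟩
    · exact ⟨2, hx⟩
  · intro i
    fin_cases i
    · exact (hOA x₀ hx₀).1
    · exact (hOA x₀ hx₀).1
    · exact (hOA x₀ hx₀).2
  · intro i
    fin_cases i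
    · exact sA
    · exact sA
    · exact sB
  · have kA : ∀ x, x ∈ A → x ∈ A → ∀ γ δ : Path x₀ x, (∀ t, γ t ∈ A) → (∀ t, δ t ∈ A) →
      (Path.Homotopic.Quotient.mk (γ.trans δ.symm) =
        Path.Homotopic.Quotient.mk (Path.refl x₀) ∨
      Path.Homotopic.Quotient.mk (γ.trans δ.symm) =
        Path.Homotopic.Quotient.mk (a.trans b.symm)) :=
      fun x _ _ γ δ hγ hδ => Or.inl (w5_triv γ γ δ (Path.Homotopic.refl _) (w5_hom A sA _ _ hδ hγ))
    have kB : ∀ x, x ∈ B → x ∈ B → ∀ γ δ : Path x₀ x, (∀ t, γ t ∈ B) → (∀ t, δ t ∈ B) →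
      (Path.Homotopic.Quotient.mk (γ.trans δ.symm) =
        Path.Homotopic.Quotient.mk (Path.refl x₀) ∨
      Path.Homotopic.Quotient.mk (γ.trans δ.symm) =
        Path.Homotopic.Quotient.mk (a.trans b.symm)) :=
      fun x _ _ γ δ hγ hδ => Or.inl (w5_triv γ γ δ (Path.Homotopic.refl _) (w5_hom B sB _ _ hδ hγ))
    intro i j hij
    fin_cases i <;> fin_cases j
    · exact kA
    · exact kA
    · exact key
    · exact kA
    · exact kA
    · exact key
    · exact absurd hij (by decide)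
    · exact absurd hij (by decide)
    · exact kB

theorem w5_abs (u v : ℝ) : max |u + v| |u - v| = |u| + |v| := by
  apply le_antisymm
  · refine max_le (abs_add_le u v) ?_
    have := abs_add_le u (-v)
    rwa [abs_neg, ← sub_eq_add_neg] at this
  · rcases le_total 0 u with hu | hu <;> rcases le_total 0 v with hv | hv
    · refine le_max_of_le_left ?_
      rw [abs_of_nonneg hu, abs_of_nonneg hv]
      exact le_abs_self _
    · refine le_max_of_le_right ?_
      rw [abs_of_nonneg hu, abs_of_nonpos hv, ← sub_eq_add_neg]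
      exact le_abs_self _
    · refine le_max_of_le_right ?_
      rw [abs_of_nonpos hu, abs_of_nonneg hv]
      have := neg_le_abs (u - v)
      linarith
    · refine le_max_of_le_left ?_
      rw [abs_of_nonpos hu, abs_of_nonpos hv]
      have := neg_le_abs (u + v)
      linarith

theorem w5_ff (x y : ℝ) : ff x y = √3 * NN x y := by
  have h3 : (0 : ℝ) < √3 := Real.sqrt_pos.2 (by norm_num)
  unfold ff NN
  rw [w5_abs, mul_max_of_nonneg _ _ h3.le, abs_mul, abs_of_pos h3, max_comm]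
  congr 1
  · field_simp
  · field_simp

theorem w5_HH : HH = RK := by
  have h3 : (√3 : ℝ) ≠ 0 := (Real.sqrt_pos.2 (by norm_num)).ne'
  ext p
  change (p.2.2 = 0 ∧ NN p.1 p.2.1 = 1) ↔ (p.2.2 = 0 ∧ ff p.1 p.2.1 = √3)
  rw [w5_ff, mul_eq_left₀ h3]

theorem w5_cont : Continuous (fun p : RC => ff p.1.1 p.1.2.1) := by
  unfold ff
  fun_prop

theorem pW5 (gen : GEN) : W5 := by
  unfold W5
  rw [w5_HH]
  rintro ⟨x, α, β, h⟩
  apply h
  have hc := w5_cont
  have hz : Continuous (fun p : RC => p.1.2.2) := by fun_prop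
  have hA : IsOpen RA :=
    (isOpen_lt continuous_const hz).union (isOpen_ne_fun hc continuous_const)
  have hB : IsOpen RB :=
    (isOpen_lt hz continuous_const).union (isOpen_ne_fun hc continuous_const)
  have hU : RA ∪ RB = univ := by
    rw [eq_univ_iff_forall]
    intro p
    by_cases hf : ff p.1.1 p.1.2.1 = √3
    · have hp : p.1.2.2 ≠ 0 := fun h0 => p.2 ⟨h0, hf⟩
      rcases lt_or_gt_of_ne hp with h | h
      · exact Or.inr (Or.inl h)
      · exact Or.inl (Or.inl h)
    · exact Or.inl (Or.inr hf)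
  have hI : RA ∩ RB = RI ∪ RO := by
    ext p
    constructor
    · rintro ⟨ha, hb'⟩
      by_cases hf : ff p.1.1 p.1.2.1 = √3
      · have h5 : 0 < p.1.2.2 := ha.resolve_right (fun h => h hf)
        have h6 : p.1.2.2 < 0 := hb'.resolve_right (fun h => h hf)
        exact absurd h5 (not_lt.2 h6.le)
      · rcases lt_or_gt_of_ne hf with h | h
        · exact Or.inl h
        · exact Or.inr h
    · rintro (h | h)
      · have h' : ff p.1.1 p.1.2.1 < √3 := h
        exact ⟨Or.inr h'.ne, Or.inr h'.ne⟩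
      · have h' : √3 < ff p.1.1 p.1.2.1 := h
        exact ⟨Or.inr h'.ne', Or.inr h'.ne'⟩
  exact w5_comm gen RC RA RB RI RO hA hB hU hI Pool.Agent.H238.HK.pRIO Pool.Agent.H238.HK.pROO
    Pool.Agent.H238.HK.pRAS Pool.Agent.H238.HK.pRBS x α β

end Pool.Agent.H223.MB
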